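import Mathlib
import Pool.Agent.Helper33.KS.Moment

/-!
# Random sets: a black box (project KS, MP_768c9c_nt)

* `moment2`, `upper_tail2`: high moments with the factor `2 ^ (D * k)` (unbounded supports);
* `mult_tail`: the number of sets `S t ⊆ R` is bounded;
* `exists_R`: one set `R` for countably many requirements of three kinds.
-/

set_option autoImplicit false

open MeasureTheory
open Pool.Agent.Helper33.KS

namespace Pool.Agent.Helper62.KS

section general

variable {Ω ι τ : Type*}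

/-! ### Upper tail with unbounded supports -/

theorem sum_sdiff_le2 [DecidableEq ι] (T : Finset τ) (w : τ → ℝ) (S : τ → Finset ι) (p : ι → ℝ)
    (hp : ∀ i, 0 ≤ p i) (hw : ∀ t ∈ T, 0 ≤ w t) (L : ℝ)
    (hL : ∀ A : Finset ι,
      ∑ t ∈ T.filter (fun t => A ⊆ S t), w t * ∏ i ∈ S t \ A, p i ≤ L) (U : Finset ι) :
    ∑ t ∈ T, w t * ∏ i ∈ S t \ U, p i ≤ 2 ^ U.card * L := by
  classical
  have hterm : ∀ t ∈ T, ∀ A : Finset ι, 0 ≤ w t * ∏ i ∈ S t \ A, p i := fun t ht A =>
    mul_nonneg (hw t ht) (Finset.prod_nonneg fun i _ => hp i)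
  have h1 : ∀ t ∈ T, w t * ∏ i ∈ S t \ U, p i ≤
      ∑ A ∈ U.powerset, if A ⊆ S t then w t * ∏ i ∈ S t \ A, p i else 0 := by
    intro t ht
    have hmem : S t ∩ U ∈ U.powerset := Finset.mem_powerset.mpr Finset.inter_subset_right
    have h2 : (if S t ∩ U ⊆ S t then w t * ∏ i ∈ S t \ (S t ∩ U), p i else 0) ≤
        ∑ A ∈ U.powerset, if A ⊆ S t then w t * ∏ i ∈ S t \ A, p i else 0 := by
      refine Finset.single_le_sum
        (f := fun A => if A ⊆ S t then w t * ∏ i ∈ S t \ A, p i else 0) ?_ hmem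
      intro A _
      show 0 ≤ if A ⊆ S t then w t * ∏ i ∈ S t \ A, p i else 0
      split_ifs
      · exact hterm t ht A
      · exact le_rfl
    rwa [if_pos Finset.inter_subset_left, Finset.sdiff_inter_self_left] at h2
  refine (Finset.sum_le_sum h1).trans ?_
  rw [Finset.sum_comm]
  calc ∑ A ∈ U.powerset, ∑ t ∈ T, (if A ⊆ S t then w t * ∏ i ∈ S t \ A, p i else 0)
      ≤ ∑ _A ∈ U.powerset, L := by
        refine Finset.sum_le_sum fun A _ => ?_
        rw [← Finset.sum_filter]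
        exact hL A
    _ = 2 ^ U.card * L := by
        rw [Finset.sum_const, Finset.card_powerset, nsmul_eq_mul]
        push_cast
        rfl

variable [MeasurableSpace Ω]

theorem moment2_aux [DecidableEq ι] (μ : Measure Ω) [IsProbabilityMeasure μ] (R : Ω → Set ι)
    (hmeas : ∀ A : Finset ι, MeasurableSet {ω | (A : Set ι) ⊆ R ω}) (p : ι → ℝ)
    (hp : ∀ i, 0 ≤ p i)
    (hub : ∀ A : Finset ι, μ.real {ω | (A : Set ι) ⊆ R ω} ≤ ∏ i ∈ A, p i)
    (T : Finset τ) (w : τ → ℝ) (S : τ → Finset ι) (hw : ∀ t ∈ T, 0 ≤ w t) (D : ℕ)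
    (hS : ∀ t ∈ T, (S t).card ≤ D) (L : ℝ) (hL0 : 0 ≤ L)
    (hL : ∀ A : Finset ι,
      ∑ t ∈ T.filter (fun t => A ⊆ S t), w t * ∏ i ∈ S t \ A, p i ≤ L) (k : ℕ) :
    ∀ U : Finset ι, ∫ ω, ind (R ω) U * YY T w S (R ω) ^ k ∂μ ≤
      (∏ i ∈ U, p i) * ∏ i ∈ Finset.range k, (2 ^ (U.card + D * i) * L) := by
  induction k with
  | zero =>
    intro U
    simp only [pow_zero, mul_one, Finset.range_zero, Finset.prod_empty]
    rw [ind_eq_indicator, integral_indicator (hmeas U), setIntegral_const]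
    simpa using hub U
  | succ k ih =>
    intro U
    have h1 : ∀ ω, ind (R ω) U * YY T w S (R ω) ^ (k + 1) =
        ∑ t ∈ T, w t * (ind (R ω) (U ∪ S t) * YY T w S (R ω) ^ k) := by
      intro ω
      rw [pow_succ', ← mul_assoc]
      have h2 : ind (R ω) U * YY T w S (R ω) = ∑ t ∈ T, w t * ind (R ω) (U ∪ S t) := by
        unfold YY
        rw [Finset.mul_sum]
        refine Finset.sum_congr rfl fun t _ => ?_
        rw [← ind_union]
        ring
      rw [h2, Finset.sum_mul]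
      refine Finset.sum_congr rfl fun t _ => ?_
      ring
    simp only [h1]
    rw [integral_finsetSum _ fun t _ =>
      (integrable_aux μ hmeas T w S hw (U ∪ S t) k).const_mul (w t)]
    simp only [integral_const_mul]
    set G := ∏ i ∈ Finset.range k, ((2 : ℝ) ^ (U.card + D * (i + 1)) * L) with hG
    have hG0 : 0 ≤ G := Finset.prod_nonneg fun i _ => by positivity
    have h3 : ∀ t ∈ T, w t * ∫ ω, ind (R ω) (U ∪ S t) * YY T w S (R ω) ^ k ∂μ ≤
        (∏ i ∈ U, p i) * G * (w t * ∏ i ∈ S t \ U, p i) := by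
      intro t ht
      have h4 := ih (U ∪ S t)
      have h5 : ∏ i ∈ Finset.range k, ((2 : ℝ) ^ ((U ∪ S t).card + D * i) * L) ≤ G := by
        rw [hG]
        refine Finset.prod_le_prod (fun i _ => by positivity) fun i _ => ?_
        have h6 : (U ∪ S t).card + D * i ≤ U.card + D * (i + 1) := by
          have h7 := Finset.card_union_le U (S t)
          have h8 := hS t ht
          rw [mul_add, mul_one]
          omega
        exact mul_le_mul_of_nonneg_right (pow_le_pow_right₀ (by norm_num) h6) hL0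
      have h11 : ∏ i ∈ U ∪ S t, p i = (∏ i ∈ U, p i) * ∏ i ∈ S t \ U, p i := by
        rw [← Finset.union_sdiff_self_eq_union, Finset.prod_union Finset.disjoint_sdiff]
      have hPU : 0 ≤ ∏ i ∈ U, p i := Finset.prod_nonneg fun i _ => hp i
      have hPS : 0 ≤ ∏ i ∈ S t \ U, p i := Finset.prod_nonneg fun i _ => hp i
      calc w t * ∫ ω, ind (R ω) (U ∪ S t) * YY T w S (R ω) ^ k ∂μ
          ≤ w t * ((∏ i ∈ U ∪ S t, p i) *
            ∏ i ∈ Finset.range k, ((2 : ℝ) ^ ((U ∪ S t).card + D * i) * L)) :=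
            mul_le_mul_of_nonneg_left h4 (hw t ht)
        _ ≤ w t * ((∏ i ∈ U ∪ S t, p i) * G) := by
            apply mul_le_mul_of_nonneg_left _ (hw t ht)
            exact mul_le_mul_of_nonneg_left h5 (Finset.prod_nonneg fun i _ => hp i)
        _ = (∏ i ∈ U, p i) * G * (w t * ∏ i ∈ S t \ U, p i) := by rw [h11]; ring
    refine (Finset.sum_le_sum h3).trans ?_
    rw [← Finset.mul_sum]
    have h12 := sum_sdiff_le2 T w S p hp hw L hL U
    rw [Finset.prod_range_succ', mul_zero, add_zero, mul_assoc]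
    apply mul_le_mul_of_nonneg_left _ (Finset.prod_nonneg fun i _ => hp i)
    exact mul_le_mul_of_nonneg_left h12 hG0

/-- High moments, the supports have at most `D` elements. -/
theorem moment2 [DecidableEq ι] (μ : Measure Ω) [IsProbabilityMeasure μ] (R : Ω → Set ι)
    (hmeas : ∀ A : Finset ι, MeasurableSet {ω | (A : Set ι) ⊆ R ω}) (p : ι → ℝ)
    (hp : ∀ i, 0 ≤ p i)
    (hub : ∀ A : Finset ι, μ.real {ω | (A : Set ι) ⊆ R ω} ≤ ∏ i ∈ A, p i)
    (T : Finset τ) (w : τ → ℝ) (S : τ → Finset ι) (hw : ∀ t ∈ T, 0 ≤ w t) (D : ℕ)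
    (hS : ∀ t ∈ T, (S t).card ≤ D) (L : ℝ) (hL0 : 0 ≤ L)
    (hL : ∀ A : Finset ι,
      ∑ t ∈ T.filter (fun t => A ⊆ S t), w t * ∏ i ∈ S t \ A, p i ≤ L) (k : ℕ) :
    ∫ ω, YY T w S (R ω) ^ k ∂μ ≤ (2 ^ (D * k) * L) ^ k := by
  have h := moment2_aux μ R hmeas p hp hub T w S hw D hS L hL0 hL k ∅
  have h2 : ∏ i ∈ Finset.range k, ((2 : ℝ) ^ ((∅ : Finset ι).card + D * i) * L) ≤
      (2 ^ (D * k) * L) ^ k := by
    calc ∏ i ∈ Finset.range k, ((2 : ℝ) ^ ((∅ : Finset ι).card + D * i) * L)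
        ≤ ∏ _i ∈ Finset.range k, ((2 : ℝ) ^ (D * k) * L) := by
          refine Finset.prod_le_prod (fun i _ => by positivity) fun i hi => ?_
          apply mul_le_mul_of_nonneg_right _ hL0
          apply pow_le_pow_right₀ (by norm_num)
          rw [Finset.card_empty, zero_add]
          exact Nat.mul_le_mul_left D (Finset.mem_range.mp hi).le
      _ = (2 ^ (D * k) * L) ^ k := by rw [Finset.prod_const, Finset.card_range]
  simp only [ind_empty, one_mul, Finset.prod_empty] at h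
  exact h.trans h2

/-- Upper tail, the supports have at most `D` elements. -/
theorem upper_tail2 [DecidableEq ι] (μ : Measure Ω) [IsProbabilityMeasure μ] (R : Ω → Set ι)
    (hmeas : ∀ A : Finset ι, MeasurableSet {ω | (A : Set ι) ⊆ R ω}) (p : ι → ℝ)
    (hp : ∀ i, 0 ≤ p i)
    (hub : ∀ A : Finset ι, μ.real {ω | (A : Set ι) ⊆ R ω} ≤ ∏ i ∈ A, p i)
    (T : Finset τ) (w : τ → ℝ) (S : τ → Finset ι) (hw : ∀ t ∈ T, 0 ≤ w t) (D : ℕ)
    (hS : ∀ t ∈ T, (S t).card ≤ D) (L : ℝ)
    (hL : ∀ A : Finset ι,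
      ∑ t ∈ T.filter (fun t => A ⊆ S t), w t * ∏ i ∈ S t \ A, p i ≤ L) (k : ℕ)
    (l : ℝ) (hl : 0 < l) :
    μ.real {ω | l ≤ YY T w S (R ω)} ≤ (2 ^ (D * k) * L / l) ^ k := by
  have hL0 : 0 ≤ L := le_trans (Finset.sum_nonneg fun t ht =>
    mul_nonneg (hw t (Finset.mem_filter.mp ht).1) (Finset.prod_nonneg fun i _ => hp i)) (hL ∅)
  have h := moment2 μ R hmeas p hp hub T w S hw D hS L hL0 hL k
  have hint : Integrable (fun ω => YY T w S (R ω) ^ k) μ := by
    have := integrable_aux μ hmeas T w S hw ∅ k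
    simpa [ind_empty] using this
  have h1 := mul_meas_ge_le_integral_of_nonneg (μ := μ) (f := fun ω => YY T w S (R ω) ^ k)
    (Filter.Eventually.of_forall fun ω => pow_nonneg (YY_nonneg hw S (R ω)) k) hint (l ^ k)
  rw [div_pow, le_div_iff₀ (pow_pos hl k), mul_comm]
  refine le_trans ?_ (h1.trans h)
  apply mul_le_mul_of_nonneg_left _ (pow_pos hl k).le
  refine measureReal_mono ?_ (measure_ne_top _ _)
  intro ω hω
  exact pow_le_pow_left₀ hl.le hω k

/-! ### Multiplicities -/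

open Classical in
/-- the number of sequences of `n` indices, each of them with a support in `R` not
contained in the union of `U` and the previous supports (`0` if `U` is not in `R`) -/
noncomputable def chain (T : Finset τ) (S : τ → Finset ι) : ℕ → Finset ι → Set ι → ℝ
  | 0, U, R => ind R U
  | n + 1, U, R => ∑ t ∈ T.filter (fun t => ¬ S t ⊆ U), chain T S n (U ∪ S t) R

omit [MeasurableSpace Ω] in
theorem chain_nonneg (T : Finset τ) (S : τ → Finset ι) (n : ℕ) (R : Set ι) :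
    ∀ U : Finset ι, 0 ≤ chain T S n U R := by
  classical
  induction n with
  | zero => intro U; exact ind_nonneg _ _
  | succ n ih => intro U; exact Finset.sum_nonneg fun t _ => ih _

open Classical in
omit [MeasurableSpace Ω] in
theorem chain_ge (T : Finset τ) (S : τ → Finset ι) (hinj : Set.InjOn S (T : Set τ)) (D : ℕ)
    (hS : ∀ t ∈ T, (S t).card ≤ D) (R : Set ι) (n : ℕ) :
    ∀ U : Finset ι, (U : Set ι) ⊆ R →
      (∀ m, n = m + 1 → 2 ^ (U.card + m * D) <
        (T.filter (fun t => (S t : Set ι) ⊆ R)).card) → 1 ≤ chain T S n U R := by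
  induction n with
  | zero =>
    intro U hU _
    show 1 ≤ ind R U
    unfold ind
    rw [if_pos hU]
  | succ n ih =>
    intro U hU hn
    have h1 := hn n rfl
    -- an index with a support not contained in `U`
    have h2 : ∃ t ∈ T.filter (fun t => (S t : Set ι) ⊆ R), ¬ S t ⊆ U := by
      by_contra hcon
      push Not at hcon
      have h3 : (T.filter (fun t => (S t : Set ι) ⊆ R)).card ≤ U.powerset.card := by
        refine Finset.card_le_card_of_injOn S ?_ ?_
        · intro t ht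
          exact Finset.mem_coe.mpr (Finset.mem_powerset.mpr (hcon t ht))
        · exact hinj.mono (by
            intro t ht
            exact (Finset.mem_filter.mp (Finset.mem_coe.mp ht)).1)
      rw [Finset.card_powerset] at h3
      have h4 : (2 : ℕ) ^ U.card ≤ 2 ^ (U.card + n * D) :=
        Nat.pow_le_pow_right (by norm_num) (Nat.le_add_right _ _)
      omega
    obtain ⟨t, ht, htU⟩ := h2
    rw [Finset.mem_filter] at ht
    have h5 : 1 ≤ chain T S n (U ∪ S t) R := by
      apply ih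
      · rw [Finset.coe_union]
        exact Set.union_subset hU ht.2
      · intro m hm
        refine lt_of_le_of_lt ?_ h1
        apply Nat.pow_le_pow_right (by norm_num)
        have h6 := Finset.card_union_le U (S t)
        have h7 := hS t ht.1
        rw [hm, add_mul, one_mul]
        omega
    refine h5.trans ?_
    show chain T S n (U ∪ S t) R ≤ ∑ t ∈ T.filter (fun t => ¬ S t ⊆ U), chain T S n (U ∪ S t) R
    exact Finset.single_le_sum (f := fun t => chain T S n (U ∪ S t) R)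
      (fun t _ => chain_nonneg T S n R _) (Finset.mem_filter.mpr ⟨ht.1, htU⟩)

omit [MeasurableSpace Ω] in
theorem sum_sdiff_strict [DecidableEq ι] (T : Finset τ) (S : τ → Finset ι) (p : ι → ℝ)
    (hp : ∀ i, 0 ≤ p i) (L : ℝ)
    (hL : ∀ A : Finset ι,
      ∑ t ∈ T.filter (fun t => A ⊂ S t), ∏ i ∈ S t \ A, p i ≤ L) (U : Finset ι) :
    ∑ t ∈ T.filter (fun t => ¬ S t ⊆ U), ∏ i ∈ S t \ U, p i ≤ 2 ^ U.card * L := by
  classical
  have hterm : ∀ (t : τ) (A : Finset ι), 0 ≤ ∏ i ∈ S t \ A, p i := fun t A =>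
    Finset.prod_nonneg fun i _ => hp i
  have h1 : ∀ t ∈ T.filter (fun t => ¬ S t ⊆ U), ∏ i ∈ S t \ U, p i ≤
      ∑ A ∈ U.powerset, if A ⊂ S t then ∏ i ∈ S t \ A, p i else 0 := by
    intro t ht
    have htU := (Finset.mem_filter.mp ht).2
    have hmem : S t ∩ U ∈ U.powerset := Finset.mem_powerset.mpr Finset.inter_subset_right
    have hss : S t ∩ U ⊂ S t := by
      refine Finset.ssubset_iff_subset_ne.mpr ⟨Finset.inter_subset_left, fun h => htU ?_⟩
      rw [← h]
      exact Finset.inter_subset_right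
    have h2 : (if S t ∩ U ⊂ S t then ∏ i ∈ S t \ (S t ∩ U), p i else 0) ≤
        ∑ A ∈ U.powerset, if A ⊂ S t then ∏ i ∈ S t \ A, p i else 0 := by
      refine Finset.single_le_sum
        (f := fun A => if A ⊂ S t then ∏ i ∈ S t \ A, p i else 0) ?_ hmem
      intro A _
      show 0 ≤ if A ⊂ S t then ∏ i ∈ S t \ A, p i else 0
      split_ifs
      · exact hterm t A
      · exact le_rfl
    rwa [if_pos hss, Finset.sdiff_inter_self_left] at h2
  have h3 : ∑ t ∈ T.filter (fun t => ¬ S t ⊆ U), ∏ i ∈ S t \ U, p i ≤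
      ∑ t ∈ T, ∑ A ∈ U.powerset, (if A ⊂ S t then ∏ i ∈ S t \ A, p i else 0) := by
    refine (Finset.sum_le_sum h1).trans ?_
    refine Finset.sum_le_sum_of_subset_of_nonneg (Finset.filter_subset _ _) fun t _ _ => ?_
    refine Finset.sum_nonneg fun A _ => ?_
    split_ifs
    · exact hterm t A
    · exact le_rfl
  refine h3.trans ?_
  rw [Finset.sum_comm]
  calc ∑ A ∈ U.powerset, ∑ t ∈ T, (if A ⊂ S t then ∏ i ∈ S t \ A, p i else 0)
      ≤ ∑ _A ∈ U.powerset, L := by
        refine Finset.sum_le_sum fun A _ => ?_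
        rw [← Finset.sum_filter]
        exact hL A
    _ = 2 ^ U.card * L := by
        rw [Finset.sum_const, Finset.card_powerset, nsmul_eq_mul]
        push_cast
        rfl

theorem chain_meas (μ : Measure Ω) [IsProbabilityMeasure μ] {R : Ω → Set ι}
    (hmeas : ∀ A : Finset ι, MeasurableSet {ω | (A : Set ι) ⊆ R ω})
    (T : Finset τ) (S : τ → Finset ι) (n : ℕ) :
    ∀ U : Finset ι, Integrable (fun ω => chain T S n U (R ω)) μ := by
  classical
  induction n with
  | zero =>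
    intro U
    show Integrable (fun ω => ind (R ω) U) μ
    rw [ind_eq_indicator]
    exact (integrable_const (1 : ℝ)).indicator (hmeas U)
  | succ n ih =>
    intro U
    show Integrable (fun ω => ∑ t ∈ T.filter (fun t => ¬ S t ⊆ U), chain T S n (U ∪ S t) (R ω)) μ
    exact integrable_finsetSum _ fun t _ => ih _

theorem chain_mean (μ : Measure Ω) [IsProbabilityMeasure μ] (R : Ω → Set ι)
    (hmeas : ∀ A : Finset ι, MeasurableSet {ω | (A : Set ι) ⊆ R ω}) (p : ι → ℝ)
    (hp : ∀ i, 0 ≤ p i)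
    (hub : ∀ A : Finset ι, μ.real {ω | (A : Set ι) ⊆ R ω} ≤ ∏ i ∈ A, p i)
    (T : Finset τ) (S : τ → Finset ι) (D : ℕ)
    (hS : ∀ t ∈ T, (S t).card ≤ D) (L : ℝ) (hL0 : 0 ≤ L)
    (hL : ∀ A : Finset ι, ∀ [DecidableEq ι],
      ∑ t ∈ T.filter (fun t => A ⊂ S t), ∏ i ∈ S t \ A, p i ≤ L) (n : ℕ) :
    ∀ U : Finset ι, ∫ ω, chain T S n U (R ω) ∂μ ≤
      (∏ i ∈ U, p i) * ∏ i ∈ Finset.range n, (2 ^ (U.card + D * i) * L) := by
  classical
  induction n with
  | zero =>
    intro U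
    show ∫ ω, ind (R ω) U ∂μ ≤ _
    rw [ind_eq_indicator, integral_indicator (hmeas U), setIntegral_const]
    simpa using hub U
  | succ n ih =>
    intro U
    have h0 : ∫ ω, chain T S (n + 1) U (R ω) ∂μ =
        ∑ t ∈ T.filter (fun t => ¬ S t ⊆ U), ∫ ω, chain T S n (U ∪ S t) (R ω) ∂μ := by
      rw [← integral_finsetSum _ fun t _ => chain_meas μ hmeas T S n _]
      rfl
    rw [h0]
    set G := ∏ i ∈ Finset.range n, ((2 : ℝ) ^ (U.card + D * (i + 1)) * L) with hG
    have hG0 : 0 ≤ G := Finset.prod_nonneg fun i _ => by positivity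
    have h3 : ∀ t ∈ T.filter (fun t => ¬ S t ⊆ U), ∫ ω, chain T S n (U ∪ S t) (R ω) ∂μ ≤
        (∏ i ∈ U, p i) * G * ∏ i ∈ S t \ U, p i := by
      intro t ht
      have htT := (Finset.mem_filter.mp ht).1
      have h4 := ih (U ∪ S t)
      have h5 : ∏ i ∈ Finset.range n, ((2 : ℝ) ^ ((U ∪ S t).card + D * i) * L) ≤ G := by
        rw [hG]
        refine Finset.prod_le_prod (fun i _ => by positivity) fun i _ => ?_
        have h6 : (U ∪ S t).card + D * i ≤ U.card + D * (i + 1) := by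
          have h7 := Finset.card_union_le U (S t)
          have h8 := hS t htT
          rw [mul_add, mul_one]
          omega
        exact mul_le_mul_of_nonneg_right (pow_le_pow_right₀ (by norm_num) h6) hL0
      have h11 : ∏ i ∈ U ∪ S t, p i = (∏ i ∈ U, p i) * ∏ i ∈ S t \ U, p i := by
        rw [← Finset.union_sdiff_self_eq_union, Finset.prod_union Finset.disjoint_sdiff]
      calc ∫ ω, chain T S n (U ∪ S t) (R ω) ∂μ
          ≤ (∏ i ∈ U ∪ S t, p i) *
            ∏ i ∈ Finset.range n, ((2 : ℝ) ^ ((U ∪ S t).card + D * i) * L) := h4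
        _ ≤ (∏ i ∈ U ∪ S t, p i) * G :=
            mul_le_mul_of_nonneg_left h5 (Finset.prod_nonneg fun i _ => hp i)
        _ = (∏ i ∈ U, p i) * G * ∏ i ∈ S t \ U, p i := by rw [h11]; ring
    refine (Finset.sum_le_sum h3).trans ?_
    rw [← Finset.mul_sum]
    have h12 := sum_sdiff_strict T S p hp L (fun A => hL A) U
    rw [Finset.prod_range_succ', mul_zero, add_zero, mul_assoc]
    apply mul_le_mul_of_nonneg_left _ (Finset.prod_nonneg fun i _ => hp i)
    exact mul_le_mul_of_nonneg_left h12 hG0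

/-- The number of the sets `S t ⊆ R`. -/
theorem mult_tail [dι : DecidableEq ι] (μ : Measure Ω) [IsProbabilityMeasure μ] (R : Ω → Set ι)
    (hmeas : ∀ A : Finset ι, MeasurableSet {ω | (A : Set ι) ⊆ R ω}) (p : ι → ℝ)
    (hp : ∀ i, 0 ≤ p i)
    (hub : ∀ A : Finset ι, μ.real {ω | (A : Set ι) ⊆ R ω} ≤ ∏ i ∈ A, p i)
    (T : Finset τ) (S : τ → Finset ι) (hinj : Set.InjOn S (T : Set τ)) (D : ℕ)
    (hS : ∀ t ∈ T, (S t).card ≤ D) (L : ℝ)
    (hL : ∀ A : Finset ι,
      ∑ t ∈ T.filter (fun t => A ⊂ S t), ∏ i ∈ S t \ A, p i ≤ L) (j : ℕ) :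
    μ.real {ω | (2 : ℝ) ^ (j * D) < ∑ t ∈ T, ind (R ω) (S t)} ≤ (2 ^ (j * D) * L) ^ (j + 1) := by
  classical
  have hL0 : 0 ≤ L := le_trans (Finset.sum_nonneg fun t _ =>
    Finset.prod_nonneg fun i _ => hp i) (hL ∅)
  have h := chain_mean μ R hmeas p hp hub T S D hS L hL0
    (fun A inst => by
      have := hL A
      have e : inst = dι := Subsingleton.elim _ _
      subst e
      exact this) (j + 1) ∅
  have h2 : ∏ i ∈ Finset.range (j + 1), ((2 : ℝ) ^ ((∅ : Finset ι).card + D * i) * L) ≤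
      (2 ^ (j * D) * L) ^ (j + 1) := by
    calc ∏ i ∈ Finset.range (j + 1), ((2 : ℝ) ^ ((∅ : Finset ι).card + D * i) * L)
        ≤ ∏ _i ∈ Finset.range (j + 1), ((2 : ℝ) ^ (j * D) * L) := by
          refine Finset.prod_le_prod (fun i _ => by positivity) fun i hi => ?_
          apply mul_le_mul_of_nonneg_right _ hL0
          apply pow_le_pow_right₀ (by norm_num)
          rw [Finset.card_empty, zero_add, mul_comm]
          exact Nat.mul_le_mul_right D (by have := Finset.mem_range.mp hi; omega)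
      _ = (2 ^ (j * D) * L) ^ (j + 1) := by rw [Finset.prod_const, Finset.card_range]
  rw [Finset.prod_empty, one_mul] at h
  have h3 := mul_meas_ge_le_integral_of_nonneg (μ := μ) (f := fun ω => chain T S (j + 1) ∅ (R ω))
    (Filter.Eventually.of_forall fun ω => chain_nonneg T S (j + 1) (R ω) ∅)
    (chain_meas μ hmeas T S (j + 1) ∅) 1
  rw [one_mul] at h3
  refine le_trans ?_ (h3.trans (h.trans h2))
  refine measureReal_mono ?_ (measure_ne_top _ _)
  intro ω hω
  have hω' : (2 : ℝ) ^ (j * D) < ∑ t ∈ T, ind (R ω) (S t) := hω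
  have h5 : ∑ t ∈ T, ind (R ω) (S t) =
      ((T.filter (fun t => (S t : Set ι) ⊆ R ω)).card : ℝ) := by
    rw [Finset.card_filter]
    push_cast
    refine Finset.sum_congr rfl fun t _ => ?_
    rfl
  rw [h5] at hω'
  have h6 : 2 ^ (j * D) < (T.filter (fun t => (S t : Set ι) ⊆ R ω)).card := by
    exact_mod_cast hω'
  show 1 ≤ chain T S (j + 1) ∅ (R ω)
  refine chain_ge T S hinj D hS (R ω) (j + 1) ∅ (by simp) fun m hm => ?_
  have hm' : m = j := by omega
  subst hm'
  simpa using h6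

end general

/-! ### The black box -/

section box

variable {ι τ : Type*}

/-- the coin with probability `P i`, cut to `[0,1]` -/
noncomputable def coin (P : ι → ℝ) (i : ι) : unitInterval :=
  ⟨max 0 (min 1 (P i)), le_max_left _ _, max_le zero_le_one (min_le_left _ _)⟩

theorem coin_coe {P : ι → ℝ} (hP : ∀ i, 0 ≤ P i ∧ P i ≤ 1) (i : ι) : (coin P i : ℝ) = P i := by
  show max 0 (min 1 (P i)) = P i
  rw [min_eq_right (hP i).2, max_eq_right (hP i).1]

/-- outer probability of a property of the random set -/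
noncomputable def pr (P : ι → ℝ) (E : Set (Set ι)) : ℝ :=
  (bern (coin P)).real {ω | rs ω ∈ E}

theorem pr_nonneg (P : ι → ℝ) (E : Set (Set ι)) : 0 ≤ pr P E := measureReal_nonneg

theorem pr_mono (P : ι → ℝ) {E F : Set (Set ι)} (h : E ⊆ F) : pr P E ≤ pr P F :=
  measureReal_mono (fun _ hω => h hω) (measure_ne_top _ _)

theorem pr_union_le (P : ι → ℝ) (E F : Set (Set ι)) : pr P (E ∪ F) ≤ pr P E + pr P F := by
  unfold pr
  exact measureReal_union_le _ _

theorem pr_biUnion_le {κ : Type*} (P : ι → ℝ) (s : Finset κ) (E : κ → Set (Set ι)) :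
    pr P (⋃ i ∈ s, E i) ≤ ∑ i ∈ s, pr P (E i) := by
  unfold pr
  have h : {ω : ι → Bool | rs ω ∈ ⋃ i ∈ s, E i} = ⋃ i ∈ s, {ω : ι → Bool | rs ω ∈ E i} := by
    ext ω; simp
  rw [h]
  exact measureReal_biUnion_finset_le _ _

/-- union bound over a finite set of equally rare events -/
theorem pr_biUnion_le_card {κ : Type*} (P : ι → ℝ) (s : Finset κ) (E : κ → Set (Set ι)) (b : ℝ)
    (h : ∀ i ∈ s, pr P (E i) ≤ b) : pr P (⋃ i ∈ s, E i) ≤ s.card * b := by
  refine (pr_biUnion_le P s E).trans ((Finset.sum_le_sum h).trans ?_)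
  rw [Finset.sum_const, nsmul_eq_mul]

theorem pr_iUnion_le {κ : Type*} [Countable κ] (P : ι → ℝ) (E : κ → Set (Set ι)) (b : κ → ℝ)
    (hb : Summable b) (h : ∀ i, pr P (E i) ≤ b i) : pr P (⋃ i, E i) ≤ ∑' i, b i := by
  have hb0 : ∀ i, 0 ≤ b i := fun i => (pr_nonneg P (E i)).trans (h i)
  have h1 : {ω : ι → Bool | rs ω ∈ ⋃ i, E i} = ⋃ i, {ω : ι → Bool | rs ω ∈ E i} := by
    ext ω; simp
  have h2 : (bern (coin P)) {ω : ι → Bool | rs ω ∈ ⋃ i, E i} ≤ ENNReal.ofReal (∑' i, b i) := by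
    rw [h1, ENNReal.ofReal_tsum_of_nonneg hb0 hb]
    refine (measure_iUnion_le _).trans (ENNReal.tsum_le_tsum fun i => ?_)
    rw [← ofReal_measureReal (measure_ne_top _ _)]
    exact ENNReal.ofReal_le_ofReal (h i)
  unfold pr
  rw [measureReal_def]
  exact (ENNReal.toReal_mono ENNReal.ofReal_ne_top h2).trans
    (by rw [ENNReal.toReal_ofReal (tsum_nonneg hb0)])

/-- no failure with positive probability -/
theorem exists_of_pr (P : ι → ℝ) (E : Set (Set ι)) (h : pr P E < 1) : ∃ R, R ∉ E := by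
  by_contra hcon
  push Not at hcon
  have h1 : {ω : ι → Bool | rs ω ∈ E} = Set.univ := by
    ext ω
    simp only [Set.mem_ofPred_eq, Set.mem_univ, iff_true]
    exact hcon _
  unfold pr at h
  rw [h1] at h
  simp at h

variable (P : ι → ℝ) (hP : ∀ i, 0 ≤ P i ∧ P i ≤ 1)

include hP in
theorem pr_subset (A : Finset ι) : pr P {R | (A : Set ι) ⊆ R} = ∏ i ∈ A, P i := by
  have h := bern_exact (coin P) A
  simp only [coin_coe hP] at h
  exact h

include hP in
/-- the random set is contained in the support of `P` -/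
theorem pr_support [Countable ι] : pr P {R | ¬ R ⊆ {i | 0 < P i}} = 0 := by
  classical
  have h1 : {R : Set ι | ¬ R ⊆ {i | 0 < P i}} ⊆
      ⋃ i : ι, {R : Set ι | P i = 0 ∧ i ∈ R} := by
    intro R hR
    simp only [Set.mem_ofPred_eq, Set.not_subset] at hR
    obtain ⟨i, hi, hi0⟩ := hR
    rw [Set.mem_iUnion]
    refine ⟨i, ?_, hi⟩
    have := (hP i).1
    simp only [not_lt] at hi0
    exact le_antisymm hi0 this
  have h2 : ∀ i : ι, pr P {R : Set ι | P i = 0 ∧ i ∈ R} ≤ (fun _ : ι => (0 : ℝ)) i := by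
    intro i
    by_cases h0 : P i = 0
    · have h3 := pr_subset P hP {i}
      rw [Finset.prod_singleton, h0] at h3
      refine (pr_mono P ?_).trans h3.le
      intro R hR
      simp only [Set.mem_ofPred_eq, Finset.coe_singleton, Set.singleton_subset_iff]
      exact hR.2
    · have h3 : {R : Set ι | P i = 0 ∧ i ∈ R} = ∅ := by
        ext R; simp [h0]
      rw [h3]
      unfold pr
      simp
  have h4 := pr_iUnion_le P (fun i : ι => {R : Set ι | P i = 0 ∧ i ∈ R}) (fun _ => 0)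
    summable_zero h2
  rw [tsum_zero] at h4
  exact le_antisymm ((pr_mono P h1).trans h4) (pr_nonneg _ _)

variable [DecidableEq ι]

include hP in
/-- (UP) upper tail, any supports with at most `D` elements -/
theorem pr_upper (T : Finset τ) (w : τ → ℝ) (S : τ → Finset ι) (hw : ∀ t ∈ T, 0 ≤ w t) (D : ℕ)
    (hS : ∀ t ∈ T, (S t).card ≤ D) (L : ℝ)
    (hL : ∀ A : Finset ι,
      ∑ t ∈ T.filter (fun t => A ⊆ S t), w t * ∏ i ∈ S t \ A, P i ≤ L) (k : ℕ)
    (l : ℝ) (hl : 0 < l) :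
    pr P {R | l ≤ YY T w S R} ≤ (2 ^ (D * k) * L / l) ^ k := by
  exact upper_tail2 (bern (coin P)) rs bern_meas P (fun i => (hP i).1)
    (fun A => by rw [bern_exact]; simp only [coin_coe hP]; exact le_rfl) T w S hw D hS L hL k l hl

include hP in
/-- (MULT) the number of supports contained in the random set -/
theorem pr_mult (T : Finset τ) (S : τ → Finset ι) (hinj : Set.InjOn S (T : Set τ)) (D : ℕ)
    (hS : ∀ t ∈ T, (S t).card ≤ D) (L : ℝ)
    (hL : ∀ A : Finset ι,
      ∑ t ∈ T.filter (fun t => A ⊂ S t), ∏ i ∈ S t \ A, P i ≤ L) (j : ℕ) :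
    pr P {R | (2 : ℝ) ^ (j * D) < ∑ t ∈ T, ind R (S t)} ≤ (2 ^ (j * D) * L) ^ (j + 1) := by
  exact mult_tail (bern (coin P)) rs bern_meas P (fun i => (hP i).1)
    (fun A => by rw [bern_exact]; simp only [coin_coe hP]; exact le_rfl) T S hinj D hS L hL j

include hP in
/-- (LOW) lower tail -/
theorem pr_lower (T : Finset τ) (w : τ → ℝ) (S : τ → Finset ι) (hw : ∀ t ∈ T, 0 ≤ w t) (D : ℕ)
    (hD : 1 ≤ D) (hS : ∀ t ∈ T, (S t).card ≤ D) (E M : ℝ) (hE : 0 < E) (hM0 : 0 ≤ M)
    (h0 : ∑ t ∈ T, w t * ∏ i ∈ S t, P i = E)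
    (hM : ∀ A : Finset ι, A.Nonempty →
      ∑ t ∈ T.filter (fun t => A ⊆ S t), w t * ∏ i ∈ S t \ A, P i ≤ M) :
    pr P {R | YY T w S R ≤ E / 2} ≤ 4 * (D : ℝ) ^ D * M / E := by
  exact lower_tail (bern (coin P)) rs bern_meas P (fun i => (hP i).1)
    (fun A => by rw [bern_exact]; simp only [coin_coe hP]) T w S hw D hD hS E M hE hM0 h0 hM

omit [DecidableEq ι] in
include hP in
/-- one set `R` in the support of `P` that avoids all the failures at all the levels `k ≥ k0` -/
theorem exists_levels [Countable ι] (k0 : ℕ) (E : ℕ → Set (Set ι)) (b : ℕ → ℝ) (hb : Summable b)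
    (hs : ∑' k, b k < 1) (h0 : ∀ k, 0 ≤ b k) (h : ∀ k, k0 ≤ k → pr P (E k) ≤ b k) :
    ∃ R : Set ι, R ⊆ {i | 0 < P i} ∧ ∀ k, k0 ≤ k → R ∉ E k := by
  classical
  set E' : ℕ → Set (Set ι) := fun k => if k0 ≤ k then E k else ∅ with hE'
  have h1 : ∀ k, pr P (E' k) ≤ b k := by
    intro k
    by_cases hk : k0 ≤ k
    · simp only [hE', if_pos hk]; exact h k hk
    · simp only [hE', if_neg hk]
      have : pr P (∅ : Set (Set ι)) = 0 := by unfold pr; simp
      rw [this]; exact h0 k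
  have h2 := pr_iUnion_le P E' b hb h1
  have h3 : pr P ({R | ¬ R ⊆ {i | 0 < P i}} ∪ ⋃ k, E' k) < 1 := by
    refine lt_of_le_of_lt (pr_union_le P _ _) ?_
    rw [pr_support P hP, zero_add]
    exact lt_of_le_of_lt h2 hs
  obtain ⟨R, hR⟩ := exists_of_pr P _ h3
  refine ⟨R, ?_, ?_⟩
  · by_contra hcon
    exact hR (Or.inl hcon)
  · intro k hk hRk
    apply hR
    refine Or.inr (Set.mem_iUnion.mpr ⟨k, ?_⟩)
    simp only [hE', if_pos hk]
    exact hRk

omit [DecidableEq ι] in
/-- geometric form: the threshold `K` depends on `c` only, not on `P` -/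
theorem exists_levels_geom [Countable ι] (c : ℝ) (hc : 0 < c) : ∃ K : ℕ, ∀ k0, K ≤ k0 →
    ∀ P : ι → ℝ, (∀ i, 0 ≤ P i ∧ P i ≤ 1) → ∀ E : ℕ → Set (Set ι),
      (∀ k, k0 ≤ k → pr P (E k) ≤ (2 : ℝ) ^ (-(c * k))) →
      ∃ R : Set ι, R ⊆ {i | 0 < P i} ∧ ∀ k, k0 ≤ k → R ∉ E k := by
  set q : ℝ := (2 : ℝ) ^ (-c) with hq
  have hq0 : 0 < q := Real.rpow_pos_of_pos (by norm_num) _
  have hq1 : q < 1 := Real.rpow_lt_one_of_one_lt_of_neg (by norm_num) (by linarith)
  obtain ⟨K, hK⟩ := exists_pow_lt_of_lt_one (show 0 < (1 - q) / 2 by linarith) hq1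
  refine ⟨K, fun k0 hk0 P hP E h => ?_⟩
  have hqk : ∀ k : ℕ, (2 : ℝ) ^ (-(c * k)) = q ^ k := by
    intro k
    rw [hq, ← Real.rpow_natCast, ← Real.rpow_mul (by norm_num)]
    congr 1; ring
  have hsum : Summable (fun k : ℕ => if k0 ≤ k then q ^ k else 0) := by
    refine Summable.of_nonneg_of_le (fun k => ?_) (fun k => ?_)
      (summable_geometric_of_lt_one hq0.le hq1)
    · split_ifs; exacts [pow_nonneg hq0.le k, le_rfl]
    · split_ifs; exacts [le_rfl, pow_nonneg hq0.le k]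
  refine exists_levels P hP k0 E (fun k => if k0 ≤ k then q ^ k else 0) hsum ?_ ?_ ?_
  · have h1 : ∑' k : ℕ, (if k0 ≤ k then q ^ k else 0) = q ^ k0 * (1 - q)⁻¹ := by
      rw [← hsum.sum_add_tsum_nat_add k0]
      have h2 : ∑ i ∈ Finset.range k0, (if k0 ≤ i then q ^ i else 0) = 0 := by
        refine Finset.sum_eq_zero fun i hi => ?_
        rw [if_neg (by have := Finset.mem_range.mp hi; omega)]
      rw [h2, zero_add]
      have h3 : ∀ i : ℕ, (if k0 ≤ i + k0 then q ^ (i + k0) else 0) = q ^ k0 * q ^ i := by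
        intro i
        rw [if_pos (by omega), pow_add, mul_comm]
      simp only [h3]
      rw [tsum_mul_left, tsum_geometric_of_lt_one hq0.le hq1]
    show ∑' k : ℕ, (if k0 ≤ k then q ^ k else 0) < 1
    rw [h1]
    have h4 : q ^ k0 ≤ q ^ K := pow_le_pow_of_le_one hq0.le hq1.le hk0
    have h5 : 0 < (1 - q)⁻¹ := inv_pos.mpr (by linarith)
    calc q ^ k0 * (1 - q)⁻¹ ≤ (1 - q) / 2 * (1 - q)⁻¹ :=
          mul_le_mul_of_nonneg_right (h4.trans hK.le) h5.le
      _ = 1 / 2 := by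
          have h6 : (1 - q) ≠ 0 := by linarith
          rw [div_mul_eq_mul_div, mul_inv_cancel₀ h6]
      _ < 1 := by norm_num
  · intro k
    show 0 ≤ if k0 ≤ k then q ^ k else 0
    split_ifs; exacts [pow_nonneg hq0.le k, le_rfl]
  · intro k hk
    show pr P (E k) ≤ if k0 ≤ k then q ^ k else 0
    rw [if_pos hk, ← hqk]
    exact h k hk

end box

end Pool.Agent.Helper62.KS
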