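import Mathlib
import Pool.Agent.Helper62.KS.Prob

/-!
# Candidates of a cell and owners of a prime: conditional expectations (project KS, MP_768c9c_nt)

The random set `R` contains the prime `p ≥ P0` with probability `p ^ (-h)`.
-/

set_option autoImplicit false

open MeasureTheory
open Pool.Agent.Helper33.KS

namespace Pool.Agent.Helper62.KS

/-- the probabilities -/
noncomputable def Ph (h : ℝ) (P0 p : ℕ) : ℝ := if p.Prime ∧ P0 ≤ p then (p : ℝ) ^ (-h) else 0

theorem Ph_mem {h : ℝ} (hh : 0 ≤ h) (P0 p : ℕ) : 0 ≤ Ph h P0 p ∧ Ph h P0 p ≤ 1 := by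
  unfold Ph
  split_ifs with hp
  · refine ⟨Real.rpow_nonneg (Nat.cast_nonneg _) _, ?_⟩
    exact Real.rpow_le_one_of_one_le_of_nonpos (by exact_mod_cast hp.1.one_le) (by linarith)
  · exact ⟨le_rfl, zero_le_one⟩

theorem Ph_of {h : ℝ} {P0 p : ℕ} (hp : p.Prime) (h0 : P0 ≤ p) : Ph h P0 p = (p : ℝ) ^ (-h) := by
  unfold Ph; rw [if_pos ⟨hp, h0⟩]

theorem Ph_pos {h : ℝ} {P0 p : ℕ} (hp : p.Prime) (h0 : P0 ≤ p) : 0 < Ph h P0 p := by
  rw [Ph_of hp h0]; exact Real.rpow_pos_of_pos (by exact_mod_cast hp.pos) _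

theorem prod_Ph {h : ℝ} {P0 : ℕ} (A : Finset ℕ) (hA : ∀ p ∈ A, p.Prime ∧ P0 ≤ p) :
    ∏ p ∈ A, Ph h P0 p = ((∏ p ∈ A, p : ℕ) : ℝ) ^ (-h) := by
  push_cast
  rw [← Real.finsetProd_rpow _ _ (fun i _ => Nat.cast_nonneg _)]
  exact Finset.prod_congr rfl fun p hp => Ph_of (hA p hp).1 (hA p hp).2

/-- multiples of `a` in an interval -/
theorem card_mult_le (a x E : ℕ) (ha : 0 < a) :
    (((Finset.Ico x (x + E)).filter (fun n => a ∣ n)).card : ℝ) ≤ E / a + 1 := by
  have h1 : ((Finset.Ico x (x + E)).filter (fun n => a ∣ n)).card ≤ E / a + 1 := by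
    have h2 : ((Finset.Ico x (x + E)).filter (fun n => a ∣ n)) ⊆
        (Finset.Ico ((x + a - 1) / a) ((x + a - 1) / a + (E / a + 1))).image (fun j => a * j) := by
      intro n hn
      rw [Finset.mem_filter, Finset.mem_Ico] at hn
      obtain ⟨⟨hn1, hn2⟩, j, rfl⟩ := hn
      rw [Finset.mem_image]
      refine ⟨j, ?_, rfl⟩
      rw [Finset.mem_Ico]
      constructor
      · rw [Nat.div_le_iff_le_mul_add_pred ha]
        omega
      · have h3 : (x + a - 1) / a * a + (x + a - 1) % a = x + a - 1 := Nat.div_add_mod' _ _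
        have h4 : (x + a - 1) % a < a := Nat.mod_lt _ ha
        have h5 : E / a * a + E % a = E := Nat.div_add_mod' _ _
        have h6 : E % a < a := Nat.mod_lt _ ha
        by_contra hcon
        push Not at hcon
        have h7 : ((x + a - 1) / a + (E / a + 1)) * a ≤ j * a := Nat.mul_le_mul_right a hcon
        have h8 : ((x + a - 1) / a + (E / a + 1)) * a =
            (x + a - 1) / a * a + (E / a * a + a) := by ring
        have h9 : j * a = a * j := mul_comm _ _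
        omega
    refine (Finset.card_le_card h2).trans (Finset.card_image_le.trans ?_)
    simp
  have h2 : ((E / a : ℕ) : ℝ) ≤ (E : ℝ) / a := Nat.cast_div_le
  calc (((Finset.Ico x (x + E)).filter (fun n => a ∣ n)).card : ℝ) ≤ ((E / a + 1 : ℕ) : ℝ) := by
        exact_mod_cast h1
    _ = ((E / a : ℕ) : ℝ) + 1 := by push_cast; rfl
    _ ≤ E / a + 1 := by linarith

/-- the weight of a product of given primes -/
theorem ratio_Ph {h : ℝ} {P0 : ℕ} {A S : Finset ℕ} (hAS : A ⊆ S)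
    (hS : ∀ p ∈ S, p.Prime ∧ P0 ≤ p) :
    (∏ p ∈ S, Ph h P0 p)⁻¹ * ∏ p ∈ S \ A, Ph h P0 p = ((∏ p ∈ A, p : ℕ) : ℝ) ^ h := by
  have h1 : ∏ p ∈ S, Ph h P0 p = (∏ p ∈ S \ A, Ph h P0 p) * ∏ p ∈ A, Ph h P0 p :=
    (Finset.prod_sdiff hAS).symm
  have h2 : ∏ p ∈ S \ A, Ph h P0 p ≠ 0 := Finset.prod_ne_zero_iff.mpr fun p hp =>
    (Ph_pos (hS p (Finset.sdiff_subset hp)).1 (hS p (Finset.sdiff_subset hp)).2).ne'
  have h3 : ∏ p ∈ A, Ph h P0 p = ((∏ p ∈ A, p : ℕ) : ℝ) ^ (-h) :=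
    prod_Ph A fun p hp => hS p (hAS hp)
  rw [h1, mul_inv, h3, mul_comm (∏ p ∈ S \ A, Ph h P0 p)⁻¹, mul_assoc, inv_mul_cancel₀ h2, mul_one,
    Real.rpow_neg (Nat.cast_nonneg _), inv_inv]

/-- conditional expectations of the number of candidates of a cell (normalised) -/
theorem cand_cond (h : ℝ) (h0 : 0 ≤ h) (h1 : h ≤ 1) (P0 x E : ℕ) (T : Finset (ℕ × ℕ)) (G Mx : ℝ)
    (hG : 0 < G) (hMx : 0 ≤ Mx)
    (hT : ∀ t ∈ T, t.2 ≠ 0 ∧ x ≤ t.1 * t.2 ∧ t.1 * t.2 < x + E ∧
      (∀ p ∈ t.2.primeFactors, P0 ≤ p ∧ G ≤ p) ∧ (t.2 : ℝ) ≤ Mx)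
    (hinj : Set.InjOn (fun t : ℕ × ℕ => t.1 * t.2) (T : Set (ℕ × ℕ))) (A : Finset ℕ)
    (hA : A.Nonempty) :
    ∑ t ∈ T.filter (fun t => A ⊆ t.2.primeFactors),
      (∏ p ∈ t.2.primeFactors, Ph h P0 p)⁻¹ * ∏ p ∈ t.2.primeFactors \ A, Ph h P0 p ≤
      E * G ^ (h - 1) + Mx ^ h := by
  rcases (T.filter (fun t => A ⊆ t.2.primeFactors)).eq_empty_or_nonempty with hemp | hne
  · rw [hemp, Finset.sum_empty]
    positivity
  obtain ⟨t0, ht0⟩ := hne
  rw [Finset.mem_filter] at ht0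
  obtain ⟨ht0T, hAt0⟩ := ht0
  obtain ⟨ht0n, ht0x, ht0y, ht0p, ht0M⟩ := hT t0 ht0T
  have hAp : ∀ p ∈ A, p.Prime ∧ P0 ≤ p := fun p hp =>
    ⟨Nat.prime_of_mem_primeFactors (hAt0 hp), (ht0p p (hAt0 hp)).1⟩
  set a : ℕ := ∏ p ∈ A, p with ha
  have hapos : 0 < a := Finset.prod_pos fun p hp => (hAp p hp).1.pos
  have hdvd : ∀ t ∈ T, A ⊆ t.2.primeFactors → a ∣ t.2 := by
    intro t ht hAt
    exact (Finset.prod_dvd_prod_of_subset A t.2.primeFactors (fun p => p) hAt).trans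
      (Nat.prod_primeFactors_dvd t.2)
  have hGa : G ≤ a := by
    obtain ⟨p, hp⟩ := hA
    have h2 : p ∣ a := Finset.dvd_prod_of_mem (fun p => p) hp
    have h3 : p ≤ a := Nat.le_of_dvd hapos h2
    exact (ht0p p (hAt0 hp)).2.trans (by exact_mod_cast h3)
  have haM : (a : ℝ) ≤ Mx := by
    have h2 : a ≤ t0.2 := Nat.le_of_dvd (Nat.pos_of_ne_zero ht0n) (hdvd t0 ht0T hAt0)
    exact le_trans (by exact_mod_cast h2) ht0M
  have hterm : ∀ t ∈ T.filter (fun t => A ⊆ t.2.primeFactors),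
      (∏ p ∈ t.2.primeFactors, Ph h P0 p)⁻¹ * ∏ p ∈ t.2.primeFactors \ A, Ph h P0 p =
        (a : ℝ) ^ h := by
    intro t ht
    rw [Finset.mem_filter] at ht
    rw [ratio_Ph ht.2 fun p hp => ⟨Nat.prime_of_mem_primeFactors hp, ((hT t ht.1).2.2.2.1 p hp).1⟩]
  rw [Finset.sum_congr rfl hterm, Finset.sum_const, nsmul_eq_mul]
  have hcard : ((T.filter (fun t => A ⊆ t.2.primeFactors)).card : ℝ) ≤ E / a + 1 := by
    refine le_trans ?_ (card_mult_le a x E hapos)
    have h2 : (T.filter (fun t => A ⊆ t.2.primeFactors)).card ≤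
        ((Finset.Ico x (x + E)).filter (fun n => a ∣ n)).card := by
      refine Finset.card_le_card_of_injOn (fun t : ℕ × ℕ => t.1 * t.2) ?_ ?_
      · intro t ht
        rw [Finset.mem_coe, Finset.mem_filter] at ht
        rw [Finset.mem_coe, Finset.mem_filter, Finset.mem_Ico]
        exact ⟨⟨(hT t ht.1).2.1, (hT t ht.1).2.2.1⟩, (hdvd t ht.1 ht.2).mul_left _⟩
      · exact hinj.mono (by
          intro t ht
          exact (Finset.mem_filter.mp (Finset.mem_coe.mp ht)).1)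
    exact_mod_cast h2
  have ha0 : (0 : ℝ) < a := by exact_mod_cast hapos
  have hah : 0 ≤ (a : ℝ) ^ h := Real.rpow_nonneg ha0.le _
  calc ((T.filter (fun t => A ⊆ t.2.primeFactors)).card : ℝ) * (a : ℝ) ^ h
      ≤ (E / a + 1) * (a : ℝ) ^ h := mul_le_mul_of_nonneg_right hcard hah
    _ = E * (a : ℝ) ^ (h - 1) + (a : ℝ) ^ h := by
        rw [Real.rpow_sub_one ha0.ne']; ring
    _ ≤ E * G ^ (h - 1) + Mx ^ h := by
        apply add_le_add
        · apply mul_le_mul_of_nonneg_left _ (Nat.cast_nonneg _)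
          exact Real.rpow_le_rpow_of_nonpos hG hGa (by linarith)
        · exact Real.rpow_le_rpow ha0.le haM h0

/-- probability that a cell has too few candidates in `⟨R⟩` (each of them counted with the inverse
of its probability) -/
theorem cand_low (h : ℝ) (h0 : 0 ≤ h) (h1 : h ≤ 1) (P0 x E : ℕ) (T : Finset (ℕ × ℕ)) (G Mx : ℝ)
    (hG : 0 < G) (hMx : 0 ≤ Mx) (D : ℕ) (hD : 1 ≤ D)
    (hT : ∀ t ∈ T, t.2 ≠ 0 ∧ x ≤ t.1 * t.2 ∧ t.1 * t.2 < x + E ∧
      (∀ p ∈ t.2.primeFactors, P0 ≤ p ∧ G ≤ p) ∧ (t.2 : ℝ) ≤ Mx)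
    (hcard : ∀ t ∈ T, t.2.primeFactors.card ≤ D)
    (hinj : Set.InjOn (fun t : ℕ × ℕ => t.1 * t.2) (T : Set (ℕ × ℕ))) (hne : T.Nonempty) :
    pr (Ph h P0) {R | YY T (fun t => (∏ p ∈ t.2.primeFactors, Ph h P0 p)⁻¹)
        (fun t => t.2.primeFactors) R ≤ T.card / 2} ≤
      4 * (D : ℝ) ^ D * (E * G ^ (h - 1) + Mx ^ h) / T.card := by
  have hw : ∀ t ∈ T, 0 ≤ (∏ p ∈ t.2.primeFactors, Ph h P0 p)⁻¹ := fun t _ =>
    inv_nonneg.mpr (Finset.prod_nonneg fun p _ => (Ph_mem h0 P0 p).1)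
  refine pr_lower (Ph h P0) (Ph_mem h0 P0) T _ _ hw D hD hcard T.card _ ?_ ?_ ?_ ?_
  · exact_mod_cast Finset.card_pos.mpr hne
  · positivity
  · have h2 : ∀ t ∈ T, (∏ p ∈ t.2.primeFactors, Ph h P0 p)⁻¹ *
        ∏ p ∈ t.2.primeFactors, Ph h P0 p = 1 := by
      intro t ht
      apply inv_mul_cancel₀
      exact Finset.prod_ne_zero_iff.mpr fun p hp =>
        (Ph_pos (Nat.prime_of_mem_primeFactors hp) ((hT t ht).2.2.2.1 p hp).1).ne'
    rw [Finset.sum_congr rfl h2]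
    simp
  · intro A hA
    exact cand_cond h h0 h1 P0 x E T G Mx hG hMx hT hinj A hA

/-! ### Owners of a prime -/

theorem sum_cover_le {α β : Type*} (F : Finset α) (B : Finset β) (r : β → α → Prop)
    [∀ x, DecidablePred (r x)] (f : α → ℝ) (hf : ∀ m ∈ F, 0 ≤ f m)
    (h : ∀ m ∈ F, ∃ x ∈ B, r x m) :
    ∑ m ∈ F, f m ≤ ∑ x ∈ B, ∑ m ∈ F.filter (r x), f m := by
  have h1 : ∀ m ∈ F, f m ≤ ∑ x ∈ B, if r x m then f m else 0 := by
    intro m hm
    obtain ⟨x, hxB, hx⟩ := h m hm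
    have h2 : (if r x m then f m else 0) ≤ ∑ x ∈ B, if r x m then f m else 0 :=
      Finset.single_le_sum (f := fun x => if r x m then f m else 0)
        (fun x _ => by show 0 ≤ if r x m then f m else 0; split_ifs; exacts [hf m hm, le_rfl]) hxB
    rwa [if_pos hx] at h2
  refine (Finset.sum_le_sum h1).trans ?_
  rw [Finset.sum_comm]
  simp only [Finset.sum_filter]
  exact le_rfl

/-- one level: `q` is fixed, `T` is a set of cofactors `m` with `q m` in one of the cells `B` -/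
theorem owner_cond_one (h : ℝ) (h0 : 0 ≤ h) (h1 : h ≤ 1) (P0 q E : ℕ) (X G : ℝ) (hq : 0 < q)
    (hX : 0 < X) (hG : 0 < G) (B : Finset ℕ) (hB : ∀ x ∈ B, X ≤ x) (T : Finset ℕ)
    (hT : ∀ m ∈ T, Squarefree m ∧ (∃ x ∈ B, x ≤ q * m ∧ q * m < x + E) ∧
      (∀ p ∈ m.primeFactors, P0 ≤ p ∧ G ≤ p)) (A : Finset ℕ) :
    ∑ m ∈ T.filter (fun m => A ⊂ m.primeFactors), ∏ p ∈ m.primeFactors \ A, Ph h P0 p ≤
      B.card * (E / X * (X / q) ^ (1 - h) + G ^ (-h)) := by
  classical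
  have hq0 : (0 : ℝ) < q := by exact_mod_cast hq
  rcases (T.filter (fun m => A ⊂ m.primeFactors)).eq_empty_or_nonempty with hemp | hne
  · rw [hemp, Finset.sum_empty]
    positivity
  obtain ⟨m0, hm0⟩ := hne
  rw [Finset.mem_filter] at hm0
  obtain ⟨hm0T, hAm0⟩ := hm0
  have hAp : ∀ p ∈ A, p.Prime := fun p hp => Nat.prime_of_mem_primeFactors (hAm0.1 hp)
  set a : ℕ := ∏ p ∈ A, p with ha
  have hapos : 0 < a := Finset.prod_pos fun p hp => (hAp p hp).pos
  have ha0 : (0 : ℝ) < a := by exact_mod_cast hapos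
  have ha1 : (1 : ℝ) ≤ a := by exact_mod_cast hapos
  -- one term
  have hterm : ∀ m ∈ T.filter (fun m => A ⊂ m.primeFactors),
      ∏ p ∈ m.primeFactors \ A, Ph h P0 p ≤ G ^ (-h) ∧
      ∏ p ∈ m.primeFactors \ A, Ph h P0 p ≤ (X / (q * a)) ^ (-h) := by
    intro m hm
    rw [Finset.mem_filter] at hm
    obtain ⟨hmT, hAm⟩ := hm
    obtain ⟨hsq, ⟨x, hxB, hx1, hx2⟩, hpr⟩ := hT m hmT
    have hmul : (∏ p ∈ m.primeFactors \ A, p) * a = m := by
      rw [ha, Finset.prod_sdiff hAm.1]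
      exact Nat.prod_primeFactors_of_squarefree hsq
    have heq : ∏ p ∈ m.primeFactors \ A, Ph h P0 p =
        ((∏ p ∈ m.primeFactors \ A, p : ℕ) : ℝ) ^ (-h) :=
      prod_Ph _ fun p hp => ⟨Nat.prime_of_mem_primeFactors (Finset.sdiff_subset hp),
        (hpr p (Finset.sdiff_subset hp)).1⟩
    set c : ℕ := ∏ p ∈ m.primeFactors \ A, p with hc
    have hcpos : 0 < c := Finset.prod_pos fun p hp =>
      (Nat.prime_of_mem_primeFactors (Finset.sdiff_subset hp)).pos
    rw [heq]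
    constructor
    · apply Real.rpow_le_rpow_of_nonpos hG _ (by linarith)
      obtain ⟨p, hp1, hp2⟩ := Finset.exists_of_ssubset hAm
      have hp : p ∈ m.primeFactors \ A := Finset.mem_sdiff.mpr ⟨hp1, hp2⟩
      have h2 : p ≤ c := Nat.le_of_dvd hcpos (Finset.dvd_prod_of_mem (fun p => p) hp)
      exact (hpr p hp1).2.trans (by exact_mod_cast h2)
    · apply Real.rpow_le_rpow_of_nonpos (by positivity) _ (by linarith)
      rw [div_le_iff₀ (by positivity)]
      have h2 : (X : ℝ) ≤ ((q * m : ℕ) : ℝ) := (hB x hxB).trans (by exact_mod_cast hx1)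
      rw [← hmul] at h2
      push_cast at h2
      calc X ≤ (q : ℝ) * (c * a) := by exact_mod_cast h2
        _ = c * (q * a) := by ring
  -- the number of terms in one cell
  have hcell : ∀ x : ℕ, (((T.filter (fun m => A ⊂ m.primeFactors)).filter
      (fun m => x ≤ q * m ∧ q * m < x + E)).card : ℝ) ≤ E / (q * a) + 1 := by
    intro x
    have h3 := card_mult_le (q * a) x E (Nat.mul_pos hq hapos)
    push_cast at h3
    refine le_trans ?_ h3
    have h2 : ((T.filter (fun m => A ⊂ m.primeFactors)).filter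
        (fun m => x ≤ q * m ∧ q * m < x + E)).card ≤
        ((Finset.Ico x (x + E)).filter (fun n => q * a ∣ n)).card := by
      refine Finset.card_le_card_of_injOn (fun m : ℕ => q * m) ?_ ?_
      · intro m hm
        rw [Finset.mem_coe, Finset.mem_filter, Finset.mem_filter] at hm
        rw [Finset.mem_coe, Finset.mem_filter, Finset.mem_Ico]
        refine ⟨hm.2, Nat.mul_dvd_mul_left q ?_⟩
        exact (Finset.prod_dvd_prod_of_subset A m.primeFactors (fun p => p) hm.1.2.1).trans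
          (Nat.prod_primeFactors_dvd m)
      · intro m _ m' _ hmm
        exact Nat.eq_of_mul_eq_mul_left hq hmm
    exact_mod_cast h2
  have hnn : ∀ m : ℕ, 0 ≤ ∏ p ∈ m.primeFactors \ A, Ph h P0 p := fun m =>
    Finset.prod_nonneg fun p _ => (Ph_mem h0 P0 p).1
  -- sum over the cells
  have hsum : ∑ m ∈ T.filter (fun m => A ⊂ m.primeFactors), ∏ p ∈ m.primeFactors \ A, Ph h P0 p ≤
      ∑ x ∈ B, ∑ m ∈ (T.filter (fun m => A ⊂ m.primeFactors)).filter
        (fun m => x ≤ q * m ∧ q * m < x + E), ∏ p ∈ m.primeFactors \ A, Ph h P0 p := by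
    refine sum_cover_le _ B (fun x m => x ≤ q * m ∧ q * m < x + E) _ (fun m _ => hnn m) ?_
    intro m hm
    exact (hT m (Finset.mem_filter.mp hm).1).2.1
  refine hsum.trans ?_
  calc ∑ x ∈ B, ∑ m ∈ (T.filter (fun m => A ⊂ m.primeFactors)).filter
        (fun m => x ≤ q * m ∧ q * m < x + E), ∏ p ∈ m.primeFactors \ A, Ph h P0 p
      ≤ ∑ _x ∈ B, (E / X * (X / q) ^ (1 - h) + G ^ (-h)) := by
        refine Finset.sum_le_sum fun x _ => ?_
        set F := (T.filter (fun m => A ⊂ m.primeFactors)).filter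
          (fun m => x ≤ q * m ∧ q * m < x + E) with hF
        set b : ℝ := min (G ^ (-h)) ((X / (q * a)) ^ (-h)) with hb
        have hb0 : 0 ≤ b := le_min (by positivity) (by positivity)
        calc ∑ m ∈ F, ∏ p ∈ m.primeFactors \ A, Ph h P0 p ≤ ∑ _m ∈ F, b := by
              refine Finset.sum_le_sum fun m hm => ?_
              have hm' := (Finset.mem_filter.mp hm).1
              exact le_min (hterm m hm').1 (hterm m hm').2
          _ = F.card * b := by rw [Finset.sum_const, nsmul_eq_mul]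
          _ ≤ (E / (q * a) + 1) * b := mul_le_mul_of_nonneg_right (hcell x) hb0
          _ = E / (q * a) * b + b := by ring
          _ ≤ E / (q * a) * (X / (q * a)) ^ (-h) + G ^ (-h) := by
              apply add_le_add
              · exact mul_le_mul_of_nonneg_left (min_le_right _ _) (by positivity)
              · exact min_le_left _ _
          _ = E / X * (X / (q * a)) ^ (1 - h) + G ^ (-h) := by
              have h2 : (0 : ℝ) < X / (q * a) := by positivity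
              rw [sub_eq_add_neg, Real.rpow_add h2, Real.rpow_one]
              have h3 : (E : ℝ) / (q * a) = E / X * (X / (q * a)) := by
                field_simp
              rw [h3]; ring
          _ ≤ E / X * (X / q) ^ (1 - h) + G ^ (-h) := by
              apply add_le_add_left
              apply mul_le_mul_of_nonneg_left _ (by positivity)
              apply Real.rpow_le_rpow (by positivity) _ (by linarith)
              apply div_le_div_of_nonneg_left hX.le hq0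
              nlinarith
    _ = B.card * (E / X * (X / q) ^ (1 - h) + G ^ (-h)) := by
        rw [Finset.sum_const, nsmul_eq_mul]

/-- several levels: the number of owners of the prime `q` is bounded -/
theorem owner_mult (h : ℝ) (h0 : 0 ≤ h) (h1 : h ≤ 1) (P0 q : ℕ) (hq : 0 < q) (I : Finset ℕ)
    (E : ℕ → ℕ) (X G : ℕ → ℝ) (hX : ∀ k ∈ I, 0 < X k) (hG : ∀ k ∈ I, 0 < G k)
    (B : ℕ → Finset ℕ) (hB : ∀ k ∈ I, ∀ x ∈ B k, X k ≤ x) (T : Finset ℕ) (D : ℕ)
    (hT : ∀ m ∈ T, Squarefree m ∧ m.primeFactors.card ≤ D ∧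
      ∃ k ∈ I, (∃ x ∈ B k, x ≤ q * m ∧ q * m < x + E k) ∧
        (∀ p ∈ m.primeFactors, P0 ≤ p ∧ G k ≤ p)) (j : ℕ) :
    pr (Ph h P0) {R | (2 : ℝ) ^ (j * D) < ∑ m ∈ T, ind R m.primeFactors} ≤
      (2 ^ (j * D) * ∑ k ∈ I, (B k).card * (E k / X k * (X k / q) ^ (1 - h) + G k ^ (-h))) ^
        (j + 1) := by
  classical
  refine pr_mult (Ph h P0) (Ph_mem h0 P0) T (fun m => m.primeFactors) ?_ D
    (fun m hm => (hT m hm).2.1) _ ?_ j
  · intro m hm m' hm' hmm
    have h2 := Nat.prod_primeFactors_of_squarefree (hT m hm).1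
    have h3 := Nat.prod_primeFactors_of_squarefree (hT m' hm').1
    rw [← h2, ← h3]
    have h4 : m.primeFactors = m'.primeFactors := hmm
    rw [h4]
  · intro A
    have hnn : ∀ m : ℕ, 0 ≤ ∏ p ∈ m.primeFactors \ A, Ph h P0 p := fun m =>
      Finset.prod_nonneg fun p _ => (Ph_mem h0 P0 p).1
    have h2 := sum_cover_le (T.filter (fun m => A ⊂ m.primeFactors)) I
      (fun k m => (∃ x ∈ B k, x ≤ q * m ∧ q * m < x + E k) ∧
        (∀ p ∈ m.primeFactors, P0 ≤ p ∧ G k ≤ p))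
      (fun m => ∏ p ∈ m.primeFactors \ A, Ph h P0 p) (fun m _ => hnn m)
      (fun m hm => (hT m (Finset.mem_filter.mp hm).1).2.2)
    refine h2.trans (Finset.sum_le_sum fun k hk => ?_)
    have h3 := owner_cond_one h h0 h1 P0 q (E k) (X k) (G k) hq (hX k hk) (hG k hk) (B k)
      (hB k hk) (T.filter (fun m => (∃ x ∈ B k, x ≤ q * m ∧ q * m < x + E k) ∧
        (∀ p ∈ m.primeFactors, P0 ≤ p ∧ G k ≤ p)))
      (fun m hm => ⟨(hT m (Finset.mem_filter.mp hm).1).1, (Finset.mem_filter.mp hm).2.1,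
        (Finset.mem_filter.mp hm).2.2⟩) A
    refine le_trans (le_of_eq ?_) h3
    rw [Finset.filter_comm]

end Pool.Agent.Helper62.KS
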