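import Pool.Agent.Helper62.KS.EvMass
import Pool.Agent.Helper26.KS.EvCR
import Pool.Agent.Helper61.KS.EvHeavy

/-!
# ExistsGood from the first moment inequalities (project KS, MP_768c9c_nt)
-/

set_option autoImplicit false

open Pool.Agent.Helper16.KS

namespace Pool.Agent.Helper62.KS

theorem existsGood_of (hC : Cand1) (hM : Mult1) (hMC : MassC1) (hMR : MassR1) (hCr : Crude1)
    (hR : RPart1) (h1 : Load1) (h2 : Load2) : ExistsGood :=
  existsGood (evLow hC) (evWin1 hC) (evWin2 hC) (evMult hM) (evMassR hMR) (evMassC hMC)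
    (Pool.Agent.Helper26.KS.evCrude hCr) (Pool.Agent.Helper26.KS.evRPart hR)
    (Pool.Agent.Helper61.KS.evHeavy1 h1) (Pool.Agent.Helper61.KS.evHeavy2 h2)

end Pool.Agent.Helper62.KS
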