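import Mathlib
import Pool.Agent.Helper62.KS.Cand

/-!
# Good events E2, E3, E4 for an abstract class of control cells (project KS, MP_768c9c_nt)
-/

set_option autoImplicit false

open MeasureTheory
open Pool.Agent.Helper33.KS

namespace Pool.Agent.Helper62.KS

/-- A class of cells with candidates. `B k`: the cells of the class at the level `k`;
`Q k j`: the candidates `(q, m)` of the cell `j`;
`u`: exponent of the number of cells, `ζ`: lower exponent of the primes of `m`, `g`: lower exponent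
of `q`, `D`: number of primes of `m`. -/
structure Cls where
  u : ℝ
  ζ : ℝ
  g : ℝ
  D : ℕ
  B : ℕ → Finset ℕ
  Q : ℕ → ℕ → Finset (ℕ × ℕ)

/-- `e k`: the cells of level `k` are `[2^k + j 2^(e k), 2^k + (j+1) 2^(e k))`; `P0`: the random set
starts at `P0`; `k0`: the cells start at the level `k0`; `c0 2^(e k) / k^2`: lower bound for the
number of candidates -/
structure Cls.Valid (c : Cls) (e : ℕ → ℕ) (P0 k0 : ℕ) (c0 : ℝ) : Prop where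
  card_B : ∀ k, k0 ≤ k → ((c.B k).card : ℝ) ≤ (2 : ℝ) ^ (c.u * k)
  prime : ∀ k, k0 ≤ k → ∀ j ∈ c.B k, ∀ t ∈ c.Q k j, t.1.Prime
  sqf : ∀ k, k0 ≤ k → ∀ j ∈ c.B k, ∀ t ∈ c.Q k j, Squarefree t.2
  lo : ∀ k, k0 ≤ k → ∀ j ∈ c.B k, ∀ t ∈ c.Q k j, 2 ^ k + j * 2 ^ e k ≤ t.1 * t.2
  hi : ∀ k, k0 ≤ k → ∀ j ∈ c.B k, ∀ t ∈ c.Q k j, t.1 * t.2 < 2 ^ k + (j + 1) * 2 ^ e k
  hi2 : ∀ k, k0 ≤ k → ∀ j ∈ c.B k, 2 ^ k + (j + 1) * 2 ^ e k ≤ 2 ^ (k + 1)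
  start : ∀ k, k0 ≤ k → ∀ j ∈ c.B k, ∀ t ∈ c.Q k j, ∀ p ∈ t.2.primeFactors, P0 ≤ p
  rough : ∀ k, k0 ≤ k → ∀ j ∈ c.B k, ∀ t ∈ c.Q k j, ∀ p ∈ t.2.primeFactors,
    (2 : ℝ) ^ (c.ζ * k) ≤ p
  large : ∀ k, k0 ≤ k → ∀ j ∈ c.B k, ∀ t ∈ c.Q k j, (2 : ℝ) ^ (c.g * k) ≤ t.1
  few : ∀ k, k0 ≤ k → ∀ j ∈ c.B k, ∀ t ∈ c.Q k j, t.2.primeFactors.card ≤ c.D
  inj : ∀ k, k0 ≤ k → ∀ j ∈ c.B k,
    Set.InjOn (fun t : ℕ × ℕ => t.1 * t.2) (c.Q k j : Set (ℕ × ℕ))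
  many : ∀ k, k0 ≤ k → ∀ j ∈ c.B k, c0 * 2 ^ e k / (k : ℝ) ^ 2 ≤ ((c.Q k j).card : ℝ)

/-! ### An elementary asymptotic inequality -/

/-- polynomials are smaller than exponentials -/
theorem poly_exp (C : ℝ) (n : ℕ) (a b : ℝ) (hab : a < b) :
    ∃ K : ℕ, ∀ k : ℕ, K ≤ k → C * (k : ℝ) ^ n * (2 : ℝ) ^ (-(b * k)) ≤ (2 : ℝ) ^ (-(a * k)) := by
  have h1 : Filter.Tendsto (fun k : ℕ => C * ((k : ℝ) ^ n * ((2 : ℝ) ^ (-(b - a))) ^ k))
      Filter.atTop (nhds (C * 0)) := by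
    apply Filter.Tendsto.const_mul
    have hr : |(2 : ℝ) ^ (-(b - a))| < 1 := by
      rw [abs_of_pos (Real.rpow_pos_of_pos (by norm_num) _)]
      exact Real.rpow_lt_one_of_one_lt_of_neg (by norm_num) (by linarith)
    exact tendsto_pow_const_mul_const_pow_of_abs_lt_one n hr
  rw [mul_zero] at h1
  have h2 := (h1.eventually (gt_mem_nhds (show (0 : ℝ) < 1 by norm_num)))
  rw [Filter.eventually_atTop] at h2
  obtain ⟨K, hK⟩ := h2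
  refine ⟨K, fun k hk => ?_⟩
  have h3 := hK k hk
  have h4 : (2 : ℝ) ^ (-(b * k)) = ((2 : ℝ) ^ (-(b - a))) ^ k * (2 : ℝ) ^ (-(a * k)) := by
    rw [← Real.rpow_natCast, ← Real.rpow_mul (by norm_num), ← Real.rpow_add (by norm_num)]
    congr 1; ring
  have h5 : 0 < (2 : ℝ) ^ (-(a * k)) := Real.rpow_pos_of_pos (by norm_num) _
  rw [h4]
  calc C * (k : ℝ) ^ n * (((2 : ℝ) ^ (-(b - a))) ^ k * (2 : ℝ) ^ (-(a * k)))
      = (C * ((k : ℝ) ^ n * ((2 : ℝ) ^ (-(b - a))) ^ k)) * (2 : ℝ) ^ (-(a * k)) := by ring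
    _ ≤ 1 * (2 : ℝ) ^ (-(a * k)) := mul_le_mul_of_nonneg_right h3.le h5.le
    _ = _ := one_mul _

/-! ### E2: candidates -/

/-- the sum of the weights `1 / P(m)` of the active candidates of the cell `j` -/
noncomputable def Cls.S (c : Cls) (h : ℝ) (P0 k j : ℕ) (R : Set ℕ) : ℝ :=
  YY (c.Q k j) (fun t => (∏ p ∈ t.2.primeFactors, Ph h P0 p)⁻¹) (fun t => t.2.primeFactors) R

/-- failure of E2 at the level `k` -/
def Cls.F2 (c : Cls) (h : ℝ) (P0 k : ℕ) : Set (Set ℕ) :=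
  {R | ∃ j ∈ c.B k, c.S h P0 k j R ≤ (c.Q k j).card / 2}

theorem pr_F2 (u ζ g h d c0 a : ℝ) (D : ℕ) (hD : 1 ≤ D) (h0 : 0 ≤ h) (h1 : h ≤ 1) (hc0 : 0 < c0)
    (ha1 : u + a < ζ * (1 - h)) (ha2 : u + a + (1 - g) * h < 1 / 2 - d) :
    ∃ K : ℕ, ∀ (c : Cls) (e : ℕ → ℕ) (P0 k0 : ℕ), c.u = u → c.ζ = ζ → c.g = g → c.D = D →
      K ≤ k0 → (∀ k, k0 ≤ k → (2 : ℝ) ^ ((1 / 2 - d) * k - 1) ≤ 2 ^ e k) →
      c.Valid e P0 k0 c0 → ∀ k, k0 ≤ k → pr (Ph h P0) (c.F2 h P0 k) ≤ (2 : ℝ) ^ (-(a * k)) := by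
  set b : ℝ := min (ζ * (1 - h) - u) (1 / 2 - d - u - (1 - g) * h) with hb
  have hab : a < b := lt_min (by linarith) (by linarith)
  obtain ⟨K, hK⟩ := poly_exp (4 * (D : ℝ) ^ D * 5 / c0) 2 a b hab
  refine ⟨K + 1, fun c e P0 k0 hu hζ hg hcD hk0 he hv k hk => ?_⟩
  have hkpos : 0 < k := by omega
  have hk' : (0 : ℝ) < k := by exact_mod_cast hkpos
  have hE0 : (0 : ℝ) < 2 ^ e k := by positivity
  set G : ℝ := (2 : ℝ) ^ (ζ * k) with hG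
  have hG0 : 0 < G := Real.rpow_pos_of_pos (by norm_num) _
  set Mx : ℝ := (2 : ℝ) ^ (k + 1 - g * k) with hMx
  have hMx0 : 0 < Mx := Real.rpow_pos_of_pos (by norm_num) _
  set N : ℝ := c0 * 2 ^ e k / (k : ℝ) ^ 2 with hN
  have hN0 : 0 < N := by positivity
  -- one cell
  have hone : ∀ j ∈ c.B k, pr (Ph h P0) {R | c.S h P0 k j R ≤ (c.Q k j).card / 2} ≤
      4 * (D : ℝ) ^ D * (2 ^ e k * G ^ (h - 1) + Mx ^ h) / N := by
    intro j hj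
    have hcard : N ≤ ((c.Q k j).card : ℝ) := hv.many k hk j hj
    have hne : (c.Q k j).Nonempty := by
      rw [← Finset.card_pos]
      have : (0 : ℝ) < ((c.Q k j).card : ℝ) := lt_of_lt_of_le hN0 hcard
      exact_mod_cast this
    have h2 := cand_low h h0 h1 P0 (2 ^ k + j * 2 ^ e k) (2 ^ e k) (c.Q k j) G Mx hG0 hMx0.le D hD
      (fun t ht => ⟨(hv.sqf k hk j hj t ht).ne_zero, hv.lo k hk j hj t ht, by
          have := hv.hi k hk j hj t ht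
          rw [add_mul, one_mul] at this
          omega,
        fun p hp => ⟨hv.start k hk j hj t ht p hp, by
          have := hv.rough k hk j hj t ht p hp
          rw [hζ] at this
          exact this⟩, by
        have h3 := hv.large k hk j hj t ht
        rw [hg] at h3
        have h4 : t.1 * t.2 ≤ 2 ^ (k + 1) :=
          ((hv.hi k hk j hj t ht).trans_le (hv.hi2 k hk j hj)).le
        have h5 : ((t.1 : ℝ)) * t.2 ≤ 2 ^ (k + 1) := by exact_mod_cast h4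
        have h6 : (0 : ℝ) < (2 : ℝ) ^ (g * k) := Real.rpow_pos_of_pos (by norm_num) _
        have h7 : (2 : ℝ) ^ (g * k) * t.2 ≤ (2 : ℝ) ^ (k + 1) :=
          (mul_le_mul_of_nonneg_right h3 (Nat.cast_nonneg _)).trans h5
        have h8 : Mx = (2 : ℝ) ^ (k + 1) / (2 : ℝ) ^ (g * k) := by
          rw [hMx, Real.rpow_sub (by norm_num)]
          congr 1
          exact_mod_cast Real.rpow_natCast 2 (k + 1)
        rw [h8, le_div_iff₀ h6, mul_comm]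
        exact h7⟩)
      (fun t ht => by rw [← hcD]; exact hv.few k hk j hj t ht)
      (hv.inj k hk j hj) hne
    refine h2.trans ?_
    push_cast
    apply div_le_div_of_nonneg_left _ hN0 hcard
    positivity
  have hall : c.F2 h P0 k ⊆ ⋃ j ∈ c.B k, {R | c.S h P0 k j R ≤ (c.Q k j).card / 2} := by
    intro R hR
    obtain ⟨j, hj, hR⟩ := hR
    exact Set.mem_iUnion₂.mpr ⟨j, hj, hR⟩
  refine ((pr_mono _ hall).trans (pr_biUnion_le_card _ _ _ _ hone)).trans ?_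
  have hB := hv.card_B k hk
  rw [hu] at hB
  have hnn : 0 ≤ 4 * (D : ℝ) ^ D * (2 ^ e k * G ^ (h - 1) + Mx ^ h) / N := by positivity
  refine (mul_le_mul_of_nonneg_right hB hnn).trans ?_
  -- the two exponents
  have hX : (2 : ℝ) ^ (u * k) * (G ^ (h - 1)) ≤ (2 : ℝ) ^ (-(b * k)) := by
    rw [hG, ← Real.rpow_mul (by norm_num), ← Real.rpow_add (by norm_num)]
    apply Real.rpow_le_rpow_of_exponent_le (by norm_num)
    have : b ≤ ζ * (1 - h) - u := min_le_left _ _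
    nlinarith
  have hY : (2 : ℝ) ^ (u * k) * (Mx ^ h / 2 ^ e k) ≤ 4 * (2 : ℝ) ^ (-(b * k)) := by
    have h2 : Mx ^ h / 2 ^ e k ≤ (2 : ℝ) ^ ((k + 1 - g * k) * h) / (2 : ℝ) ^ ((1 / 2 - d) * k - 1) := by
      rw [hMx, ← Real.rpow_mul (by norm_num)]
      apply div_le_div_of_nonneg_left (by positivity) (by positivity) (he k hk)
    have h3 : (2 : ℝ) ^ (u * k) * (Mx ^ h / 2 ^ e k) ≤
        (2 : ℝ) ^ (u * k) * ((2 : ℝ) ^ ((k + 1 - g * k) * h) / (2 : ℝ) ^ ((1 / 2 - d) * k - 1)) :=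
      mul_le_mul_of_nonneg_left h2 (by positivity)
    refine h3.trans ?_
    rw [← Real.rpow_sub (by norm_num), ← Real.rpow_add (by norm_num)]
    have h4 : (4 : ℝ) = (2 : ℝ) ^ (2 : ℝ) := by norm_num
    rw [h4, ← Real.rpow_add (by norm_num)]
    apply Real.rpow_le_rpow_of_exponent_le (by norm_num)
    have : b ≤ 1 / 2 - d - u - (1 - g) * h := min_le_right _ _
    nlinarith
  have h9 : (2 : ℝ) ^ (u * k) * (4 * (D : ℝ) ^ D * (2 ^ e k * G ^ (h - 1) + Mx ^ h) / N) =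
      4 * (D : ℝ) ^ D / c0 * (k : ℝ) ^ 2 *
        ((2 : ℝ) ^ (u * k) * (G ^ (h - 1)) + (2 : ℝ) ^ (u * k) * (Mx ^ h / 2 ^ e k)) := by
    rw [hN]
    field_simp
  rw [h9]
  calc 4 * (D : ℝ) ^ D / c0 * (k : ℝ) ^ 2 *
        ((2 : ℝ) ^ (u * k) * (G ^ (h - 1)) + (2 : ℝ) ^ (u * k) * (Mx ^ h / 2 ^ e k))
      ≤ 4 * (D : ℝ) ^ D / c0 * (k : ℝ) ^ 2 * ((2 : ℝ) ^ (-(b * k)) + 4 * (2 : ℝ) ^ (-(b * k))) :=
        mul_le_mul_of_nonneg_left (add_le_add hX hY) (by positivity)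
    _ = 4 * (D : ℝ) ^ D * 5 / c0 * (k : ℝ) ^ 2 * (2 : ℝ) ^ (-(b * k)) := by ring
    _ ≤ (2 : ℝ) ^ (-(a * k)) := hK k (by omega)

end Pool.Agent.Helper62.KS
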