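import Mathlib
import Pool.Agent.Helper62.KS.Prob
import Pool.Agent.Helper16.KS.St

/-!
# ExistsGood, part 1: polynomials in the random set, basic facts (project KS, MP_768c9c_nt)
-/

set_option autoImplicit false

open MeasureTheory
open Pool.Agent.Helper33.KS

namespace Pool.Agent.Helper62.KS

section poly

variable {ι : Type*} [DecidableEq ι]

/-- `F` is dominated by a polynomial with nonnegative coefficients and supports with at most `D`
elements; `M A` bounds the conditional expectation of the part of the polynomial divisible by `A` -/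
def IsPoly (P : ι → ℝ) (D : ℕ) (F : Set ι → ℝ) (M : Finset ι → ℝ) : Prop :=
  ∃ (τ : Type) (T : Finset τ) (w : τ → ℝ) (S : τ → Finset ι), (∀ t ∈ T, 0 ≤ w t) ∧
    (∀ t ∈ T, (S t).card ≤ D) ∧ (∀ R, F R ≤ YY T w S R) ∧
    ∀ A : Finset ι, ∑ t ∈ T.filter (fun t => A ⊆ S t), w t * ∏ i ∈ S t \ A, P i ≤ M A

variable {P : ι → ℝ} {D : ℕ}

theorem IsPoly.mono {F F' : Set ι → ℝ} {M M' : Finset ι → ℝ} (h : IsPoly P D F M)
    (hF : ∀ R, F' R ≤ F R) (hM : ∀ A, M A ≤ M' A) : IsPoly P D F' M' := by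
  obtain ⟨τ, T, w, S, h1, h2, h3, h4⟩ := h
  exact ⟨τ, T, w, S, h1, h2, fun R => (hF R).trans (h3 R), fun A => (h4 A).trans (hM A)⟩

theorem IsPoly.single (w : ℝ) (hw : 0 ≤ w) (S : Finset ι) (hS : S.card ≤ D) :
    IsPoly P D (fun R => w * ind R S)
      (fun A => if A ⊆ S then w * ∏ i ∈ S \ A, P i else 0) := by
  refine ⟨Unit, {()}, fun _ => w, fun _ => S, fun _ _ => hw, fun _ _ => hS, fun R => ?_,
    fun A => ?_⟩
  · unfold YY; simp
  · by_cases hA : A ⊆ S
    · simp [Finset.filter_singleton, hA]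
    · simp [Finset.filter_singleton, hA]

theorem IsPoly.sum {α : Type} (s : Finset α) (F : α → Set ι → ℝ) (M : α → Finset ι → ℝ)
    (h : ∀ i ∈ s, IsPoly P D (F i) (M i)) :
    IsPoly P D (fun R => ∑ i ∈ s, F i R) (fun A => ∑ i ∈ s, M i A) := by
  choose τ T w S h1 h2 h3 h4 using h
  refine ⟨(i : {i // i ∈ s}) × τ i.1 i.2, s.attach.sigma (fun i => T i.1 i.2),
    fun t => w t.1.1 t.1.2 t.2, fun t => S t.1.1 t.1.2 t.2, ?_, ?_, ?_, ?_⟩
  · rintro ⟨⟨i, hi⟩, t⟩ ht
    rw [Finset.mem_sigma] at ht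
    exact h1 i hi t ht.2
  · rintro ⟨⟨i, hi⟩, t⟩ ht
    rw [Finset.mem_sigma] at ht
    exact h2 i hi t ht.2
  · intro R
    unfold YY
    rw [Finset.sum_sigma]
    show ∑ i ∈ s, F i R ≤ _
    rw [← Finset.sum_attach]
    refine Finset.sum_le_sum fun i _ => ?_
    exact h3 i.1 i.2 R
  · intro A
    rw [Finset.sum_filter, Finset.sum_sigma]
    show _ ≤ ∑ i ∈ s, M i A
    rw [← Finset.sum_attach s]
    refine Finset.sum_le_sum fun i _ => ?_
    refine le_trans (le_of_eq ?_) (h4 i.1 i.2 A)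
    rw [Finset.sum_filter]

/-- upper tail -/
theorem IsPoly.tail {F : Set ι → ℝ} {M : Finset ι → ℝ} (h : IsPoly P D F M)
    (hP : ∀ i, 0 ≤ P i ∧ P i ≤ 1) (L l : ℝ) (hl : 0 < l) (hM : ∀ A, M A ≤ L) (n : ℕ) :
    pr P {R | l < F R} ≤ (2 ^ (D * n) * L / l) ^ n := by
  obtain ⟨τ, T, w, S, h1, h2, h3, h4⟩ := h
  refine (pr_mono P ?_).trans (pr_upper P hP T w S h1 D h2 L (fun A => (h4 A).trans (hM A)) n l hl)
  intro R hR
  have hR' : l < F R := hR
  exact hR'.le.trans (h3 R)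

/-- Markov -/
theorem IsPoly.markov {F : Set ι → ℝ} {M : Finset ι → ℝ} (h : IsPoly P D F M)
    (hP : ∀ i, 0 ≤ P i ∧ P i ≤ 1) (L l : ℝ) (hl : 0 < l) (hM : M ∅ ≤ L) :
    pr P {R | l < F R} ≤ L / l := by
  obtain ⟨τ, T, w, S, h1, h2, h3, h4⟩ := h
  have hsum : ∑ t ∈ T, w t * ∏ i ∈ S t, P i ≤ L := by
    have := h4 ∅
    simp only [Finset.empty_subset, Finset.filter_true, Finset.sdiff_empty] at this
    exact this.trans hM
  set MM : ℝ := ∑ t ∈ T, w t with hMM
  have hMM0 : 0 ≤ MM := Finset.sum_nonneg h1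
  have h5 := upper_tail (bern (coin P)) rs bern_meas P (fun i => (hP i).1)
    (fun A => by rw [bern_exact]; simp only [coin_coe hP]; exact le_rfl) T w S h1 (D + 1)
    (fun t ht => (h2 t ht).trans (Nat.le_succ D)) L MM hMM0 hsum (fun A _ => by
      refine (Finset.sum_le_sum_of_subset_of_nonneg (Finset.filter_subset _ _) ?_).trans
        (Finset.sum_le_sum (g := w) fun t ht => ?_)
      · intro t ht _
        exact mul_nonneg (h1 t ht) (Finset.prod_nonneg fun i _ => (hP i).1)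
      · calc w t * ∏ i ∈ S t \ A, P i ≤ w t * 1 :=
              mul_le_mul_of_nonneg_left (Finset.prod_le_one (fun i _ => (hP i).1)
                fun i _ => (hP i).2) (h1 t ht)
          _ = w t := mul_one _) 1 l hl
  rw [Finset.prod_range_one, pow_one] at h5
  have h6 : pr P {R | l < F R} ≤ (bern (coin P)).real {ω | l ≤ YY T w S (rs ω)} := by
    unfold pr
    refine measureReal_mono ?_ (measure_ne_top _ _)
    intro ω hω
    have hω' : l < F (rs ω) := hω
    exact hω'.le.trans (h3 _)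
  refine h6.trans (h5.trans (le_of_eq ?_))
  have h7 : (((D + 1) * 0 : ℕ) : ℝ) ^ (D + 1) = 0 := by
    rw [mul_zero, Nat.cast_zero]
    exact zero_pow (Nat.succ_ne_zero D)
  rw [h7, zero_mul, add_zero]

end poly

end Pool.Agent.Helper62.KS
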