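import Mathlib
import Pool.Agent.Helper62.KS.EG1

/-!
# ExistsGood, part 2: basic facts about systems (project KS, MP_768c9c_nt)
-/

set_option autoImplicit false

open MeasureTheory
open scoped Classical
open Pool.Agent.Helper33.KS Pool.Agent.Helper16.KS

namespace Pool.Agent.Helper62.KS

variable (S : Sys)

theorem c_pos : 0 < S.c := by
  have h1 := S.d_pos; have h2 := S.d_le
  by_contra hcon
  push Not at hcon
  have : S.c / 10 ^ 5 ≤ 0 := div_nonpos_of_nonpos_of_nonneg hcon (by norm_num)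
  linarith

theorem eta_pos : 0 < S.eta := by
  have h1 := c_pos S; have h2 := S.c_le
  linarith

theorem del_pos : 0 < S.del := lt_of_lt_of_le (eta_pos S) S.eta_le

theorem c_le' : S.c ≤ 0.006 := by
  have h1 := S.c_le; have h2 := S.eta_le; have h3 := S.del_le
  linarith

theorem d_le' : S.d ≤ 0.00000006 := by
  have h1 := S.d_le; have h2 := c_le' S
  linarith

theorem ep_pos : 0 < S.ep := mul_pos (mul_pos (c_pos S) (eta_pos S)) S.d_pos

theorem tau_pos : 0 < S.tau := div_pos (ep_pos S) (by norm_num)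

theorem tau_le : S.tau ≤ 0.001 := by
  unfold Sys.tau Sys.ep
  have h1 := c_le' S; have h2 := d_le' S; have h3 := S.eta_le; have h4 := S.del_le
  have h5 := c_pos S; have h6 := eta_pos S; have h7 := S.d_pos
  have h8 : S.c * S.eta ≤ 1 := by nlinarith
  have h9 : S.c * S.eta * S.d ≤ 1 := by
    have : 0 ≤ S.c * S.eta := by positivity
    nlinarith
  rw [div_le_iff₀ (by norm_num)]
  linarith

theorem s_pos : 0 < S.s := by unfold Sys.s; linarith [S.d_pos]

theorem s_le : S.s ≤ 0.0000001 := by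
  unfold Sys.s
  have h1 := d_le' S
  linarith

theorem hh_pos : 0 < S.hh := by
  unfold Sys.hh
  have h1 := s_le S; have h2 := S.del_le; have h3 := tau_pos S
  linarith

theorem hh_le : S.hh ≤ 1 := by
  unfold Sys.hh
  have h1 := s_pos S; have h2 := del_pos S; have h3 := tau_le S
  linarith

/-- the probabilities: primes `≥ 2^(k0/5)` -/
noncomputable def PP (k0 p : ℕ) : ℝ :=
  if p.Prime ∧ (2 : ℝ) ^ ((k0 : ℝ) / 5) ≤ p then S.pr p else 0

theorem pr_nonneg' (m : ℕ) : 0 ≤ S.pr m := Real.rpow_nonneg (Nat.cast_nonneg _) _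

theorem pr_pos' {m : ℕ} (hm : m ≠ 0) : 0 < S.pr m :=
  Real.rpow_pos_of_pos (by exact_mod_cast Nat.pos_of_ne_zero hm) _

theorem PP_mem (k0 p : ℕ) : 0 ≤ PP S k0 p ∧ PP S k0 p ≤ 1 := by
  unfold PP
  split_ifs with hp
  · refine ⟨pr_nonneg' S p, ?_⟩
    exact Real.rpow_le_one_of_one_le_of_nonpos (by exact_mod_cast hp.1.one_le)
      (by linarith [hh_pos S])
  · exact ⟨le_rfl, zero_le_one⟩

theorem PP_le (k0 p : ℕ) : PP S k0 p ≤ S.pr p := by
  unfold PP
  split_ifs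
  · exact le_rfl
  · exact pr_nonneg' S p

theorem PP_eq {k0 p : ℕ} (hp : p.Prime) (h : (2 : ℝ) ^ ((k0 : ℝ) / 5) ≤ p) :
    PP S k0 p = S.pr p := by
  unfold PP; rw [if_pos ⟨hp, h⟩]

/-- conditional probabilities are at most `pc` -/
theorem prod_PP_le (k0 : ℕ) (A D : Finset ℕ) : ∏ p ∈ D \ A, PP S k0 p ≤ S.pc A D := by
  unfold Sys.pc
  exact Finset.prod_le_prod (fun p _ => (PP_mem S k0 p).1) fun p _ => PP_le S k0 p

theorem inR_iff {m : ℕ} (hm : m ≠ 0) (R : Set ℕ) : inR R m ↔ (m.primeFactors : Set ℕ) ⊆ R := by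
  constructor
  · intro h p hp
    have hp' := Finset.mem_coe.mp hp
    exact h p (Nat.prime_of_mem_primeFactors hp') (Nat.dvd_of_mem_primeFactors hp')
  · intro h p hp hpm
    exact h (Finset.mem_coe.mpr (Nat.mem_primeFactors.mpr ⟨hp, hpm, hm⟩))

theorem ind_inR {m : ℕ} (hm : m ≠ 0) (R : Set ℕ) :
    ind R m.primeFactors = if inR R m then 1 else 0 := by
  unfold ind
  by_cases h : inR R m
  · rw [if_pos h, if_pos ((inR_iff hm R).mp h)]
  · rw [if_neg h, if_neg (fun h' => h ((inR_iff hm R).mpr h'))]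

theorem ec_le (k : ℕ) : ec S.d k ≤ k := by
  unfold ec
  have h1 := S.d_pos
  have h2 : (k : ℝ) * (1 / 2 - S.d) ≤ k := by
    have : (0 : ℝ) ≤ k := Nat.cast_nonneg _
    nlinarith
  exact_mod_cast (Nat.floor_le_of_le h2)

theorem cell_mem {k j n : ℕ} (hj : j < nc S.d k) (hn : n ∈ cell S.d k j) :
    2 ^ k ≤ n ∧ n < 2 ^ (k + 1) := by
  unfold cell at hn
  rw [Finset.mem_Ico] at hn
  unfold nc at hj
  constructor
  · exact le_trans (Nat.le_add_right _ _) hn.1
  · refine lt_of_lt_of_le hn.2 ?_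
    have h1 : (j + 1) * 2 ^ ec S.d k ≤ 2 ^ (k - ec S.d k) * 2 ^ ec S.d k :=
      Nat.mul_le_mul_right _ hj
    rw [← pow_add, Nat.sub_add_cancel (ec_le S k)] at h1
    rw [pow_succ]
    omega

theorem badc_mem {k j : ℕ} (hj : j ∈ S.badc k) : j < nc S.d k ∧ S.bad k j := by
  unfold Sys.badc at hj
  rw [Finset.mem_filter, Finset.mem_range] at hj
  exact hj

theorem nc_le (k : ℕ) : nc S.d k ≤ 2 ^ k := by
  unfold nc
  exact Nat.pow_le_pow_right (by norm_num) (Nat.sub_le _ _)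

/-- facts about candidates -/
theorem cand_facts {k j : ℕ} (hk : S.K ≤ k) (hj : j ∈ S.badc k) {x : ℕ × ℕ}
    (hx : x ∈ S.Cand k j) :
    x.1.Prime ∧ (2 : ℝ) ^ ((k : ℝ) / 3) ≤ x.1 ∧ Squarefree x.2 ∧ x.2 ≠ 0 ∧ x.1 * x.2 < 2 ^ (k + 1) ∧
      2 ^ k ≤ x.1 * x.2 ∧ (∀ p ∈ x.2.primeFactors, (2 : ℝ) ^ ((k : ℝ) / 5) ≤ p) := by
  have hj' := badc_mem S hj
  obtain ⟨h1, h2, h3, h4, h5, h6, h7⟩ := S.cand k hk j hj'.1 hj'.2 x hx
  have h8 : x.2 ≠ 0 := by omega
  refine ⟨h1, h2, Squarefree.of_mul_right h3, h8, (cell_mem S hj'.1 h5).2, (cell_mem S hj'.1 h5).1,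
    ?_⟩
  intro p hp
  have hpp := Nat.prime_of_mem_primeFactors hp
  have h9 := h6 p hpp ((Nat.dvd_of_mem_primeFactors hp).mul_left _)
  have h10 : (1 : ℝ) ≤ p := by exact_mod_cast hpp.one_le
  have h11 : (p : ℝ) ^ (1 / 2 - S.del) ≤ (p : ℝ) ^ (1 / 2 : ℝ) :=
    Real.rpow_le_rpow_of_exponent_le h10 (by linarith [del_pos S])
  have h12 : (2 : ℝ) ^ ((k : ℝ) / 10) ≤ (2 : ℝ) ^ ((S.u (S.cls k j) + S.c) * k) := by
    apply Real.rpow_le_rpow_of_exponent_le (by norm_num)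
    have h13 := S.u_ge (S.cls k j)
    have h14 := c_pos S
    have h15 : (0 : ℝ) ≤ k := Nat.cast_nonneg _
    nlinarith
  have h16 : (2 : ℝ) ^ ((k : ℝ) / 10) ≤ (p : ℝ) ^ (1 / 2 : ℝ) := h12.trans (h9.trans h11)
  have h17 : ((2 : ℝ) ^ ((k : ℝ) / 10)) ^ (2 : ℝ) ≤ ((p : ℝ) ^ (1 / 2 : ℝ)) ^ (2 : ℝ) :=
    Real.rpow_le_rpow (by positivity) h16 (by norm_num)
  rw [← Real.rpow_mul (by norm_num), ← Real.rpow_mul (by linarith)] at h17
  norm_num at h17
  refine le_trans (le_of_eq ?_) h17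
  congr 1
  ring

/-- number of prime factors -/
theorem card_pf_le (n : ℕ) (hn : n ≠ 0) (a b : ℝ) (hn2 : (n : ℝ) ≤ (2 : ℝ) ^ b)
    (h : ∀ p ∈ n.primeFactors, (2 : ℝ) ^ a ≤ p) : (n.primeFactors.card : ℝ) * a ≤ b := by
  have h1 : ((2 : ℝ) ^ a) ^ n.primeFactors.card ≤ ∏ p ∈ n.primeFactors, (p : ℝ) := by
    rw [← Finset.prod_const]
    exact Finset.prod_le_prod (fun p _ => by positivity) h
  have h2 : ∏ p ∈ n.primeFactors, (p : ℝ) ≤ n := by
    have h3 : ∏ p ∈ n.primeFactors, p ≤ n :=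
      Nat.le_of_dvd (Nat.pos_of_ne_zero hn) (Nat.prod_primeFactors_dvd n)
    have h3' : ((∏ p ∈ n.primeFactors, p : ℕ) : ℝ) ≤ (n : ℝ) := Nat.cast_le.mpr h3
    rwa [Nat.cast_prod] at h3'
  have h4 : (2 : ℝ) ^ (a * n.primeFactors.card) ≤ (2 : ℝ) ^ b := by
    rw [Real.rpow_mul (by norm_num), Real.rpow_natCast]
    exact h1.trans (h2.trans hn2)
  have h5 := (Real.rpow_le_rpow_left_iff (by norm_num : (1 : ℝ) < 2)).mp h4
  linarith [mul_comm a (n.primeFactors.card : ℝ)]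

/-- the cofactor of a candidate has at most `5` prime factors -/
theorem cand_card {k j : ℕ} (hk : S.K ≤ k) (hk2 : 2 ≤ k) (hj : j ∈ S.badc k) {x : ℕ × ℕ}
    (hx : x ∈ S.Cand k j) : x.2.primeFactors.card ≤ 5 := by
  obtain ⟨h1, h2, h3, h4, h5, h6, h7⟩ := cand_facts S hk hj hx
  have hk2' : (2 : ℝ) ≤ k := by exact_mod_cast hk2
  have h8 : (x.2 : ℝ) ≤ (2 : ℝ) ^ ((2 / 3 : ℝ) * k + 1) := by
    have h9 : (x.1 : ℝ) * x.2 ≤ 2 ^ (k + 1) := by exact_mod_cast h5.le
    have h10 : (2 : ℝ) ^ ((k : ℝ) / 3) * x.2 ≤ 2 ^ (k + 1) :=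
      (mul_le_mul_of_nonneg_right h2 (Nat.cast_nonneg _)).trans h9
    have h11 : (2 : ℝ) ^ (k + 1) = (2 : ℝ) ^ ((k : ℝ) / 3) * (2 : ℝ) ^ ((2 / 3 : ℝ) * k + 1) := by
      rw [← Real.rpow_add (by norm_num), ← Real.rpow_natCast]
      congr 1
      push_cast
      ring
    rw [h11] at h10
    exact le_of_mul_le_mul_left h10 (by positivity)
  have h9 := card_pf_le x.2 h4 ((k : ℝ) / 5) ((2 / 3 : ℝ) * k + 1) h8 h7
  by_contra hcon
  push Not at hcon
  have h10 : (6 : ℝ) ≤ x.2.primeFactors.card := by exact_mod_cast hcon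
  have h11 : (6 : ℝ) * ((k : ℝ) / 5) ≤ x.2.primeFactors.card * ((k : ℝ) / 5) :=
    mul_le_mul_of_nonneg_right h10 (by positivity)
  linarith

/-! ### Completely multiplicative functions -/

theorem CM_eq (g : ℕ → ℝ) (n : ℕ) : CM g n = ∏ p ∈ n.primeFactors, g p ^ n.factorization p := by
  unfold CM
  rw [Finset.prod_list_map_count]
  refine Finset.prod_congr rfl fun p _ => ?_
  rw [Nat.primeFactorsList_count_eq]

theorem gam_nonneg (p : ℕ) : 0 ≤ S.gam p := Real.rpow_nonneg (Nat.cast_nonneg _) _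

theorem base_nonneg (p : ℕ) : 0 ≤ S.base p := Real.rpow_nonneg (Nat.cast_nonneg _) _

theorem Fe_nonneg (D : Finset ℕ) (n : ℕ) : 0 ≤ S.Fe D n := by
  unfold Sys.Fe
  refine Finset.prod_nonneg fun p _ => ?_
  split_ifs
  · exact pow_nonneg (add_nonneg (base_nonneg S p) (gam_nonneg S p)) _
  · exact pow_nonneg (gam_nonneg S p) _

/-- expansion of the crude majorant -/
theorem CM_Fh_le (k0 : ℕ) (R : Set ℕ) (n : ℕ) (hr : Sys.rough k0 n) :
    CM (S.Fh k0 R) n ≤ ∑ D ∈ n.primeFactors.powerset, S.Fe D n * ind R D := by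
  rw [CM_eq]
  set a : ℕ → ℝ := fun p => ind R {p} * (S.base p + S.gam p) ^ n.factorization p with ha
  set b : ℕ → ℝ := fun p => S.gam p ^ n.factorization p with hb
  have h1 : ∏ p ∈ n.primeFactors, S.Fh k0 R p ^ n.factorization p ≤
      ∏ p ∈ n.primeFactors, (a p + b p) := by
    refine Finset.prod_le_prod (fun p _ => ?_) fun p hp => ?_
    · apply pow_nonneg
      unfold Sys.Fh Sys.bR
      split_ifs
      · exact le_rfl
      · exact add_nonneg (base_nonneg S p) (gam_nonneg S p)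
      · rw [zero_add]; exact gam_nonneg S p
    · have hpr := hr p (Nat.prime_of_mem_primeFactors hp) (Nat.dvd_of_mem_primeFactors hp)
      unfold Sys.Fh Sys.bR
      rw [if_neg (not_lt.mpr hpr)]
      by_cases hpR : p ∈ R
      · rw [if_pos hpR]
        have h2 : ind R {p} = 1 := by
          unfold ind
          rw [if_pos]
          simpa using hpR
        simp only [ha, hb, h2, one_mul]
        have : 0 ≤ S.gam p ^ n.factorization p := pow_nonneg (gam_nonneg S p) _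
        linarith
      · rw [if_neg hpR, zero_add]
        have h2 : ind R {p} = 0 := by
          unfold ind
          rw [if_neg]
          simpa using hpR
        simp only [ha, hb, h2, zero_mul, zero_add]
        exact le_rfl
  refine h1.trans (le_of_eq ?_)
  rw [Finset.prod_add]
  refine Finset.sum_congr rfl fun D hD => ?_
  rw [Finset.mem_powerset] at hD
  have h2 : ∏ p ∈ D, a p = (∏ p ∈ D, (S.base p + S.gam p) ^ n.factorization p) * ind R D := by
    have h3 : ∏ p ∈ D, ind R ({p} : Finset ℕ) = ind R D := by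
      clear_value a b
      clear h1 ha hb
      induction D using Finset.induction_on with
      | empty => rw [Finset.prod_empty, ind_empty]
      | insert x s hx ih =>
        rw [Finset.prod_insert hx, ih ((Finset.subset_insert _ _).trans hD), ind_union]
        rfl
    rw [← h3, ← Finset.prod_mul_distrib]
    exact Finset.prod_congr rfl fun p _ => mul_comm _ _
  have h4 : S.Fe D n = (∏ p ∈ D, (S.base p + S.gam p) ^ n.factorization p) *
      ∏ p ∈ n.primeFactors \ D, S.gam p ^ n.factorization p := by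
    unfold Sys.Fe
    rw [← Finset.prod_sdiff hD, mul_comm]
    congr 1
    · exact Finset.prod_congr rfl fun p hp => by rw [if_pos hp]
    · exact Finset.prod_congr rfl fun p hp => by rw [if_neg (Finset.mem_sdiff.mp hp).2]
  rw [h2, h4]
  ring

/-- numbers which are not rough do not contribute -/
theorem CM_Fh_zero (k0 : ℕ) (R : Set ℕ) (n : ℕ) (hn : n ≠ 0) (hr : ¬ Sys.rough k0 n) :
    CM (S.Fh k0 R) n = 0 := by
  unfold Sys.rough at hr
  push Not at hr
  obtain ⟨p, hp, hpn, hlt⟩ := hr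
  rw [CM_eq]
  apply Finset.prod_eq_zero (Nat.mem_primeFactors.mpr ⟨hp, hpn, hn⟩)
  unfold Sys.Fh
  rw [if_pos hlt]
  apply zero_pow
  exact (hp.factorization_pos_of_dvd hn hpn).ne'

/-- number of prime factors of a rough number -/
theorem rough_card {k0 n : ℕ} (hk0 : 0 < k0) (hn : n ≠ 0) (hr : Sys.rough k0 n) (b : ℝ)
    (hnb : (n : ℝ) ≤ (2 : ℝ) ^ b) : (n.primeFactors.card : ℝ) ≤ 5 * b / k0 := by
  have hk0' : (0 : ℝ) < k0 := by exact_mod_cast hk0
  have h1 := card_pf_le n hn ((k0 : ℝ) / 5) b hnb fun p hp =>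
    hr p (Nat.prime_of_mem_primeFactors hp) (Nat.dvd_of_mem_primeFactors hp)
  rw [le_div_iff₀ hk0']
  linarith

end Pool.Agent.Helper62.KS
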