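import Mathlib
import Pool.Agent.Helper62.KS.EG2

/-!
# ExistsGood, part 3: the polynomials of the events (project KS, MP_768c9c_nt)
-/

set_option autoImplicit false

open MeasureTheory
open scoped Classical
open Pool.Agent.Helper33.KS Pool.Agent.Helper16.KS

namespace Pool.Agent.Helper62.KS

variable (S : Sys)

/-! ### A uniform tail estimate -/

theorem pow_tail (a b : ℝ) (hb : 0 < b) : ∃ n K0 : ℕ, ∀ k0 : ℕ, K0 ≤ k0 → ∀ k : ℕ,
    (k0 : ℝ) / 5 ≤ k → ∀ D : ℕ, (D : ℝ) ≤ 5 * (k + 2) / k0 + 6 → ∀ L l : ℝ, 0 < l →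
    L ≤ (2 : ℝ) ^ (-(b * k)) * l → 0 ≤ L → (2 ^ (D * n) * L / l) ^ n ≤ (2 : ℝ) ^ (-(a * k)) := by
  obtain ⟨n, hn⟩ := exists_nat_ge (2 * (|a| + 1) / b)
  obtain ⟨K, hK⟩ := exists_nat_ge (120 * n / b + 5)
  refine ⟨n, K, fun k0 hk0 k hk D hD L l hl hL hL0 => ?_⟩
  have hk0' : (K : ℝ) ≤ k0 := by exact_mod_cast hk0
  have hn0 : (0 : ℝ) ≤ n := Nat.cast_nonneg _
  have hq : 0 ≤ 120 * (n : ℝ) / b := by positivity
  have hk05 : (5 : ℝ) ≤ k0 := by linarith
  have hk0pos : (0 : ℝ) < k0 := by linarith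
  have hk1 : (1 : ℝ) ≤ k := by linarith
  -- `D n ≤ b k / 2`
  have h1 : 120 * (n : ℝ) ≤ b * k0 := by
    have : 120 * (n : ℝ) / b ≤ k0 := by linarith
    rw [div_le_iff₀ hb] at this
    linarith [mul_comm b (k0 : ℝ)]
  have h2 : (D : ℝ) * n ≤ b * k / 2 := by
    have h3 : (D : ℝ) * n ≤ (5 * (k + 2) / k0 + 6) * n := mul_le_mul_of_nonneg_right hD hn0
    have h4 : 5 * ((k : ℝ) + 2) / k0 * n ≤ b * k / 8 := by
      rw [div_mul_eq_mul_div, div_le_iff₀ hk0pos]
      have h5 : 5 * ((k : ℝ) + 2) * n ≤ 15 * k * n :=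
        mul_le_mul_of_nonneg_right (by linarith) hn0
      have h6 : 120 * (n : ℝ) * k ≤ b * k0 * k := mul_le_mul_of_nonneg_right h1 (by linarith)
      nlinarith
    have h7 : 6 * (n : ℝ) ≤ b * k / 4 := by
      have h8 : b * (k0 : ℝ) ≤ b * (5 * k) := mul_le_mul_of_nonneg_left (by linarith) hb.le
      nlinarith
    nlinarith
  have h3 : (2 : ℝ) ^ (D * n) * L / l ≤ (2 : ℝ) ^ (-(b * k / 2)) := by
    rw [div_le_iff₀ hl]
    have h4 : (2 : ℝ) ^ (D * n) ≤ (2 : ℝ) ^ (b * k / 2) := by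
      rw [← Real.rpow_natCast]
      apply Real.rpow_le_rpow_of_exponent_le (by norm_num)
      push_cast
      exact h2
    calc (2 : ℝ) ^ (D * n) * L ≤ (2 : ℝ) ^ (b * k / 2) * ((2 : ℝ) ^ (-(b * k)) * l) :=
          mul_le_mul h4 hL hL0 (by positivity)
      _ = (2 : ℝ) ^ (b * k / 2) * (2 : ℝ) ^ (-(b * k)) * l := by ring
      _ = (2 : ℝ) ^ (-(b * k / 2)) * l := by
          rw [← Real.rpow_add (by norm_num)]
          congr 2
          ring
  have h4 : 0 ≤ (2 : ℝ) ^ (D * n) * L / l := by positivity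
  refine (pow_le_pow_left₀ h4 h3 n).trans ?_
  rw [← Real.rpow_natCast, ← Real.rpow_mul (by norm_num)]
  apply Real.rpow_le_rpow_of_exponent_le (by norm_num)
  have h5 : |a| + 1 ≤ b * n / 2 := by
    rw [div_le_iff₀ hb] at hn
    linarith [mul_comm b (n : ℝ)]
  have h6 : (|a| + 1) * k ≤ b * n / 2 * k := mul_le_mul_of_nonneg_right h5 (by linarith)
  have h7 : a * k ≤ |a| * k := mul_le_mul_of_nonneg_right (le_abs_self a) (by linarith)
  nlinarith

/-! ### Crude mass -/

theorem crude_poly (k0 x h D : ℕ) (hx : 0 < x)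
    (hD : ∀ n ∈ Finset.Ico x (x + h), Sys.rough k0 n → n.primeFactors.card ≤ D) :
    IsPoly (PP S k0) D (fun R => ∑ n ∈ Finset.Ico x (x + h), CM (S.Fh k0 R) n)
      (S.CP k0 x h) := by
  have h1 : IsPoly (PP S k0) D
      (fun R => ∑ n ∈ (Finset.Ico x (x + h)).filter (Sys.rough k0),
        ∑ E ∈ n.primeFactors.powerset, S.Fe E n * ind R E)
      (fun A => ∑ n ∈ (Finset.Ico x (x + h)).filter (Sys.rough k0),
        ∑ E ∈ n.primeFactors.powerset,
          if A ⊆ E then S.Fe E n * ∏ i ∈ E \ A, PP S k0 i else 0) := by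
    refine IsPoly.sum _ _ _ fun n hn => IsPoly.sum _ _ _ fun E hE => ?_
    rw [Finset.mem_filter] at hn
    rw [Finset.mem_powerset] at hE
    exact IsPoly.single _ (Fe_nonneg S E n) E ((Finset.card_le_card hE).trans (hD n hn.1 hn.2))
  refine h1.mono (fun R => ?_) fun A => ?_
  · rw [Finset.sum_filter]
    refine Finset.sum_le_sum fun n hn => ?_
    have hn0 : n ≠ 0 := by
      rw [Finset.mem_Ico] at hn
      omega
    by_cases hr : Sys.rough k0 n
    · rw [if_pos hr]
      exact CM_Fh_le S k0 R n hr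
    · rw [if_neg hr, CM_Fh_zero S k0 R n hn0 hr]
  · unfold Sys.CP
    refine Finset.sum_le_sum fun n _ => ?_
    rw [Finset.sum_filter]
    refine Finset.sum_le_sum fun E _ => ?_
    split_ifs
    · exact mul_le_mul_of_nonneg_left (prod_PP_le S k0 A E) (Fe_nonneg S E n)
    · exact le_rfl

/-! ### Large divisors in `⟨R⟩` -/

theorem rpart_poly (k0 k x h D : ℕ) (hx : 0 < x)
    (hD : ∀ n ∈ Finset.Ico x (x + h), Sys.rough k0 n → n.primeFactors.card ≤ D) :
    IsPoly (PP S k0) D (fun R => ∑ n ∈ (Finset.Ico x (x + h)).filter (Sys.rough k0),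
      ∑ e ∈ n.divisors.filter (fun e : ℕ => (2 : ℝ) ^ ((k : ℝ) / 8) ≤ (e : ℝ) ∧ inR R e),
        S.base e * ((n / e : ℕ) : ℝ) ^ (S.s - 1))
      (fun A => ∑ n ∈ (Finset.Ico x (x + h)).filter (Sys.rough k0),
        ∑ e ∈ n.divisors.filter (fun e : ℕ => (2 : ℝ) ^ ((k : ℝ) / 8) ≤ (e : ℝ) ∧
          A ⊆ e.primeFactors),
          S.base e * ((n / e : ℕ) : ℝ) ^ (S.s - 1) * S.pc A e.primeFactors) := by
  have hw : ∀ n e : ℕ, 0 ≤ S.base e * ((n / e : ℕ) : ℝ) ^ (S.s - 1) := fun n e =>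
    mul_nonneg (base_nonneg S e) (Real.rpow_nonneg (Nat.cast_nonneg _) _)
  have h1 : IsPoly (PP S k0) D
      (fun R => ∑ n ∈ (Finset.Ico x (x + h)).filter (Sys.rough k0),
        ∑ e ∈ n.divisors.filter (fun e : ℕ => (2 : ℝ) ^ ((k : ℝ) / 8) ≤ (e : ℝ)),
          (S.base e * ((n / e : ℕ) : ℝ) ^ (S.s - 1)) * ind R e.primeFactors)
      (fun A => ∑ n ∈ (Finset.Ico x (x + h)).filter (Sys.rough k0),
        ∑ e ∈ n.divisors.filter (fun e : ℕ => (2 : ℝ) ^ ((k : ℝ) / 8) ≤ (e : ℝ)),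
          if A ⊆ e.primeFactors then
            (S.base e * ((n / e : ℕ) : ℝ) ^ (S.s - 1)) * ∏ i ∈ e.primeFactors \ A, PP S k0 i
          else 0) := by
    refine IsPoly.sum _ _ _ fun n hn => IsPoly.sum _ _ _ fun e he => ?_
    rw [Finset.mem_filter] at hn he
    have hn0 : n ≠ 0 := by
      have := Finset.mem_Ico.mp hn.1
      omega
    refine IsPoly.single _ (hw n e) _ (le_trans (Finset.card_le_card ?_) (hD n hn.1 hn.2))
    exact Nat.primeFactors_mono (Nat.dvd_of_mem_divisors he.1) hn0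
  refine h1.mono (fun R => ?_) fun A => ?_
  · refine Finset.sum_le_sum fun n hn => ?_
    rw [← Finset.filter_filter, Finset.sum_filter]
    refine Finset.sum_le_sum fun e he => ?_
    have he0 : e ≠ 0 := by
      rw [Finset.mem_filter] at he
      exact (Nat.pos_of_mem_divisors he.1).ne'
    rw [ind_inR he0]
    split_ifs
    · rw [mul_one]
    · rw [mul_zero]
  · refine Finset.sum_le_sum fun n _ => ?_
    rw [← Finset.filter_filter, Finset.sum_filter (s := n.divisors.filter _)]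
    refine Finset.sum_le_sum fun e _ => ?_
    split_ifs
    · exact mul_le_mul_of_nonneg_left (prod_PP_le S k0 A _) (hw n e)
    · exact le_rfl

/-! ### Heavy loads -/

theorem wd_nonneg (k m : ℕ) : 0 ≤ S.wd k m := by
  unfold Sys.wd
  exact mul_nonneg (Real.rpow_nonneg (by norm_num) _) (Real.rpow_nonneg (Nat.cast_nonneg _) _)

theorem heavy_poly (k0 k j D : ℕ) (hk0 : S.K ≤ k0) (hj : j < nc S.d k)
    (Q : ℕ × ℕ → ℕ → ℕ × ℕ → Prop)
    (hD : ∀ n ∈ cell S.d k j, Sys.rough k0 n → n.primeFactors.card + 5 ≤ D) (hk02 : 2 ≤ k0) :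
    IsPoly (PP S k0) D (fun R => S.HP k0 R k j Q) (S.LP k0 k j Q) := by
  have h1 : IsPoly (PP S k0) D
      (fun R => ∑ n ∈ (cell S.d k j).filter (Sys.rough k0), ∑ k' ∈ S.hvy k0 k, ∑ j' ∈ S.badc k',
        ∑ x ∈ (S.Cand k' j').filter (fun x => x.1 ∣ n ∧ Q (k', j') n x),
          ∑ E ∈ (n / x.1).primeFactors.powerset,
            (S.wd k' x.2 * S.Fe E (n / x.1)) * ind R (x.2.primeFactors ∪ E))
      (fun A => ∑ n ∈ (cell S.d k j).filter (Sys.rough k0), ∑ k' ∈ S.hvy k0 k, ∑ j' ∈ S.badc k',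
        ∑ x ∈ (S.Cand k' j').filter (fun x => x.1 ∣ n ∧ Q (k', j') n x),
          ∑ E ∈ (n / x.1).primeFactors.powerset,
            if A ⊆ x.2.primeFactors ∪ E then (S.wd k' x.2 * S.Fe E (n / x.1)) *
              ∏ i ∈ (x.2.primeFactors ∪ E) \ A, PP S k0 i else 0) := by
    refine IsPoly.sum _ _ _ fun n hn => IsPoly.sum _ _ _ fun k' hk' => IsPoly.sum _ _ _
      fun j' hj' => IsPoly.sum _ _ _ fun x hx => IsPoly.sum _ _ _ fun E hE => ?_
    rw [Finset.mem_filter] at hn hx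
    rw [Finset.mem_powerset] at hE
    have hk'0 : k0 ≤ k' := by
      unfold Sys.hvy at hk'
      rw [Finset.mem_Ico] at hk'
      exact (le_max_left _ _).trans hk'.1
    refine IsPoly.single _ (mul_nonneg (wd_nonneg S k' x.2) (Fe_nonneg S E _)) _ ?_
    have h2 : x.2.primeFactors.card ≤ 5 :=
      cand_card S (hk0.trans hk'0) (hk02.trans hk'0) hj' hx.1
    have hn0 : n ≠ 0 := by
      have := (cell_mem S hj hn.1).1
      have h3 : 0 < 2 ^ k := by positivity
      omega
    have h3 : E.card ≤ n.primeFactors.card :=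
      Finset.card_le_card (hE.trans (Nat.primeFactors_mono (Nat.div_dvd_of_dvd hx.2.1) hn0))
    have h4 := Finset.card_union_le x.2.primeFactors E
    have h5 := hD n hn.1 hn.2
    omega
  refine h1.mono (fun R => ?_) fun A => ?_
  · unfold Sys.HP
    rw [Finset.sum_filter]
    refine Finset.sum_le_sum fun n hn => ?_
    have hn0 : n ≠ 0 := by
      have := (cell_mem S hj hn).1
      have h3 : 0 < 2 ^ k := by positivity
      omega
    have hterm : ∀ k' ∈ S.hvy k0 k, ∀ j' ∈ S.badc k', ∀ x ∈ S.Cand k' j', x.1 ∣ n →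
        (Sys.rough k0 (n / x.1) → Sys.rough k0 n) ∧ n / x.1 ≠ 0 ∧ x.2 ≠ 0 := by
      intro k' hk' j' hj' x hx hxn
      have hk'0 : k0 ≤ k' := by
        unfold Sys.hvy at hk'
        rw [Finset.mem_Ico] at hk'
        exact (le_max_left _ _).trans hk'.1
      obtain ⟨c1, c2, c3, c4, c5, c6, c7⟩ := cand_facts S (hk0.trans hk'0) hj' hx
      have hmul : x.1 * (n / x.1) = n := Nat.mul_div_cancel' hxn
      have hne : n / x.1 ≠ 0 := by
        intro h0
        rw [h0, mul_zero] at hmul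
        exact hn0 hmul.symm
      refine ⟨fun hr p hp hpn => ?_, hne, c4⟩
      rw [← hmul] at hpn
      rcases (Nat.Prime.dvd_mul hp).mp hpn with h2 | h2
      · have h3 : p = x.1 := (Nat.prime_dvd_prime_iff_eq hp c1).mp h2
        rw [h3]
        refine le_trans ?_ c2
        apply Real.rpow_le_rpow_of_exponent_le (by norm_num)
        have h4 : (k0 : ℝ) ≤ k' := by exact_mod_cast hk'0
        have h5 : (0 : ℝ) ≤ k0 := Nat.cast_nonneg _
        linarith
      · exact hr p hp h2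
    by_cases hr : Sys.rough k0 n
    · rw [if_pos hr]
      refine Finset.sum_le_sum fun k' hk' => Finset.sum_le_sum fun j' hj' => ?_
      have h2 : (S.act R k' j').filter (fun x => x.1 ∣ n ∧ Q (k', j') n x) =
          ((S.Cand k' j').filter (fun x => x.1 ∣ n ∧ Q (k', j') n x)).filter
            (fun x => inR R x.2) := by
        unfold Sys.act
        exact Finset.filter_comm _ _ _
      rw [h2, Finset.sum_filter]
      refine Finset.sum_le_sum fun x hx => ?_
      rw [Finset.mem_filter] at hx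
      obtain ⟨t1, t2, t3⟩ := hterm k' hk' j' hj' x hx.1 hx.2.1
      have hnn : 0 ≤ ∑ E ∈ (n / x.1).primeFactors.powerset,
          (S.wd k' x.2 * S.Fe E (n / x.1)) * ind R (x.2.primeFactors ∪ E) :=
        Finset.sum_nonneg fun E _ => mul_nonneg (mul_nonneg (wd_nonneg S _ _) (Fe_nonneg S _ _))
          (ind_nonneg _ _)
      split_ifs with hin
      · have hr' : Sys.rough k0 (n / x.1) := fun p hp hpn =>
          hr p hp (hpn.trans (Nat.div_dvd_of_dvd hx.2.1))
        have h3 := mul_le_mul_of_nonneg_left (CM_Fh_le S k0 R (n / x.1) hr')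
          (wd_nonneg S k' x.2)
        refine h3.trans (le_of_eq ?_)
        rw [Finset.mul_sum]
        refine Finset.sum_congr rfl fun E _ => ?_
        rw [← ind_union, ind_inR t3, if_pos hin]
        ring
      · exact hnn
    · rw [if_neg hr]
      apply le_of_eq
      refine Finset.sum_eq_zero fun k' hk' => Finset.sum_eq_zero fun j' hj' =>
        Finset.sum_eq_zero fun x hx => ?_
      unfold Sys.act at hx
      rw [Finset.mem_filter, Finset.mem_filter] at hx
      obtain ⟨t1, t2, t3⟩ := hterm k' hk' j' hj' x hx.1.1 hx.2.1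
      rw [CM_Fh_zero S k0 R (n / x.1) t2 (fun h' => hr (t1 h')), mul_zero]
  · unfold Sys.LP
    refine Finset.sum_le_sum fun n _ => Finset.sum_le_sum fun k' _ => Finset.sum_le_sum
      fun j' _ => Finset.sum_le_sum fun x _ => ?_
    rw [Finset.sum_filter]
    refine Finset.sum_le_sum fun E _ => ?_
    split_ifs
    · exact mul_le_mul_of_nonneg_left (prod_PP_le S k0 A _)
        (mul_nonneg (wd_nonneg S _ _) (Fe_nonneg S _ _))
    · exact le_rfl

end Pool.Agent.Helper62.KS
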