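import Mathlib
import Pool.Agent.Helper62.KS.EG3
import Pool.Agent.Helper62.KS.Cls
import Pool.Agent.Helper16.KS.StP

/-!
# ExistsGood, part 4: candidates (lower bounds and windows) (project KS, MP_768c9c_nt)
-/

set_option autoImplicit false

open MeasureTheory
open scoped Classical
open Pool.Agent.Helper33.KS Pool.Agent.Helper16.KS

namespace Pool.Agent.Helper62.KS

variable (S : Sys)

/-- the sum over the bad cells, the classes weighted by the number of their cells -/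
theorem badc_sum {k : ℕ} (hk : S.K ≤ k) :
    ∑ j ∈ S.badc k, (2 : ℝ) ^ (-(S.u (S.cls k j) * k)) ≤ 3 := by
  have h1 : ∑ j ∈ S.badc k, (2 : ℝ) ^ (-(S.u (S.cls k j) * k)) =
      ∑ i : Fin 3, ∑ j ∈ (S.badc k).filter (fun j => S.cls k j = i),
        (2 : ℝ) ^ (-(S.u (S.cls k j) * k)) :=
    (Finset.sum_fiberwise (S.badc k) (fun j => S.cls k j) _).symm
  rw [h1]
  have h2 : ∀ i : Fin 3, ∑ j ∈ (S.badc k).filter (fun j => S.cls k j = i),
      (2 : ℝ) ^ (-(S.u (S.cls k j) * k)) ≤ 1 := by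
    intro i
    have h3 : ∀ j ∈ (S.badc k).filter (fun j => S.cls k j = i),
        (2 : ℝ) ^ (-(S.u (S.cls k j) * k)) = (2 : ℝ) ^ (-(S.u i * k)) := by
      intro j hj
      rw [(Finset.mem_filter.mp hj).2]
    rw [Finset.sum_congr rfl h3, Finset.sum_const, nsmul_eq_mul]
    have h4 : (((S.badc k).filter (fun j => S.cls k j = i)).card : ℝ) ≤ (2 : ℝ) ^ (S.u i * k) := by
      have h5 := S.few k hk i
      unfold Sys.badc
      rw [Finset.filter_filter]
      exact h5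
    calc (((S.badc k).filter (fun j => S.cls k j = i)).card : ℝ) * (2 : ℝ) ^ (-(S.u i * k))
        ≤ (2 : ℝ) ^ (S.u i * k) * (2 : ℝ) ^ (-(S.u i * k)) :=
          mul_le_mul_of_nonneg_right h4 (by positivity)
      _ = 1 := by
          rw [← Real.rpow_add (by norm_num), add_neg_cancel, Real.rpow_zero]
  calc ∑ i : Fin 3, ∑ j ∈ (S.badc k).filter (fun j => S.cls k j = i),
        (2 : ℝ) ^ (-(S.u (S.cls k j) * k)) ≤ ∑ _i : Fin 3, (1 : ℝ) :=
        Finset.sum_le_sum fun i _ => h2 i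
    _ = 3 := by simp

theorem NN_eq {k j : ℕ} (hk : S.K ≤ k) (hj : j ∈ S.badc k) (R : Set ℕ) :
    S.NN R k j = YY (S.Cand k j) (fun x => 1 / S.pr x.2) (fun x => x.2.primeFactors) R := by
  unfold Sys.NN Sys.act YY
  rw [Finset.sum_filter]
  refine Finset.sum_congr rfl fun x hx => ?_
  obtain ⟨h1, h2, h3, h4, h5, h6, h7⟩ := cand_facts S hk hj hx
  rw [ind_inR h4]
  split_ifs
  · rw [mul_one]
  · rw [mul_zero]

/-- probability that all the primes of the cofactor are in the random set -/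
theorem cand_prod {k0 k j : ℕ} (hk : S.K ≤ k) (hk0 : k0 ≤ k) (hj : j ∈ S.badc k) {x : ℕ × ℕ}
    (hx : x ∈ S.Cand k j) : ∏ p ∈ x.2.primeFactors, PP S k0 p = S.pr x.2 := by
  obtain ⟨h1, h2, h3, h4, h5, h6, h7⟩ := cand_facts S hk hj hx
  have h8 : ∀ p ∈ x.2.primeFactors, PP S k0 p = (p : ℝ) ^ (-S.hh) := by
    intro p hp
    rw [PP_eq S (Nat.prime_of_mem_primeFactors hp)]
    · rfl
    · refine le_trans ?_ (h7 p hp)
      apply Real.rpow_le_rpow_of_exponent_le (by norm_num)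
      have h9 : (k0 : ℝ) ≤ k := by exact_mod_cast hk0
      linarith
  rw [Finset.prod_congr rfl h8, Real.finsetProd_rpow _ _ (fun i _ => Nat.cast_nonneg _)]
  unfold Sys.pr
  congr 1
  rw [← Nat.cast_prod, Nat.prod_primeFactors_of_squarefree h3]

/-- E2 -/
theorem ev_lower (hC : Cand1) : ∃ K0 : ℕ, ∀ k0 : ℕ, K0 ≤ k0 → ∀ k : ℕ, k0 ≤ k →
    pr (PP S k0) {R | ∃ j ∈ S.badc k, S.NN R k j < ((S.Cand k j).card : ℝ) / 2} ≤
      (2 : ℝ) ^ (-(S.c / 4 * k)) := by
  obtain ⟨K1, hK1⟩ := hC S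
  obtain ⟨K2, hK2⟩ := poly_exp (3 * (4 * (5 : ℝ) ^ 5 / S.c1)) 2 (S.c / 4) (S.c / 2)
    (by linarith [c_pos S])
  refine ⟨max (max K1 K2) (max S.K 2), fun k0 hk0 k hk => ?_⟩
  have hkK1 : K1 ≤ k := ((le_max_left _ _).trans ((le_max_left _ _).trans hk0)).trans hk
  have hkK2 : K2 ≤ k := ((le_max_right _ _).trans ((le_max_left _ _).trans hk0)).trans hk
  have hkK : S.K ≤ k := ((le_max_left _ _).trans ((le_max_right _ _).trans hk0)).trans hk
  have hk2 : 2 ≤ k := ((le_max_right _ _).trans ((le_max_right _ _).trans hk0)).trans hk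
  have hk' : (0 : ℝ) < k := by
    have : (2 : ℝ) ≤ k := by exact_mod_cast hk2
    linarith
  have hc1 := S.c1_pos
  have hone : ∀ j ∈ S.badc k, pr (PP S k0) {R | S.NN R k j < ((S.Cand k j).card : ℝ) / 2} ≤
      4 * (5 : ℝ) ^ 5 / S.c1 * (k : ℝ) ^ 2 * (2 : ℝ) ^ (-(S.c / 2 * k)) *
        (2 : ℝ) ^ (-(S.u (S.cls k j) * k)) := by
    intro j hj
    have hmany := S.many k hkK j (badc_mem S hj).1 (badc_mem S hj).2
    have hE : (0 : ℝ) < S.c1 * 2 ^ ec S.d k / (k : ℝ) ^ 2 := by positivity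
    have hcard : (0 : ℝ) < (S.Cand k j).card := lt_of_lt_of_le hE hmany
    set M : ℝ := (2 : ℝ) ^ (-(S.u (S.cls k j) + S.c / 2) * k) * 2 ^ ec S.d k with hM
    have h2 := pr_lower (PP S k0) (PP_mem S k0) (S.Cand k j) (fun x => 1 / S.pr x.2)
      (fun x => x.2.primeFactors) (fun x _ => one_div_nonneg.mpr (pr_nonneg' S x.2)) 5 (by norm_num)
      (fun x hx => cand_card S hkK hk2 hj hx) (S.Cand k j).card M hcard (by positivity)
      (by
        have h3 : ∀ x ∈ S.Cand k j, 1 / S.pr x.2 * ∏ p ∈ x.2.primeFactors, PP S k0 p = 1 := by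
          intro x hx
          rw [cand_prod S hkK hk hj hx]
          exact one_div_mul_cancel (pr_pos' S (cand_facts S hkK hj hx).2.2.2.1).ne'
        rw [Finset.sum_congr rfl h3]
        simp)
      (by
        intro A hA
        refine le_trans (Finset.sum_le_sum fun x hx => ?_) (hK1 k hkK1 j hj A hA).1
        rw [div_mul_eq_mul_div, one_mul]
        exact div_le_div_of_nonneg_right (prod_PP_le S k0 A _) (pr_nonneg' S _))
    have h3 : {R : Set ℕ | S.NN R k j < ((S.Cand k j).card : ℝ) / 2} ⊆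
        {R | YY (S.Cand k j) (fun x => 1 / S.pr x.2) (fun x => x.2.primeFactors) R ≤
          ((S.Cand k j).card : ℝ) / 2} := by
      intro R hR
      have hR' : S.NN R k j < ((S.Cand k j).card : ℝ) / 2 := hR
      rw [NN_eq S hkK hj] at hR'
      exact hR'.le
    refine (pr_mono _ h3).trans (h2.trans ?_)
    push_cast
    calc 4 * (5 : ℝ) ^ 5 * M / ((S.Cand k j).card : ℝ)
        ≤ 4 * (5 : ℝ) ^ 5 * M / (S.c1 * 2 ^ ec S.d k / (k : ℝ) ^ 2) := by
          apply div_le_div_of_nonneg_left _ hE hmany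
          positivity
      _ = 4 * (5 : ℝ) ^ 5 / S.c1 * (k : ℝ) ^ 2 *
          (2 : ℝ) ^ (-(S.u (S.cls k j) + S.c / 2) * k) := by
          rw [hM]; field_simp
      _ = _ := by
          rw [mul_assoc (4 * (5 : ℝ) ^ 5 / S.c1 * (k : ℝ) ^ 2), ← Real.rpow_add (by norm_num)]
          congr 2
          ring
  have hall : {R : Set ℕ | ∃ j ∈ S.badc k, S.NN R k j < ((S.Cand k j).card : ℝ) / 2} ⊆
      ⋃ j ∈ S.badc k, {R | S.NN R k j < ((S.Cand k j).card : ℝ) / 2} := by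
    intro R hR
    obtain ⟨j, hj, hR⟩ := hR
    exact Set.mem_iUnion₂.mpr ⟨j, hj, hR⟩
  refine ((pr_mono _ hall).trans ((pr_biUnion_le _ _ _).trans (Finset.sum_le_sum hone))).trans ?_
  rw [← Finset.mul_sum]
  calc 4 * (5 : ℝ) ^ 5 / S.c1 * (k : ℝ) ^ 2 * (2 : ℝ) ^ (-(S.c / 2 * k)) *
        ∑ j ∈ S.badc k, (2 : ℝ) ^ (-(S.u (S.cls k j) * k))
      ≤ 4 * (5 : ℝ) ^ 5 / S.c1 * (k : ℝ) ^ 2 * (2 : ℝ) ^ (-(S.c / 2 * k)) * 3 :=
        mul_le_mul_of_nonneg_left (badc_sum S hkK) (by positivity)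
    _ = 3 * (4 * (5 : ℝ) ^ 5 / S.c1) * (k : ℝ) ^ 2 * (2 : ℝ) ^ (-(S.c / 2 * k)) := by ring
    _ ≤ _ := hK2 k hkK2

/-! ### Windows -/

/-- the concentration in one window -/
theorem win_tail {k0 k j : ℕ} (hk : S.K ≤ k) (hk2 : 2 ≤ k) (hk0 : k0 ≤ k) (hj : j ∈ S.badc k)
    (r : ℕ × ℕ → Prop) [DecidablePred r] (B M : ℝ) (hB : 0 < B) (hM0 : 0 ≤ M)
    (hcard : (((S.Cand k j).filter r).card : ℝ) ≤ B)
    (hM : ∀ A : Finset ℕ, A.Nonempty →
      ∑ y ∈ (S.Cand k j).filter (fun y => A ⊆ y.2.primeFactors ∧ r y),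
        S.pc A y.2.primeFactors / S.pr y.2 ≤ M) (hMB : (50 * (k : ℝ)) ^ 5 * M ≤ B / 100) :
    pr (PP S k0) {R | 2 * B < ∑ y ∈ (S.act R k j).filter r, 1 / S.pr y.2} ≤
      (2 : ℝ) ^ (-(9 * k : ℝ)) := by
  set T := (S.Cand k j).filter r with hT
  have h0 : ∑ x ∈ T, (1 / S.pr x.2) * ∏ p ∈ x.2.primeFactors, PP S k0 p ≤ B := by
    have h3 : ∀ x ∈ T, 1 / S.pr x.2 * ∏ p ∈ x.2.primeFactors, PP S k0 p = 1 := by
      intro x hx
      have hx' := (Finset.mem_filter.mp hx).1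
      rw [cand_prod S hk hk0 hj hx']
      exact one_div_mul_cancel (pr_pos' S (cand_facts S hk hj hx').2.2.2.1).ne'
    rw [Finset.sum_congr rfl h3]
    simpa using hcard
  have h5 := upper_tail (bern (coin (PP S k0))) rs bern_meas (PP S k0)
    (fun i => (PP_mem S k0 i).1)
    (fun A => by rw [bern_exact]; simp only [coin_coe (PP_mem S k0)]; exact le_rfl) T
    (fun x => 1 / S.pr x.2) (fun x => x.2.primeFactors)
    (fun x _ => one_div_nonneg.mpr (pr_nonneg' S x.2)) 5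
    (fun x hx => cand_card S hk hk2 hj (Finset.mem_filter.mp hx).1) B M hM0 h0
    (fun A hA => by
      refine le_trans (le_trans (Finset.sum_le_sum (g := fun y =>
        S.pc A y.2.primeFactors / S.pr y.2) fun x _ => ?_) (le_of_eq ?_)) (hM A hA)
      · rw [div_mul_eq_mul_div, one_mul]
        exact div_le_div_of_nonneg_right (prod_PP_le S k0 A _) (pr_nonneg' S _)
      · rw [hT, Finset.filter_filter]
        refine Finset.sum_congr ?_ fun _ _ => rfl
        exact Finset.filter_congr fun y _ => and_comm) (10 * k) (2 * B) (by linarith)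
  have h6 : pr (PP S k0) {R | 2 * B < ∑ y ∈ (S.act R k j).filter r, 1 / S.pr y.2} ≤
      (bern (coin (PP S k0))).real {ω | 2 * B ≤ YY T (fun x => 1 / S.pr x.2)
        (fun x => x.2.primeFactors) (rs ω)} := by
    unfold pr
    refine measureReal_mono ?_ (measure_ne_top _ _)
    intro ω hω
    have hω' : 2 * B < ∑ y ∈ (S.act (rs ω) k j).filter r, 1 / S.pr y.2 := hω
    have h7 : ∑ y ∈ (S.act (rs ω) k j).filter r, 1 / S.pr y.2 = YY T (fun x => 1 / S.pr x.2)
        (fun x => x.2.primeFactors) (rs ω) := by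
      unfold YY Sys.act
      rw [hT, Finset.filter_comm, Finset.sum_filter]
      refine Finset.sum_congr rfl fun x hx => ?_
      have hx' := (Finset.mem_filter.mp hx).1
      rw [ind_inR (cand_facts S hk hj hx').2.2.2.1]
      split_ifs
      · rw [mul_one]
      · rw [mul_zero]
    rw [h7] at hω'
    exact hω'.le
  refine h6.trans (h5.trans ?_)
  rw [div_le_iff₀ (by positivity)]
  have h8 : ∏ i ∈ Finset.range (10 * k), (B + ((5 * i : ℕ) : ℝ) ^ 5 * M) ≤
      (B * (101 / 100)) ^ (10 * k) := by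
    calc ∏ i ∈ Finset.range (10 * k), (B + ((5 * i : ℕ) : ℝ) ^ 5 * M)
        ≤ ∏ _i ∈ Finset.range (10 * k), (B * (101 / 100)) := by
          refine Finset.prod_le_prod (fun i _ => by positivity) fun i hi => ?_
          have h9 : ((5 * i : ℕ) : ℝ) ≤ 50 * (k : ℝ) := by
            have h10 : 5 * i ≤ 50 * k := by
              have := Finset.mem_range.mp hi
              omega
            exact_mod_cast h10
          have h10 : ((5 * i : ℕ) : ℝ) ^ 5 * M ≤ (50 * (k : ℝ)) ^ 5 * M :=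
            mul_le_mul_of_nonneg_right (pow_le_pow_left₀ (Nat.cast_nonneg _) h9 5) hM0
          linarith
      _ = _ := by rw [Finset.prod_const, Finset.card_range]
  refine h8.trans ?_
  have h9 : (2 : ℝ) ^ (-(9 * k : ℝ)) = ((1 / 2 : ℝ) ^ 9) ^ k := by
    rw [Real.rpow_neg (by norm_num), ← pow_mul, one_div, inv_pow]
    congr 1
    rw [← Real.rpow_natCast]
    congr 1
    push_cast
    ring
  rw [h9, pow_mul, pow_mul, ← mul_pow]
  apply pow_le_pow_left₀ (by positivity)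
  have h10 : (B * (101 / 100)) ^ 10 = B ^ 10 * (101 / 100) ^ 10 := by ring
  have h11 : (1 / 2 : ℝ) ^ 9 * (2 * B) ^ 10 = B ^ 10 * 2 := by ring
  rw [h10, h11]
  apply mul_le_mul_of_nonneg_left _ (by positivity)
  norm_num

/-- E6, both kinds of windows; `κ` is the factor `1` or `k` of the mean -/
theorem ev_win (hC : Cand1) (α : ℝ) (hα : 0.38 ≤ α) (κ : ℕ → ℝ) (hκ : ∀ k, 1 ≤ k → 1 ≤ κ k)
    (hwin : ∀ k, S.K ≤ k → ∀ j < nc S.d k, S.bad k j → ∀ x h : ℕ, (2 : ℝ) ^ (α * (k : ℝ)) ≤ h →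
      (((S.Cand k j).filter (fun y => x ≤ y.1 * y.2 ∧ y.1 * y.2 < x + h)).card : ℝ) ≤
        S.C1 * κ k * (h / 2 ^ ec S.d k) * (S.Cand k j).card) :
    ∃ K0 : ℕ, ∀ k0 : ℕ, K0 ≤ k0 → ∀ k : ℕ, k0 ≤ k →
    pr (PP S k0) {R | ∃ j ∈ S.badc k, ∃ x h : ℕ, (2 : ℝ) ^ (α * (k : ℝ)) ≤ h ∧
      h ≤ 2 ^ ec S.d k ∧ 2 * (S.C1 * κ k * (h / 2 ^ ec S.d k) * (S.Cand k j).card) <
        ∑ y ∈ (S.act R k j).filter (fun y => x ≤ y.1 * y.2 ∧ y.1 * y.2 < x + h), 1 / S.pr y.2} ≤
      (2 : ℝ) ^ (-(4 * k : ℝ)) := by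
  obtain ⟨K1, hK1⟩ := hC S
  obtain ⟨K2, hK2⟩ := poly_exp (100 * 50 ^ 5 / S.c1) 7 0 0.01 (by norm_num)
  refine ⟨max (max K1 K2) (max S.K 2), fun k0 hk0 k hk => ?_⟩
  have hkK1 : K1 ≤ k := ((le_max_left _ _).trans ((le_max_left _ _).trans hk0)).trans hk
  have hkK2 : K2 ≤ k := ((le_max_right _ _).trans ((le_max_left _ _).trans hk0)).trans hk
  have hkK : S.K ≤ k := ((le_max_left _ _).trans ((le_max_right _ _).trans hk0)).trans hk
  have hk2 : 2 ≤ k := ((le_max_right _ _).trans ((le_max_right _ _).trans hk0)).trans hk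
  have hk2' : (2 : ℝ) ≤ k := by exact_mod_cast hk2
  have hk' : (0 : ℝ) < k := by linarith
  have hc1 := S.c1_pos
  have hC1 := S.C1_ge
  have hκk := hκ k (by omega)
  -- the events
  set ev : ℕ × ℕ × ℕ → Set (Set ℕ) := fun z =>
    {R | 2 * (S.C1 * κ k * ((z.2.2 : ℝ) / 2 ^ ec S.d k) * (S.Cand k z.1).card) <
      ∑ y ∈ (S.act R k z.1).filter (fun y => z.2.1 ≤ y.1 * y.2 ∧ y.1 * y.2 < z.2.1 + z.2.2),
        1 / S.pr y.2} with hev
  set I : Finset (ℕ × ℕ × ℕ) := ((S.badc k) ×ˢ ((Finset.range (2 ^ (k + 1))) ×ˢ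
    (Finset.range (2 ^ ec S.d k + 1)))).filter (fun z => (2 : ℝ) ^ (α * (k : ℝ)) ≤ z.2.2) with hI
  have hone : ∀ z ∈ I, pr (PP S k0) (ev z) ≤ (2 : ℝ) ^ (-(9 * k : ℝ)) := by
    rintro ⟨j, x, h⟩ hz
    rw [hI, Finset.mem_filter, Finset.mem_product, Finset.mem_product] at hz
    obtain ⟨⟨hj, hx, hh⟩, hαh⟩ := hz
    simp only at hj hx hh hαh
    have hmany := S.many k hkK j (badc_mem S hj).1 (badc_mem S hj).2
    have hE : (0 : ℝ) < S.c1 * 2 ^ ec S.d k / (k : ℝ) ^ 2 := by positivity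
    have hcard : (0 : ℝ) < (S.Cand k j).card := lt_of_lt_of_le hE hmany
    have hh0 : (0 : ℝ) < h := lt_of_lt_of_le (by positivity) hαh
    have hB : 0 < S.C1 * κ k * ((h : ℝ) / 2 ^ ec S.d k) * (S.Cand k j).card := by positivity
    refine win_tail S hkK hk2 hk hj (fun y => x ≤ y.1 * y.2 ∧ y.1 * y.2 < x + h) _
      ((2 : ℝ) ^ (-(0.01 : ℝ) * k) * h) hB (by positivity)
      (hwin k hkK j (badc_mem S hj).1 (badc_mem S hj).2 x h hαh) ?_ ?_
    · intro A hA
      refine (hK1 k hkK1 j hj A hA).2 x h (le_trans ?_ hαh)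
      apply Real.rpow_le_rpow_of_exponent_le (by norm_num)
      nlinarith
    · have h1 := hK2 k hkK2
      rw [zero_mul, neg_zero, Real.rpow_zero] at h1
      have h2 : S.c1 * h / (k : ℝ) ^ 2 ≤
          S.C1 * κ k * ((h : ℝ) / 2 ^ ec S.d k) * (S.Cand k j).card := by
        calc S.c1 * h / (k : ℝ) ^ 2 = 1 * 1 * ((h : ℝ) / 2 ^ ec S.d k) *
              (S.c1 * 2 ^ ec S.d k / (k : ℝ) ^ 2) := by field_simp
          _ ≤ S.C1 * κ k * ((h : ℝ) / 2 ^ ec S.d k) * (S.Cand k j).card := by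
              apply mul_le_mul _ hmany hE.le (by positivity)
              apply mul_le_mul_of_nonneg_right _ (by positivity)
              exact mul_le_mul hC1 hκk (by norm_num) (by linarith)
      have h3 : (50 * (k : ℝ)) ^ 5 * ((2 : ℝ) ^ (-(0.01 : ℝ) * k) * h) =
          (100 * 50 ^ 5 / S.c1 * (k : ℝ) ^ 7 * (2 : ℝ) ^ (-(0.01 * (k : ℝ)))) *
            (S.c1 * h / (k : ℝ) ^ 2) / 100 := by
        rw [neg_mul]
        field_simp
      rw [h3]
      apply div_le_div_of_nonneg_right _ (by norm_num)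
      calc (100 * 50 ^ 5 / S.c1 * (k : ℝ) ^ 7 * (2 : ℝ) ^ (-(0.01 * (k : ℝ)))) *
            (S.c1 * h / (k : ℝ) ^ 2) ≤ 1 * (S.c1 * h / (k : ℝ) ^ 2) :=
            mul_le_mul_of_nonneg_right h1 (by positivity)
        _ = S.c1 * h / (k : ℝ) ^ 2 := one_mul _
        _ ≤ _ := h2
  have hall : {R : Set ℕ | ∃ j ∈ S.badc k, ∃ x h : ℕ, (2 : ℝ) ^ (α * (k : ℝ)) ≤ h ∧
      h ≤ 2 ^ ec S.d k ∧ 2 * (S.C1 * κ k * (h / 2 ^ ec S.d k) * (S.Cand k j).card) <
        ∑ y ∈ (S.act R k j).filter (fun y => x ≤ y.1 * y.2 ∧ y.1 * y.2 < x + h), 1 / S.pr y.2} ⊆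
      ⋃ z ∈ I, ev z := by
    intro R hR
    obtain ⟨j, hj, x, h, hα2, hh, hR⟩ := hR
    have hB0 : 0 ≤ 2 * (S.C1 * κ k * ((h : ℝ) / 2 ^ ec S.d k) * (S.Cand k j).card) := by
      have : 0 ≤ κ k := by linarith
      positivity
    have hx : x < 2 ^ (k + 1) := by
      by_contra hcon
      push Not at hcon
      have h1 : (S.act R k j).filter (fun y => x ≤ y.1 * y.2 ∧ y.1 * y.2 < x + h) = ∅ := by
        rw [Finset.filter_eq_empty_iff]
        intro y hy hcon2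
        unfold Sys.act at hy
        have h2 := (cand_facts S hkK hj (Finset.mem_filter.mp hy).1).2.2.2.2.1
        omega
      rw [h1, Finset.sum_empty] at hR
      linarith
    refine Set.mem_iUnion₂.mpr ⟨(j, x, h), ?_, hR⟩
    rw [hI, Finset.mem_filter, Finset.mem_product, Finset.mem_product, Finset.mem_range,
      Finset.mem_range]
    exact ⟨⟨hj, hx, Nat.lt_succ_of_le hh⟩, hα2⟩
  refine ((pr_mono _ hall).trans (pr_biUnion_le_card _ _ _ _ hone)).trans ?_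
  have hcardI : (I.card : ℝ) ≤ (2 : ℝ) ^ (5 * k : ℝ) := by
    have h1 : I.card ≤ 2 ^ k * (2 ^ (k + 1) * 2 ^ (k + 1)) := by
      refine (Finset.card_filter_le _ _).trans ?_
      rw [Finset.card_product, Finset.card_product, Finset.card_range, Finset.card_range]
      have h2 : (S.badc k).card ≤ 2 ^ k := by
        unfold Sys.badc
        refine (Finset.card_filter_le _ _).trans ?_
        rw [Finset.card_range]
        exact nc_le S k
      have h3 : 2 ^ ec S.d k + 1 ≤ 2 ^ (k + 1) := by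
        have h4 : 2 ^ ec S.d k ≤ 2 ^ k := Nat.pow_le_pow_right (by norm_num) (ec_le S k)
        have h5 : 1 ≤ 2 ^ k := Nat.one_le_two_pow
        rw [pow_succ]; omega
      exact Nat.mul_le_mul h2 (Nat.mul_le_mul_left _ h3)
    have h2 : 2 ^ k * (2 ^ (k + 1) * 2 ^ (k + 1)) = 2 ^ (3 * k + 2) := by
      rw [← pow_add, ← pow_add]; congr 1; ring
    rw [h2] at h1
    have h3 : (I.card : ℝ) ≤ (2 : ℝ) ^ (3 * k + 2) := by exact_mod_cast h1
    refine h3.trans ?_
    rw [← Real.rpow_natCast]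
    apply Real.rpow_le_rpow_of_exponent_le (by norm_num)
    push_cast
    linarith
  calc (I.card : ℝ) * (2 : ℝ) ^ (-(9 * k : ℝ)) ≤ (2 : ℝ) ^ (5 * k : ℝ) * (2 : ℝ) ^ (-(9 * k : ℝ)) :=
        mul_le_mul_of_nonneg_right hcardI (by positivity)
    _ = (2 : ℝ) ^ (-(4 * k : ℝ)) := by
        rw [← Real.rpow_add (by norm_num)]
        congr 1
        ring

/-! ### The statements of StP -/

theorem PP_eq_PP (k0 : ℕ) : S.PP k0 = PP S k0 := rfl

theorem evLow (hC : Cand1) : EvLow := by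
  intro S
  obtain ⟨K0, hK0⟩ := ev_lower S hC
  exact ⟨S.c / 4, by linarith [c_pos S], K0, fun k0 hk0 k hk => hK0 k0 hk0 k hk⟩

theorem evWin1 (hC : Cand1) : EvWin1 := by
  intro S
  obtain ⟨K0, hK0⟩ := ev_win S hC 0.498 (by norm_num) (fun _ => 1) (fun _ _ => le_rfl)
    (fun k hk j hj hb x h hh => by
      have := S.win1 k hk j hj hb x h hh
      rw [mul_one]
      convert this)
  refine ⟨4, by norm_num, K0, fun k0 hk0 k hk => ?_⟩
  have h1 := hK0 k0 hk0 k hk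
  simp only [mul_one] at h1
  rw [PP_eq_PP]
  convert h1

theorem evWin2 (hC : Cand1) : EvWin2 := by
  intro S
  obtain ⟨K0, hK0⟩ := ev_win S hC 0.38 (by norm_num) (fun k => (k : ℝ))
    (fun k hk => by exact_mod_cast hk)
    (fun k hk j hj hb x h hh => by
      have := S.win2 k hk j hj hb x h hh
      convert this)
  refine ⟨4, by norm_num, K0, fun k0 hk0 k hk => ?_⟩
  have h1 := hK0 k0 hk0 k hk
  rw [PP_eq_PP]
  convert h1

end Pool.Agent.Helper62.KS
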