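import Mathlib
import Pool.Agent.Helper62.KS.EG4

/-!
# ExistsGood, part 5: multiplicities (project KS, MP_768c9c_nt)
-/

set_option autoImplicit false

open MeasureTheory
open scoped Classical
open Pool.Agent.Helper33.KS Pool.Agent.Helper16.KS

namespace Pool.Agent.Helper62.KS

variable (S : Sys)

/-- the owners of `q`: level, cell, candidate -/
noncomputable def TT (k0 q : ℕ) : Finset ((_ : ℕ) × (_ : ℕ) × (ℕ × ℕ)) :=
  (Finset.Ico k0 (top q)).sigma fun k => (S.badc k).sigma fun j =>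
    (S.Cand k j).filter (fun x => x.1 = q)

theorem mem_TT {k0 q : ℕ} {t : (_ : ℕ) × (_ : ℕ) × (ℕ × ℕ)} (ht : t ∈ TT S k0 q) :
    k0 ≤ t.1 ∧ t.2.1 ∈ S.badc t.1 ∧ t.2.2 ∈ S.Cand t.1 t.2.1 ∧ t.2.2.1 = q := by
  unfold TT at ht
  rw [Finset.mem_sigma, Finset.mem_sigma, Finset.mem_Ico, Finset.mem_filter] at ht
  exact ⟨ht.1.1, ht.2.1, ht.2.2.1, ht.2.2.2⟩

theorem own_eq {k0 : ℕ} (hk0 : S.K ≤ k0) (q : ℕ) (R : Set ℕ) :
    (S.own k0 R q : ℝ) = ∑ t ∈ TT S k0 q, ind R t.2.2.2.primeFactors := by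
  unfold Sys.own TT
  rw [Finset.sum_sigma]
  push_cast
  refine Finset.sum_congr rfl fun k hk => ?_
  rw [Finset.sum_sigma]
  refine Finset.sum_congr rfl fun j hj => ?_
  have hkK : S.K ≤ k := hk0.trans (Finset.mem_Ico.mp hk).1
  have h1 : (S.act R k j).filter (fun x => x.1 = q) =
      ((S.Cand k j).filter (fun x => x.1 = q)).filter (fun x => inR R x.2) := by
    unfold Sys.act
    exact Finset.filter_comm _ _ _
  rw [h1, Finset.card_filter]
  push_cast
  refine Finset.sum_congr rfl fun x hx => ?_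
  show (if inR R x.2 then (1 : ℝ) else 0) = ind R x.2.primeFactors
  rw [ind_inR (cand_facts S hkK hj (Finset.mem_filter.mp hx).1).2.2.2.1]

/-- an integer belongs to one cell only -/
theorem cell_unique {k j k' j' n : ℕ} (hj : j < nc S.d k) (hj' : j' < nc S.d k')
    (h : n ∈ cell S.d k j) (h' : n ∈ cell S.d k' j') : k = k' ∧ j = j' := by
  have h1 := cell_mem S hj h
  have h2 := cell_mem S hj' h'
  have hn : n ≠ 0 := by
    have : 0 < 2 ^ k := by positivity
    omega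
  have h3 : Nat.log 2 n = k := Nat.log_eq_of_pow_le_of_lt_pow h1.1 h1.2
  have h4 : Nat.log 2 n = k' := Nat.log_eq_of_pow_le_of_lt_pow h2.1 h2.2
  have hkk : k = k' := h3.symm.trans h4
  subst hkk
  refine ⟨rfl, ?_⟩
  unfold cell at h h'
  rw [Finset.mem_Ico] at h h'
  have hE : 0 < 2 ^ ec S.d k := by positivity
  rcases Nat.lt_trichotomy j j' with hlt | heq | hgt
  · exfalso
    have h5 : (j + 1) * 2 ^ ec S.d k ≤ j' * 2 ^ ec S.d k := Nat.mul_le_mul_right _ hlt
    omega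
  · exact heq
  · exfalso
    have h5 : (j' + 1) * 2 ^ ec S.d k ≤ j * 2 ^ ec S.d k := Nat.mul_le_mul_right _ hgt
    omega

theorem TT_inj {k0 : ℕ} (hk0 : S.K ≤ k0) (q : ℕ) :
    Set.InjOn (fun t : (_ : ℕ) × (_ : ℕ) × (ℕ × ℕ) => t.2.2.2.primeFactors)
      (TT S k0 q : Set ((_ : ℕ) × (_ : ℕ) × (ℕ × ℕ))) := by
  rintro ⟨k, j, x⟩ ht ⟨k', j', x'⟩ ht' heq
  have h1 := mem_TT S (Finset.mem_coe.mp ht)
  have h2 := mem_TT S (Finset.mem_coe.mp ht')
  simp only at h1 h2 heq
  have c1 := cand_facts S (hk0.trans h1.1) h1.2.1 h1.2.2.1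
  have c2 := cand_facts S (hk0.trans h2.1) h2.2.1 h2.2.2.1
  have h3 : x.2 = x'.2 := by
    rw [← Nat.prod_primeFactors_of_squarefree c1.2.2.1,
      ← Nat.prod_primeFactors_of_squarefree c2.2.2.1, heq]
  have h4 : x = x' := Prod.ext (h1.2.2.2.trans h2.2.2.2.symm) h3
  subst h4
  have b1 := badc_mem S h1.2.1
  have b2 := badc_mem S h2.2.1
  have m1 := (S.cand k (hk0.trans h1.1) j b1.1 b1.2 x h1.2.2.1).2.2.2.2.1
  have m2 := (S.cand k' (hk0.trans h2.1) j' b2.1 b2.2 x h2.2.2.1).2.2.2.2.1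
  obtain ⟨rfl, rfl⟩ := cell_unique S b1.1 b2.1 m1 m2
  rfl

theorem evMult (hM : Mult1) : EvMult := by
  intro S
  obtain ⟨K1, hK1⟩ := hM S
  have hc := c_pos S
  have ht := tau_pos S
  obtain ⟨K2, hK2⟩ := poly_exp 6 1 (S.c / 4) (S.c / 2) (by linarith)
  obtain ⟨i, hi⟩ := exists_nat_ge (2 / (S.c / 8))
  obtain ⟨K3, hK3⟩ := exists_nat_ge (5 * i / (S.c / 8) + 5 * i / S.tau)
  refine ⟨1, by norm_num, max (max K1 S.K) (max 8 (4 * (max K2 K3))), fun k0 hk0 l hl => ?_⟩
  have hk0K1 : K1 ≤ k0 := ((le_max_left _ _).trans (le_max_left _ _)).trans hk0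
  have hk0K : S.K ≤ k0 := ((le_max_right _ _).trans (le_max_left _ _)).trans hk0
  have hk08 : 8 ≤ k0 := ((le_max_left _ _).trans (le_max_right _ _)).trans hk0
  have hk0m : 4 * max K2 K3 ≤ k0 := ((le_max_right _ _).trans (le_max_right _ _)).trans hk0
  have hl4 : k0 ≤ 4 * l := by
    have : (k0 : ℝ) ≤ 4 * l := by linarith
    exact_mod_cast this
  have hlK2 : K2 ≤ l := by have := le_max_left K2 K3; omega
  have hlK3 : K3 ≤ l := by have := le_max_right K2 K3; omega
  have hl2 : 2 ≤ l := by omega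
  have hlK3' : (K3 : ℝ) ≤ l := by exact_mod_cast hlK3
  have hi0 : (0 : ℝ) ≤ i := Nat.cast_nonneg _
  have e1 : 5 * (i : ℝ) ≤ S.c / 8 * l := by
    have h1 : 5 * (i : ℝ) / (S.c / 8) ≤ l := by
      have : 0 ≤ 5 * (i : ℝ) / S.tau := by positivity
      linarith
    rw [div_le_iff₀ (by linarith)] at h1
    linarith [mul_comm (S.c / 8) (l : ℝ)]
  have e2 : 5 * (i : ℝ) ≤ S.tau * l := by
    have h1 : 5 * (i : ℝ) / S.tau ≤ l := by
      have : 0 ≤ 5 * (i : ℝ) / (S.c / 8) := by positivity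
      linarith
    rw [div_le_iff₀ ht] at h1
    linarith [mul_comm S.tau (l : ℝ)]
  rw [PP_eq_PP]
  -- one prime
  have hone : ∀ q ∈ (Finset.Ico (2 ^ l) (2 ^ (l + 1)) : Finset ℕ),
      pr (PP S k0) {R | (q : ℝ) ^ S.tau < (S.own k0 R q : ℝ)} ≤ (2 : ℝ) ^ (-(2 * l : ℝ)) := by
    intro q hq
    rw [Finset.mem_Ico] at hq
    have hlog : Nat.log 2 q = l := Nat.log_eq_of_pow_le_of_lt_pow hq.1 hq.2
    have hql : (2 : ℝ) ^ (l : ℝ) ≤ q := by
      rw [Real.rpow_natCast]; exact_mod_cast hq.1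
    have hset : {R : Set ℕ | (q : ℝ) ^ S.tau < (S.own k0 R q : ℝ)} ⊆
        {R | (2 : ℝ) ^ (i * 5) < ∑ t ∈ TT S k0 q, ind R t.2.2.2.primeFactors} := by
      intro R hR
      have hR' : (q : ℝ) ^ S.tau < (S.own k0 R q : ℝ) := hR
      rw [own_eq S hk0K] at hR'
      refine lt_of_le_of_lt ?_ hR'
      calc (2 : ℝ) ^ (i * 5) = (2 : ℝ) ^ (5 * (i : ℝ)) := by
            rw [← Real.rpow_natCast]; congr 1; push_cast; ring
        _ ≤ (2 : ℝ) ^ (l * S.tau) := by
            apply Real.rpow_le_rpow_of_exponent_le (by norm_num)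
            linarith [mul_comm S.tau (l : ℝ)]
        _ = ((2 : ℝ) ^ (l : ℝ)) ^ S.tau := by rw [Real.rpow_mul (by norm_num)]
        _ ≤ (q : ℝ) ^ S.tau := Real.rpow_le_rpow (by positivity) hql ht.le
    refine (pr_mono _ hset).trans ?_
    have hmain := pr_mult (PP S k0) (PP_mem S k0) (TT S k0 q)
      (fun t => t.2.2.2.primeFactors) (TT_inj S hk0K q) 5
      (fun t htt => by
        have h1 := mem_TT S htt
        exact cand_card S (hk0K.trans h1.1) ((by omega : 2 ≤ k0).trans h1.1) h1.2.1 h1.2.2.1)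
      ((2 : ℝ) ^ (-(S.c / 4 * l))) ?_ i
    · refine hmain.trans ?_
      have h2 : (2 : ℝ) ^ (i * 5) * (2 : ℝ) ^ (-(S.c / 4 * l)) ≤ (2 : ℝ) ^ (-(S.c / 8 * l)) := by
        rw [← Real.rpow_natCast, ← Real.rpow_add (by norm_num)]
        apply Real.rpow_le_rpow_of_exponent_le (by norm_num)
        push_cast
        linarith
      refine (pow_le_pow_left₀ (by positivity) h2 (i + 1)).trans ?_
      rw [← Real.rpow_natCast, ← Real.rpow_mul (by norm_num)]
      apply Real.rpow_le_rpow_of_exponent_le (by norm_num)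
      have h3 : 2 ≤ S.c / 8 * i := by
        rw [div_le_iff₀ (by linarith)] at hi
        linarith [mul_comm (S.c / 8) (i : ℝ)]
      have h4 : (0 : ℝ) ≤ l := Nat.cast_nonneg _
      have h5 : 2 * (l : ℝ) ≤ S.c / 8 * i * l := mul_le_mul_of_nonneg_right h3 h4
      have h6 : 0 ≤ S.c / 8 * l := by positivity
      push_cast
      nlinarith
    · intro A
      unfold TT
      rw [Finset.sum_filter, Finset.sum_sigma]
      have hlev : ∀ k ∈ Finset.Ico k0 (top q),
          ∑ s ∈ (S.badc k).sigma fun j => (S.Cand k j).filter (fun x => x.1 = q),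
            (if A ⊂ s.2.2.primeFactors then ∏ p ∈ s.2.2.primeFactors \ A, PP S k0 p else 0) ≤
          (2 : ℝ) ^ (-(S.c / 2 * l)) := by
        intro k hk
        have hkk0 := (Finset.mem_Ico.mp hk).1
        rcases Nat.lt_or_ge k l with hkl | hkl
        · -- no candidates
          refine le_trans (le_of_eq ?_) (by positivity : (0 : ℝ) ≤ (2 : ℝ) ^ (-(S.c / 2 * l)))
          refine Finset.sum_eq_zero fun s hs => ?_
          exfalso
          rw [Finset.mem_sigma, Finset.mem_filter] at hs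
          obtain ⟨c1, c2, c3, c4, c5, c6, c7⟩ := cand_facts S (hk0K.trans hkk0) hs.1 hs.2.1
          have h1 : s.2.1 ≤ s.2.1 * s.2.2 := Nat.le_mul_of_pos_right _ (Nat.pos_of_ne_zero c4)
          have h2 : 2 ^ (k + 1) ≤ 2 ^ l := Nat.pow_le_pow_right (by norm_num) hkl
          have h3 := hs.2.2
          omega
        · rw [Finset.sum_sigma]
          have h1 := hK1 k (hk0K1.trans hkk0) q A
          refine le_trans (Finset.sum_le_sum fun j hj => ?_) (h1.trans ?_)
          · rw [← Finset.filter_filter, Finset.sum_filter (s := (S.Cand k j).filter _)]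
            refine Finset.sum_le_sum fun x _ => ?_
            split_ifs
            · exact prod_PP_le S k0 A _
            · exact le_rfl
          · apply Real.rpow_le_rpow_of_exponent_le (by norm_num)
            have h2 : (l : ℝ) ≤ k := by exact_mod_cast hkl
            nlinarith
      refine (Finset.sum_le_sum hlev).trans ?_
      rw [Finset.sum_const, nsmul_eq_mul, Nat.card_Ico]
      have htop : ((top q - k0 : ℕ) : ℝ) ≤ 6 * (l : ℝ) ^ 1 := by
        unfold top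
        rw [hlog, pow_one]
        have h1 : 3 * (l + 1) - k0 ≤ 6 * l := by omega
        exact_mod_cast h1
      exact (mul_le_mul_of_nonneg_right htop (by positivity)).trans (hK2 l hlK2)
  have hall : {R : Set ℕ | ∃ q : ℕ, Nat.log 2 q = l ∧ (q : ℝ) ^ S.tau < (S.own k0 R q : ℝ)} ⊆
      ⋃ q ∈ (Finset.Ico (2 ^ l) (2 ^ (l + 1)) : Finset ℕ), {R | (q : ℝ) ^ S.tau < (S.own k0 R q : ℝ)} := by
    intro R hR
    obtain ⟨q, hq, hR⟩ := hR
    refine Set.mem_iUnion₂.mpr ⟨q, ?_, hR⟩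
    have hq0 : q ≠ 0 := by
      rintro rfl
      rw [Nat.log_zero_right] at hq
      omega
    rw [Finset.mem_Ico, ← hq]
    exact ⟨Nat.pow_log_le_self 2 hq0, Nat.lt_pow_succ_log_self (by norm_num) q⟩
  refine ((pr_mono _ hall).trans (pr_biUnion_le_card _ _ _ _ hone)).trans ?_
  have hcard : (((Finset.Ico (2 ^ l) (2 ^ (l + 1)) : Finset ℕ)).card : ℝ) = (2 : ℝ) ^ (l : ℝ) := by
    rw [Nat.card_Ico, pow_succ, Real.rpow_natCast]
    have : 2 ^ l * 2 - 2 ^ l = 2 ^ l := by omega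
    rw [this]
    push_cast
    rfl
  rw [hcard, ← Real.rpow_add (by norm_num)]
  apply Real.rpow_le_rpow_of_exponent_le (by norm_num)
  linarith

end Pool.Agent.Helper62.KS
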