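import Mathlib
import Pool.Agent.Helper62.KS.EG5

/-!
# ExistsGood: a good set `R` exists (project KS, MP_768c9c_nt)
-/

set_option autoImplicit false

open MeasureTheory
open scoped Classical
open Pool.Agent.Helper33.KS Pool.Agent.Helper16.KS

namespace Pool.Agent.Helper62.KS

theorem ev_cond {ι : Type*} (P : ι → ℝ) (p : Prop) (A : Set (Set ι)) (b : ℝ) (hb : 0 ≤ b)
    (h : p → pr P A ≤ b) : pr P {R | p ∧ R ∈ A} ≤ b := by
  by_cases hp : p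
  · refine (pr_mono P ?_).trans (h hp)
    intro R hR
    exact hR.2
  · have : {R : Set ι | p ∧ R ∈ A} = ∅ := by
      ext R; simp [hp]
    rw [this]
    unfold pr
    simpa using hb

/-- union of ten events -/
def U10 {ι : Type*} (A : Fin 10 → Set (Set ι)) : Set (Set ι) := ⋃ i ∈ (Finset.univ : Finset (Fin 10)), A i

theorem pr_U10 {ι : Type*} (P : ι → ℝ) (A : Fin 10 → Set (Set ι)) (b : ℝ)
    (h : ∀ i, pr P (A i) ≤ b) : pr P (U10 A) ≤ 10 * b := by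
  have h1 := pr_biUnion_le_card P (Finset.univ : Finset (Fin 10)) A b (fun i _ => h i)
  simpa [U10] using h1

variable (S : Sys)

/-- the failures at the level `l` -/
noncomputable def ev (k0 l : ℕ) : Fin 10 → Set (Set ℕ) :=
  ![{R | k0 ≤ l ∧ R ∈ {R : Set ℕ | ∃ j ∈ S.badc l, S.NN R l j < ((S.Cand l j).card : ℝ) / 2}},
    {R | k0 ≤ l ∧ R ∈ {R : Set ℕ | ∃ j ∈ S.badc l, ∃ x h : ℕ, (2 : ℝ) ^ (0.498 * (l : ℝ)) ≤ h ∧
      h ≤ 2 ^ ec S.d l ∧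
      2 * (S.C1 * (h / 2 ^ ec S.d l) * (S.Cand l j).card) <
        ∑ y ∈ (S.act R l j).filter (fun y => x ≤ y.1 * y.2 ∧ y.1 * y.2 < x + h), 1 / S.pr y.2}},
    {R | k0 ≤ l ∧ R ∈ {R : Set ℕ | ∃ j ∈ S.badc l, ∃ x h : ℕ, (2 : ℝ) ^ (0.38 * (l : ℝ)) ≤ h ∧
      h ≤ 2 ^ ec S.d l ∧
      2 * (S.C1 * l * (h / 2 ^ ec S.d l) * (S.Cand l j).card) <
        ∑ y ∈ (S.act R l j).filter (fun y => x ≤ y.1 * y.2 ∧ y.1 * y.2 < x + h), 1 / S.pr y.2}},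
    {R | (k0 : ℝ) / 4 ≤ l ∧ R ∈ {R : Set ℕ | ∃ q : ℕ, Nat.log 2 q = l ∧
      (q : ℝ) ^ S.tau < (S.own k0 R q : ℝ)}},
    {R | k0 ≤ l ∧ R ∈ {R : Set ℕ | ∃ T : Finset ℕ, (∀ r ∈ T, r ∈ R ∧ (2 : ℝ) ^ ((l : ℝ) / 5) ≤ r ∧
      (r : ℝ) < (2 : ℝ) ^ (((l : ℝ) + 1) / 5)) ∧
      (2 : ℝ) ^ (-(S.tau / 8) * (l : ℝ)) <
        ∑ r ∈ T, S.base r * (r : ℝ) ^ (-S.s) * (1 + Real.log r) ^ 2}},
    {R | k0 ≤ l ∧ R ∈ {R : Set ℕ | (2 : ℝ) ^ (-(S.c / 4) * (l : ℝ)) <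
      ∑ j ∈ S.badc l, ∑ x ∈ S.act R l j, S.wd l x.2 * (x.1 : ℝ) ^ (-S.s)}},
    {R | (k0 : ℝ) / 2 ≤ l ∧ R ∈ {R : Set ℕ | ∃ x h : ℕ, 2 ^ l ≤ x ∧ x < 2 ^ (l + 1) ∧
      (2 : ℝ) ^ ((1/2 - 3 * S.d) * l) ≤ h ∧ h ≤ x ∧
      h * (2 : ℝ) ^ ((S.s - 1 + 7 * S.tau) * l) < ∑ n ∈ Finset.Ico x (x + h), CM (S.Fh k0 R) n}},
    {R | (k0 : ℝ) / 2 ≤ l ∧ R ∈ {R : Set ℕ | ∃ x h : ℕ, 2 ^ l ≤ x ∧ x < 2 ^ (l + 1) ∧
      (2 : ℝ) ^ ((1/2 - 3 * S.d) * l) ≤ h ∧ h ≤ x ∧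
      h * (2 : ℝ) ^ ((S.s - 1 - S.tau / 20) * l) <
        ∑ n ∈ (Finset.Ico x (x + h)).filter (Sys.rough k0),
          ∑ e ∈ n.divisors.filter (fun e : ℕ => (2 : ℝ) ^ ((l : ℝ) / 8) ≤ (e : ℝ) ∧ inR R e),
            S.base e * ((n / e : ℕ) : ℝ) ^ (S.s - 1)}},
    {R | k0 ≤ l ∧ R ∈ {R : Set ℕ | ∃ j < nc S.d l,
      (2 : ℝ) ^ (-(S.ep / 100) * l) * S.G l < S.HP k0 R l j Sys.Q1}},
    {R | k0 ≤ l ∧ R ∈ {R : Set ℕ | ∃ j < nc S.d l,
      (2 : ℝ) ^ (-(S.ep / 100) * l) * S.G l < S.HP k0 R l j S.Q2}}]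

theorem not_ev {k0 l : ℕ} {R : Set ℕ} (h : R ∉ U10 (ev S k0 l)) (i : Fin 10) :
    R ∉ ev S k0 l i := by
  intro hi
  exact h (Set.mem_iUnion₂.mpr ⟨i, Finset.mem_univ i, hi⟩)

/-- the levels of the elements of `R` -/
theorem massR_sum (τ : ℝ) (hτ : 0 < τ) : ∃ K0 : ℕ, ∀ k0 : ℕ, K0 ≤ k0 → ∀ (g : ℕ → ℝ) (T : Finset ℕ),
    (∀ r ∈ T, 0 ≤ g r) → (∀ r ∈ T, (2 : ℝ) ^ ((k0 : ℝ) / 5) ≤ r) →
    (∀ l : ℕ, k0 ≤ l → ∀ T' : Finset ℕ, T' ⊆ T → (∀ r ∈ T', (2 : ℝ) ^ ((l : ℝ) / 5) ≤ r ∧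
      (r : ℝ) < (2 : ℝ) ^ (((l : ℝ) + 1) / 5)) → ∑ r ∈ T', g r ≤ (2 : ℝ) ^ (-(τ / 8) * (l : ℝ))) →
    ∑ r ∈ T, g r ≤ (2 : ℝ) ^ (-(τ / 10) * (k0 : ℝ)) := by
  set q : ℝ := (2 : ℝ) ^ (-(τ / 8)) with hq
  have hq0 : 0 < q := Real.rpow_pos_of_pos (by norm_num) _
  have hq1 : q < 1 := Real.rpow_lt_one_of_one_lt_of_neg (by norm_num) (by linarith)
  obtain ⟨K, hK⟩ := poly_exp (1 - q)⁻¹ 0 (τ / 10) (τ / 8) (by linarith)
  refine ⟨K, fun k0 hk0 g T hg hT hlev => ?_⟩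
  -- the level of `r`
  set lv : ℕ → ℕ := fun r => ⌊5 * Real.logb 2 r⌋₊ with hlv
  have hlvT : ∀ r ∈ T, k0 ≤ lv r ∧ (2 : ℝ) ^ ((lv r : ℝ) / 5) ≤ r ∧
      (r : ℝ) < (2 : ℝ) ^ (((lv r : ℝ) + 1) / 5) := by
    intro r hr
    have h1 := hT r hr
    have hr0 : (0 : ℝ) < r := lt_of_lt_of_le (by positivity) h1
    have h2 : (k0 : ℝ) / 5 ≤ Real.logb 2 r := by
      rw [Real.le_logb_iff_rpow_le (by norm_num) hr0]; exact h1
    have h3 : 0 ≤ 5 * Real.logb 2 r := by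
      have : (0 : ℝ) ≤ (k0 : ℝ) / 5 := by positivity
      linarith
    refine ⟨Nat.le_floor (by linarith), ?_, ?_⟩
    · rw [← Real.le_logb_iff_rpow_le (by norm_num) hr0]
      have := Nat.floor_le h3
      show ((⌊5 * Real.logb 2 r⌋₊ : ℕ) : ℝ) / 5 ≤ _
      linarith
    · rw [← Real.logb_lt_iff_lt_rpow (by norm_num) hr0]
      have := Nat.lt_floor_add_one (5 * Real.logb 2 r)
      show _ < (((⌊5 * Real.logb 2 r⌋₊ : ℕ) : ℝ) + 1) / 5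
      linarith
  have h1 : ∑ r ∈ T, g r = ∑ l ∈ T.image lv, ∑ r ∈ T.filter (fun r => lv r = l), g r :=
    (Finset.sum_fiberwise_of_maps_to (fun r hr => Finset.mem_image_of_mem lv hr) g).symm
  rw [h1]
  have h2 : ∀ l ∈ T.image lv, ∑ r ∈ T.filter (fun r => lv r = l), g r ≤ q ^ l := by
    intro l hl
    rw [Finset.mem_image] at hl
    obtain ⟨r0, hr0, rfl⟩ := hl
    have h3 := hlev (lv r0) (hlvT r0 hr0).1 (T.filter (fun r => lv r = lv r0))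
      (Finset.filter_subset _ _) (fun r hr => by
        rw [Finset.mem_filter] at hr
        rw [← hr.2]
        exact (hlvT r hr.1).2)
    refine h3.trans (le_of_eq ?_)
    rw [hq, ← Real.rpow_natCast, ← Real.rpow_mul (by norm_num)]
  refine (Finset.sum_le_sum h2).trans ?_
  have h3 : T.image lv ⊆ (Finset.range (T.sup lv + 1)).filter (fun l => k0 ≤ l) := by
    intro l hl
    rw [Finset.mem_image] at hl
    obtain ⟨r0, hr0, rfl⟩ := hl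
    rw [Finset.mem_filter, Finset.mem_range]
    exact ⟨Nat.lt_succ_of_le (Finset.le_sup (f := lv) hr0), (hlvT r0 hr0).1⟩
  refine (Finset.sum_le_sum_of_subset_of_nonneg h3 fun l _ _ => pow_nonneg hq0.le l).trans ?_
  have h4 : ∑ l ∈ (Finset.range (T.sup lv + 1)).filter (fun l => k0 ≤ l), q ^ l ≤
      q ^ k0 * (1 - q)⁻¹ := by
    have h5 : ∑ l ∈ (Finset.range (T.sup lv + 1)).filter (fun l => k0 ≤ l), q ^ l ≤
        ∑ i ∈ Finset.range (T.sup lv + 1), q ^ k0 * q ^ i := by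
      have h6 : (Finset.range (T.sup lv + 1)).filter (fun l => k0 ≤ l) ⊆
          (Finset.range (T.sup lv + 1)).image (fun i => k0 + i) := by
        intro l hl
        rw [Finset.mem_filter, Finset.mem_range] at hl
        rw [Finset.mem_image]
        exact ⟨l - k0, Finset.mem_range.mpr (by omega), by omega⟩
      refine (Finset.sum_le_sum_of_subset_of_nonneg h6 fun l _ _ => pow_nonneg hq0.le l).trans ?_
      rw [Finset.sum_image (fun a _ b _ hab => by simpa using hab)]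
      refine Finset.sum_le_sum fun i _ => ?_
      rw [pow_add]
    refine h5.trans ?_
    rw [← Finset.mul_sum]
    apply mul_le_mul_of_nonneg_left _ (pow_nonneg hq0.le _)
    rw [← tsum_geometric_of_lt_one hq0.le hq1]
    exact (summable_geometric_of_lt_one hq0.le hq1).sum_le_tsum _
      (fun i _ => pow_nonneg hq0.le i)
  refine h4.trans ?_
  have h5 := hK k0 hk0
  rw [pow_zero, mul_one] at h5
  have h6 : q ^ k0 = (2 : ℝ) ^ (-(τ / 8 * (k0 : ℝ))) := by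
    rw [hq, ← Real.rpow_natCast, ← Real.rpow_mul (by norm_num)]
    congr 1
    ring
  rw [h6, mul_comm, neg_mul]
  exact h5

theorem existsGood (h0 : EvLow) (h1 : EvWin1) (h2 : EvWin2) (h3 : EvMult) (h4 : EvMassR)
    (h5 : EvMassC) (h6 : EvCrude) (h7 : EvRPart) (h8 : EvHeavy1) (h9 : EvHeavy2) :
    ExistsGood := by
  intro S
  obtain ⟨e0, p0, K0, H0⟩ := h0 S
  obtain ⟨e1, p1, K1, H1⟩ := h1 S
  obtain ⟨e2, p2, K2, H2⟩ := h2 S
  obtain ⟨e3, p3, K3, H3⟩ := h3 S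
  obtain ⟨e4, p4, K4, H4⟩ := h4 S
  obtain ⟨e5, p5, K5, H5⟩ := h5 S
  obtain ⟨e6, p6, K6, H6⟩ := h6 S
  obtain ⟨e7, p7, K7, H7⟩ := h7 S
  obtain ⟨e8, p8, K8, H8⟩ := h8 S
  obtain ⟨e9, p9, K9, H9⟩ := h9 S
  -- the common rate
  set e : ℝ := min (min (min e0 e1) (min e2 e3)) (min (min (min e4 e5) (min e6 e7)) (min e8 e9))
    with he
  have hepos : 0 < e := by
    rw [he]
    simp only [lt_min_iff]
    exact ⟨⟨⟨p0, p1⟩, ⟨p2, p3⟩⟩, ⟨⟨⟨p4, p5⟩, ⟨p6, p7⟩⟩, ⟨p8, p9⟩⟩⟩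
  have hle : e ≤ e0 ∧ e ≤ e1 ∧ e ≤ e2 ∧ e ≤ e3 ∧ e ≤ e4 ∧ e ≤ e5 ∧ e ≤ e6 ∧ e ≤ e7 ∧ e ≤ e8 ∧
      e ≤ e9 := by
    have h : e ≤ e := le_rfl
    nth_rw 2 [he] at h
    simp only [le_min_iff] at h
    obtain ⟨⟨⟨a0, a1⟩, ⟨a2, a3⟩⟩, ⟨⟨⟨a4, a5⟩, ⟨a6, a7⟩⟩, ⟨a8, a9⟩⟩⟩ := h
    exact ⟨a0, a1, a2, a3, a4, a5, a6, a7, a8, a9⟩
  obtain ⟨L, hL⟩ := exists_levels_geom (ι := ℕ) (e / 2) (by linarith)
  obtain ⟨L', hL'⟩ := poly_exp 10 0 (e / 2) e (by linarith)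
  obtain ⟨L'', hL''⟩ := massR_sum S.tau (tau_pos S)
  set KK : ℕ := K0 + K1 + K2 + K3 + K4 + K5 + K6 + K7 + K8 + K9 with hKK
  refine ⟨KK + 4 * L + 4 * L' + L'' + S.K + 16, fun k0 hk0 => ?_⟩
  -- the thresholds
  have hmono : ∀ (a b : ℝ) (l : ℕ), b ≤ a → (2 : ℝ) ^ (-(a * l)) ≤ (2 : ℝ) ^ (-(b * l)) := by
    intro a b l hab
    apply Real.rpow_le_rpow_of_exponent_le (by norm_num)
    have : (0 : ℝ) ≤ l := Nat.cast_nonneg _
    nlinarith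
  have hfail : ∀ l, k0 / 4 ≤ l → pr (S.PP k0) (U10 (ev S k0 l)) ≤ (2 : ℝ) ^ (-(e / 2 * l)) := by
    intro l hl
    have hb : (0 : ℝ) ≤ (2 : ℝ) ^ (-(e * l)) := by positivity
    have h10 : pr (S.PP k0) (U10 (ev S k0 l)) ≤ 10 * (2 : ℝ) ^ (-(e * l)) := by
      refine pr_U10 _ _ _ fun i => ?_
      fin_cases i
      · exact ev_cond _ _ _ _ hb fun hk =>
          (H0 k0 (by omega) l hk).trans (hmono _ _ _ hle.1)
      · exact ev_cond _ _ _ _ hb fun hk =>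
          (H1 k0 (by omega) l hk).trans (hmono _ _ _ hle.2.1)
      · exact ev_cond _ _ _ _ hb fun hk =>
          (H2 k0 (by omega) l hk).trans (hmono _ _ _ hle.2.2.1)
      · exact ev_cond _ _ _ _ hb fun hk =>
          (H3 k0 (by omega) l hk).trans (hmono _ _ _ hle.2.2.2.1)
      · exact ev_cond _ _ _ _ hb fun hk =>
          (H4 k0 (by omega) l hk).trans (hmono _ _ _ hle.2.2.2.2.1)
      · exact ev_cond _ _ _ _ hb fun hk =>
          (H5 k0 (by omega) l hk).trans (hmono _ _ _ hle.2.2.2.2.2.1)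
      · exact ev_cond _ _ _ _ hb fun hk =>
          (H6 k0 (by omega) l hk).trans (hmono _ _ _ hle.2.2.2.2.2.2.1)
      · exact ev_cond _ _ _ _ hb fun hk =>
          (H7 k0 (by omega) l hk).trans (hmono _ _ _ hle.2.2.2.2.2.2.2.1)
      · exact ev_cond _ _ _ _ hb fun hk =>
          (H8 k0 (by omega) l hk).trans (hmono _ _ _ hle.2.2.2.2.2.2.2.2.1)
      · exact ev_cond _ _ _ _ hb fun hk =>
          (H9 k0 (by omega) l hk).trans (hmono _ _ _ hle.2.2.2.2.2.2.2.2.2)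
    refine h10.trans ?_
    have h11 := hL' l (by omega)
    rw [pow_zero, mul_one] at h11
    exact h11
  obtain ⟨R, hRs, hR⟩ := hL (k0 / 4) (by omega) (S.PP k0) (S.PP_mem k0)
    (fun l => U10 (ev S k0 l)) hfail
  have hprime : ∀ r ∈ R, r.Prime ∧ (2 : ℝ) ^ ((k0 : ℝ) / 5) ≤ r := by
    intro r hr
    have h11 : 0 < S.PP k0 r := hRs hr
    unfold Sys.PP at h11
    split_ifs at h11 with h12
    · exact h12
    · exact absurd h11 (lt_irrefl _)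
  refine ⟨R, ⟨hprime, ?_, ?_, ?_, ?_, ?_, ?_, ?_, ?_, ?_, ?_⟩⟩
  · -- lower
    intro k hk j hj
    by_contra hcon
    push Not at hcon
    exact not_ev S (hR k (by omega)) 0 ⟨hk, j, hj, hcon⟩
  · -- win1
    intro k hk j hj x h hx hh
    by_contra hcon
    push Not at hcon
    exact not_ev S (hR k (by omega)) 1 ⟨hk, j, hj, x, h, hx, hh, hcon⟩
  · -- win2
    intro k hk j hj x h hx hh
    by_contra hcon
    push Not at hcon
    exact not_ev S (hR k (by omega)) 2 ⟨hk, j, hj, x, h, hx, hh, hcon⟩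
  · -- mult
    intro q
    by_contra hcon
    push Not at hcon
    by_cases hl : (k0 : ℝ) / 4 ≤ Nat.log 2 q
    · have hl' : k0 / 4 ≤ Nat.log 2 q := by
        have : (k0 : ℝ) ≤ 4 * (Nat.log 2 q : ℝ) := by linarith
        have h11 : k0 ≤ 4 * Nat.log 2 q := by exact_mod_cast this
        omega
      exact not_ev S (hR (Nat.log 2 q) hl') 3 ⟨hl, q, rfl, hcon⟩
    · push Not at hl
      have h11 : 4 * Nat.log 2 q < k0 := by
        have : 4 * (Nat.log 2 q : ℝ) < (k0 : ℝ) := by linarith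
        exact_mod_cast this
      have h12 : S.own k0 R q = 0 := by
        unfold Sys.own
        rw [Finset.Ico_eq_empty]
        · rfl
        · unfold top; omega
      rw [h12, Nat.cast_zero] at hcon
      have : (0 : ℝ) ≤ (q : ℝ) ^ S.tau := Real.rpow_nonneg (Nat.cast_nonneg _) _
      linarith
  · -- massR
    intro T hT
    refine hL'' k0 (by omega) (fun r => S.base r * (r : ℝ) ^ (-S.s) * (1 + Real.log r) ^ 2) T
      (fun r _ => by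
        have := base_nonneg S r
        positivity)
      (fun r hr => (hprime r (hT r hr)).2) ?_
    intro l hl T' hT' hT'l
    by_contra hcon
    push Not at hcon
    exact not_ev S (hR l (by omega)) 4
      ⟨hl, T', fun r hr => ⟨hT r (hT' hr), hT'l r hr⟩, hcon⟩
  · -- massC
    intro k hk
    by_contra hcon
    push Not at hcon
    exact not_ev S (hR k (by omega)) 5 ⟨hk, hcon⟩
  · -- crude
    intro k x h hk hx1 hx2 hh1 hh2
    by_contra hcon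
    push Not at hcon
    have hk' : k0 / 4 ≤ k := by
      have h11 : (k0 : ℝ) ≤ 2 * (k : ℝ) := by linarith
      have h12 : k0 ≤ 2 * k := by exact_mod_cast h11
      omega
    exact not_ev S (hR k hk') 6 ⟨hk, x, h, hx1, hx2, hh1, hh2, hcon⟩
  · -- rpart
    intro k x h hk hx1 hx2 hh1 hh2
    by_contra hcon
    push Not at hcon
    have hk' : k0 / 4 ≤ k := by
      have h11 : (k0 : ℝ) ≤ 2 * (k : ℝ) := by linarith
      have h12 : k0 ≤ 2 * k := by exact_mod_cast h11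
      omega
    exact not_ev S (hR k hk') 7 ⟨hk, x, h, hx1, hx2, hh1, hh2, hcon⟩
  · -- heavy1
    intro k hk j hj
    by_contra hcon
    push Not at hcon
    exact not_ev S (hR k (by omega)) 8 ⟨hk, j, hj, hcon⟩
  · -- heavy2
    intro k hk j hj
    by_contra hcon
    push Not at hcon
    exact not_ev S (hR k (by omega)) 9 ⟨hk, j, hj, hcon⟩

end Pool.Agent.Helper62.KS
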