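import Mathlib
import Pool.Agent.Helper62.KS.ExistsGood

/-!
# Masses of the random set and of the control primes (project KS, MP_768c9c_nt)
-/

set_option autoImplicit false

open MeasureTheory
open scoped Classical
open Pool.Agent.Helper33.KS Pool.Agent.Helper16.KS

namespace Pool.Agent.Helper62.KS

theorem evMassC (hM : MassC1) : EvMassC := by
  intro S
  obtain ⟨K1, hK1⟩ := hM S
  have hc := c_pos S
  refine ⟨S.c / 4, by linarith, max K1 (max S.K 2), fun k0 hk0 k hk => ?_⟩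
  have hkK1 : K1 ≤ k := ((le_max_left _ _).trans hk0).trans hk
  have hkK : S.K ≤ k := (((le_max_left _ _).trans (le_max_right _ _)).trans hk0).trans hk
  have hk2 : 2 ≤ k := (((le_max_right _ _).trans (le_max_right _ _)).trans hk0).trans hk
  rw [PP_eq_PP]
  have hw : ∀ x : ℕ × ℕ, 0 ≤ S.wd k x.2 * (x.1 : ℝ) ^ (-S.s) := fun x =>
    mul_nonneg (wd_nonneg S k x.2) (Real.rpow_nonneg (Nat.cast_nonneg _) _)
  have h1 : IsPoly (PP S k0) 5
      (fun R => ∑ j ∈ S.badc k, ∑ x ∈ S.Cand k j,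
        (S.wd k x.2 * (x.1 : ℝ) ^ (-S.s)) * ind R x.2.primeFactors)
      (fun A => ∑ j ∈ S.badc k, ∑ x ∈ S.Cand k j,
        if A ⊆ x.2.primeFactors then (S.wd k x.2 * (x.1 : ℝ) ^ (-S.s)) *
          ∏ i ∈ x.2.primeFactors \ A, PP S k0 i else 0) :=
    IsPoly.sum _ _ _ fun j hj => IsPoly.sum _ _ _ fun x hx =>
      IsPoly.single _ (hw x) _ (cand_card S hkK hk2 hj hx)
  have h2 : IsPoly (PP S k0) 5
      (fun R => ∑ j ∈ S.badc k, ∑ x ∈ S.act R k j, S.wd k x.2 * (x.1 : ℝ) ^ (-S.s))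
      (fun A => ∑ j ∈ S.badc k, ∑ x ∈ (S.Cand k j).filter (fun x => A ⊆ x.2.primeFactors),
        S.wd k x.2 * (x.1 : ℝ) ^ (-S.s) * S.pc A x.2.primeFactors) := by
    refine h1.mono (fun R => Finset.sum_le_sum fun j hj => ?_)
      fun A => Finset.sum_le_sum fun j hj => ?_
    · unfold Sys.act
      rw [Finset.sum_filter]
      refine Finset.sum_le_sum fun x hx => ?_
      rw [ind_inR (cand_facts S hkK hj hx).2.2.2.1]
      split_ifs
      · rw [mul_one]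
      · rw [mul_zero]
    · rw [Finset.sum_filter]
      refine Finset.sum_le_sum fun x _ => ?_
      split_ifs
      · exact mul_le_mul_of_nonneg_left (prod_PP_le S k0 A _) (hw x)
      · exact le_rfl
  refine (h2.markov (PP_mem S k0) ((2 : ℝ) ^ (-(S.c / 2) * (k : ℝ)))
    ((2 : ℝ) ^ (-(S.c / 4) * (k : ℝ))) (by positivity) (hK1 k hkK1 ∅)).trans (le_of_eq ?_)
  rw [← Real.rpow_sub (by norm_num)]
  congr 1
  ring

theorem evMassR (hM : MassR1) : EvMassR := by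
  intro S
  obtain ⟨K1, hK1⟩ := hM S
  have ht := tau_pos S
  refine ⟨S.tau / 24, by linarith, K1, fun k0 hk0 l hl => ?_⟩
  rw [PP_eq_PP]
  set g : ℕ → ℝ := fun r => S.base r * (r : ℝ) ^ (-S.s) * (1 + Real.log r) ^ 2 with hg
  have hg0 : ∀ r, 0 ≤ g r := fun r =>
    mul_nonneg (mul_nonneg (base_nonneg S r) (Real.rpow_nonneg (Nat.cast_nonneg _) _))
      (sq_nonneg _)
  set T0 : Finset ℕ := (Finset.range (⌈(2 : ℝ) ^ (((l : ℝ) + 1) / 5)⌉₊)).filter
    (fun r => (2 : ℝ) ^ ((l : ℝ) / 5) ≤ r) with hT0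
  have h1 : IsPoly (PP S k0) 1 (fun R => ∑ r ∈ T0, g r * ind R {r})
      (fun A => ∑ r ∈ T0, if A ⊆ {r} then g r * ∏ i ∈ {r} \ A, PP S k0 i else 0) :=
    IsPoly.sum _ _ _ fun r _ => IsPoly.single _ (hg0 r) _ (by simp)
  have hset : {R : Set ℕ | ∃ T : Finset ℕ, (∀ r ∈ T, r ∈ R ∧ (2 : ℝ) ^ ((l : ℝ) / 5) ≤ r ∧
      (r : ℝ) < (2 : ℝ) ^ (((l : ℝ) + 1) / 5)) ∧
      (2 : ℝ) ^ (-(S.tau / 8) * (l : ℝ)) <
        ∑ r ∈ T, S.base r * (r : ℝ) ^ (-S.s) * (1 + Real.log r) ^ 2} ⊆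
      {R | (2 : ℝ) ^ (-(S.tau / 8) * (l : ℝ)) < ∑ r ∈ T0, g r * ind R {r}} := by
    intro R hR
    obtain ⟨T, hT, hlt⟩ := hR
    refine lt_of_lt_of_le hlt ?_
    have h2 : T ⊆ T0 := by
      intro r hr
      rw [hT0, Finset.mem_filter, Finset.mem_range]
      refine ⟨?_, (hT r hr).2.1⟩
      have h3 : (r : ℝ) < (⌈(2 : ℝ) ^ (((l : ℝ) + 1) / 5)⌉₊ : ℝ) :=
        lt_of_lt_of_le (hT r hr).2.2 (Nat.le_ceil _)
      exact_mod_cast h3
    calc ∑ r ∈ T, S.base r * (r : ℝ) ^ (-S.s) * (1 + Real.log r) ^ 2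
        = ∑ r ∈ T, g r * ind R {r} := by
          refine Finset.sum_congr rfl fun r hr => ?_
          have h3 : ind R {r} = 1 := by
            unfold ind
            rw [if_pos]
            simpa using (hT r hr).1
          rw [h3, mul_one]
      _ ≤ ∑ r ∈ T0, g r * ind R {r} :=
          Finset.sum_le_sum_of_subset_of_nonneg h2 fun r _ _ => mul_nonneg (hg0 r) (ind_nonneg _ _)
  refine (pr_mono _ hset).trans ?_
  have hmean : (fun A => ∑ r ∈ T0, if A ⊆ {r} then g r * ∏ i ∈ {r} \ A, PP S k0 i else 0)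
      (∅ : Finset ℕ) ≤ (2 : ℝ) ^ (-(S.tau / 6) * (l : ℝ)) := by
    refine le_trans (Finset.sum_le_sum fun r _ => ?_) (hK1 l (hk0.trans hl) T0 fun r hr => ?_)
    · rw [if_pos (Finset.empty_subset _), Finset.sdiff_empty, Finset.prod_singleton, mul_comm]
      exact mul_le_mul_of_nonneg_right (PP_le S k0 r) (hg0 r)
    · rw [hT0, Finset.mem_filter] at hr
      exact hr.2
  refine (h1.markov (PP_mem S k0) ((2 : ℝ) ^ (-(S.tau / 6) * (l : ℝ)))
    ((2 : ℝ) ^ (-(S.tau / 8) * (l : ℝ))) (by positivity) hmean).trans (le_of_eq ?_)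
  rw [← Real.rpow_sub (by norm_num)]
  congr 1
  ring

end Pool.Agent.Helper62.KS
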